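import Pool.Agent.helper87.AU.SpecQ1

/-!
# Project au (MP_97532f_ag), geometric part: Hilbert's formula for the different, with derivations

`K` is a finite group of automorphisms of the function field `F` which fix the place `P`, `Q` the
place of the fixed field `E` below `P`, `D` a derivation of `F` commuting with `K`, `z` an element
of `E` with `P.ord z = |K|` (a uniformiser at `Q`), `t` a uniformiser at `P`.  Then
`P.ord (D z) = P.ord (D t) + ∑ s ∈ K, s ≠ 1, P.ord (s t - t)`.
-/

namespace Pool.Agent.helper53.AU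

open scoped Classical IntermediateField
open Polynomial

noncomputable section

/-- the place `Q` of `E` lies below `P` with ramification index `e` -/
def HIL_Below {k F : Type} [Field k] [Field F] [Algebra k F] {E : IntermediateField k F}
    (P : Place k F) (Q : Place k E) (e : ℕ) : Prop :=
  0 < e ∧ ∀ f : E, P.ord (f : F) = e * Q.ord f

/-- Hilbert's formula -/
def HIL_stmt : Prop := ∀ (k F : Type) [Field k] [IsAlgClosed k] [Field F] [Algebra k F],
  ∀ (K : Subgroup (F ≃ₐ[k] F)) [Finite K] (P : Place k F),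
    (∀ s ∈ K, ∀ f : F, P.ord (s f) = P.ord f) →
    IsFF k (IntermediateField.fixedField K) →
    ∀ Q : Place k (IntermediateField.fixedField K), HIL_Below P Q (Nat.card K) →
    ∀ D : Derivation k F F, D ≠ 0 → (∀ s ∈ K, ∀ f : F, D (s f) = s (D f)) →
    ∀ z t : F, (∀ s ∈ K, s z = z) → P.ord z = Nat.card K → P.Unif t →
      D z ≠ 0 ∧ (∀ s ∈ K, s ≠ 1 → s t ≠ t) ∧
      P.ord (D z) = P.ord (D t) + ∑ᶠ s ∈ {s : F ≃ₐ[k] F | s ∈ K ∧ s ≠ 1}, P.ord (s t - t)

/-- the derivation of a value of a polynomial -/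
theorem HIL_deriv_eval {k F : Type} [Field k] [Field F] [Algebra k F] (D : Derivation k F F)
    (f : F[X]) (t : F) : D (f.eval t) =
      ∑ i ∈ Finset.range (f.natDegree + 1), D (f.coeff i) * t ^ i + f.derivative.eval t * D t := by
  have key : ∀ (n : ℕ) (f : F[X]), f.natDegree < n → D (f.eval t) =
      ∑ i ∈ Finset.range n, D (f.coeff i) * t ^ i + f.derivative.eval t * D t := by
    intro n f hf
    rw [eval_eq_sum_range' hf, map_sum]
    have h1 : f.derivative.eval t = ∑ i ∈ Finset.range n, f.coeff i * (i * t ^ (i - 1)) := by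
      rw [derivative_eval, Polynomial.sum_over_range' _ _ n hf]
      · refine Finset.sum_congr rfl fun i _ => ?_
        ring
      · intro i; simp
    rw [h1, Finset.sum_mul, ← Finset.sum_add_distrib]
    refine Finset.sum_congr rfl fun i _ => ?_
    rw [Derivation.leibniz, Derivation.leibniz_pow]
    simp only [smul_eq_mul, nsmul_eq_mul]
    ring
  exact key _ f (Nat.lt_succ_self _)

/-- coefficients of a product of linear factors with roots in the maximal ideal -/
theorem HIL_coeff_ge {k F : Type} [Field k] [Field F] [Algebra k F] (P : Place k F) {ι : Type}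
    (s : Finset ι) (b : ι → F) (hb : ∀ j ∈ s, P.Ge 1 (b j)) (i : ℕ) :
    P.Ge ((s.card : ℤ) - i) ((∏ j ∈ s, (X - C (b j))).coeff i) := by
  induction s using Finset.induction_on generalizing i with
  | empty =>
    rw [Finset.prod_empty, coeff_one, Finset.card_empty]
    split_ifs with h
    · right
      rw [P.ord_one, h]; simp
    · exact P.ge_zero _
  | insert j s hj ih =>
    rw [Finset.prod_insert hj, Finset.card_insert_of_notMem hj, sub_mul, coeff_sub]
    have hs : ∀ j ∈ s, P.Ge 1 (b j) := fun j hj => hb j (Finset.mem_insert_of_mem hj)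
    have h2 : P.Ge (((s.card + 1 : ℕ) : ℤ) - i) ((C (b j) * ∏ j ∈ s, (X - C (b j))).coeff i) := by
      rw [coeff_C_mul]
      have := (hb j (Finset.mem_insert_self j s)).mul (ih hs i)
      refine this.mono ?_
      push_cast; omega
    refine Place.Ge.sub ?_ h2
    cases i with
    | zero => rw [coeff_X_mul_zero]; exact P.ge_zero _
    | succ i =>
      rw [coeff_X_mul]
      refine (ih hs i).mono ?_
      push_cast; omega

/-- a derivation commuting with `K` restricts to the fixed field -/
def HIL_res {k F : Type} [Field k] [Field F] [Algebra k F] (K : Subgroup (F ≃ₐ[k] F))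
    (D : Derivation k F F) (hD : ∀ s ∈ K, ∀ f : F, D (s f) = s (D f)) :
    Derivation k (IntermediateField.fixedField K) (IntermediateField.fixedField K) where
  toFun a := ⟨D a, by
    rw [IntermediateField.mem_fixedField_iff]
    intro s hs
    rw [← hD s hs, (IntermediateField.mem_fixedField_iff K _).1 a.2 s hs]⟩
  map_add' a b := Subtype.ext (map_add D _ _)
  map_smul' c a := Subtype.ext (D.map_smul c (a : F))
  map_one_eq_zero' := Subtype.ext (D.map_one_eq_zero)
  leibniz' a b := Subtype.ext (D.leibniz (a : F) (b : F))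

theorem HIL_res_apply {k F : Type} [Field k] [Field F] [Algebra k F] (K : Subgroup (F ≃ₐ[k] F))
    (D : Derivation k F F) (hD : ∀ s ∈ K, ∀ f : F, D (s f) = s (D f))
    (a : IntermediateField.fixedField K) : ((HIL_res K D hD a : IntermediateField.fixedField K) : F)
      = D a := rfl

theorem HIL_res_ne {k F : Type} [Field k] [Field F] [Algebra k F] (K : Subgroup (F ≃ₐ[k] F))
    [Finite K] (D : Derivation k F F) (hD0 : D ≠ 0) (hD : ∀ s ∈ K, ∀ f : F, D (s f) = s (D f)) :
    HIL_res K D hD ≠ 0 := by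
  intro h0
  apply hD0
  have hz : ∀ a : IntermediateField.fixedField K, D (a : F) = 0 := by
    intro a
    have := congrArg (fun d => ((d a : IntermediateField.fixedField K) : F)) h0
    exact this
  have hsep : Algebra.IsSeparable (IntermediateField.fixedField K) F :=
    inferInstanceAs (Algebra.IsSeparable (FixedPoints.subfield K F) F)
  let D' : Derivation (IntermediateField.fixedField K) F F :=
    { toFun := fun f => D f
      map_add' := fun a b => map_add D a b
      map_smul' := fun a f => by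
        rw [RingHom.id_apply, Algebra.smul_def, Algebra.smul_def, D.leibniz]
        have : D (algebraMap (IntermediateField.fixedField K) F a) = 0 := hz a
        rw [this, smul_zero, add_zero, smul_eq_mul]
      map_one_eq_zero' := D.map_one_eq_zero
      leibniz' := fun a b => D.leibniz a b }
  ext y
  have h1 : aeval y (minpoly (IntermediateField.fixedField K) y) = 0 := minpoly.aeval _ _
  have h2 := D'.map_aeval (minpoly (IntermediateField.fixedField K) y) y
  rw [h1, map_zero] at h2
  have h3 : aeval y (derivative (minpoly (IntermediateField.fixedField K) y)) ≠ 0 :=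
    (Algebra.IsSeparable.isSeparable (IntermediateField.fixedField K) y).aeval_derivative_ne_zero
      (minpoly.aeval _ _)
  have h4 : D' y = D y := rfl
  rw [h4, smul_eq_mul] at h2
  rcases mul_eq_zero.1 h2.symm with h5 | h5
  · exact absurd h5 h3
  · exact h5

theorem HIL (hQK5 : QK5_stmt) : HIL_stmt := by
  intro k F _ _ _ _ K _ P hP hE Q hQ D hD0 hDK z t hz hzord ht
  have hKfin : Fintype K := Fintype.ofFinite K
  set e := Nat.card K with he
  obtain ⟨hepos, hQe⟩ := hQ
  have hecard : (Finset.univ : Finset K).card = e := by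
    rw [Finset.card_univ, he, Nat.card_eq_fintype_card]
  set D' := HIL_res K D hDK with hD'
  have hD'0 : D' ≠ 0 := HIL_res_ne K D hD0 hDK
  have hQge : ∀ (m : ℤ) (a : IntermediateField.fixedField K), Q.Ge m a → P.Ge (e * m) (a : F) := by
    intro m a ha
    rcases ha with h | h
    · left; rw [h]; rfl
    · right
      rw [hQe]
      exact mul_le_mul_of_nonneg_left h (by positivity)
  have hz0 : z ≠ 0 := by
    intro h
    rw [h, P.ord_zero] at hzord
    have : (0 : ℤ) < e := by exact_mod_cast hepos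
    omega
  -- `z` is a uniformiser of `Q`
  have hunif : ∀ a : IntermediateField.fixedField K, (a : F) ≠ 0 → P.ord (a : F) = e → Q.Unif a := by
    intro a ha hao
    refine ⟨fun h => ha (by rw [h]; rfl), ?_⟩
    rw [hQe] at hao
    have h1 : (0 : ℤ) < e := by exact_mod_cast hepos
    have h2 : (e : ℤ) * Q.ord a = e * 1 := by rw [hao, mul_one]
    exact mul_left_cancel₀ h1.ne' h2
  have hzE : z ∈ IntermediateField.fixedField K := (IntermediateField.mem_fixedField_iff K z).2 hz
  have hzQ : Q.Unif ⟨z, hzE⟩ := hunif ⟨z, hzE⟩ hz0 hzord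
  obtain ⟨hDz, hDzord, hDge, -⟩ := hQK5 k (IntermediateField.fixedField K) hE D' hD'0 Q ⟨z, hzE⟩ hzQ
  set δ := Q.ord (D' ⟨z, hzE⟩) with hδ
  have hDzF : D z ≠ 0 := fun h => hDz (Subtype.ext h)
  have hDzFord : P.ord (D z) = e * δ := hQe (D' ⟨z, hzE⟩)
  -- the polynomial
  set f : F[X] := ∏ s : K, (X - C ((s : F ≃ₐ[k] F) t)) with hf
  have hfmonic : f.Monic := monic_prod_of_monic _ _ fun s _ => monic_X_sub_C _
  have hfdeg : f.natDegree = e := by
    rw [hf, natDegree_prod_of_monic _ _ (fun s _ => monic_X_sub_C _)]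
    simp only [natDegree_X_sub_C]
    rw [Finset.sum_const, hecard, smul_eq_mul, mul_one]
  have hft : f.eval t = 0 := by
    rw [hf, eval_prod]
    refine Finset.prod_eq_zero (Finset.mem_univ (1 : K)) ?_
    simp
  have hfK : ∀ i, f.coeff i ∈ IntermediateField.fixedField K := by
    intro i
    rw [IntermediateField.mem_fixedField_iff]
    intro s hs
    have h1 : f.map (s : F →+* F) = f := by
      rw [hf, Polynomial.map_prod]
      have h2 : ∀ r : K, ((X - C ((r : F ≃ₐ[k] F) t)) : F[X]).map (s : F →+* F) =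
          X - C (((⟨s, hs⟩ * r : K) : F ≃ₐ[k] F) t) := by
        intro r
        rw [Polynomial.map_sub, map_X, map_C]
        rfl
      simp_rw [h2]
      exact Fintype.prod_equiv (Equiv.mulLeft (⟨s, hs⟩ : K)) _ _ (fun r => rfl)
    have h3 := congrArg (fun g : F[X] => g.coeff i) h1
    simp only [coeff_map] at h3
    exact h3
  have htge : ∀ s : K, P.Ge 1 ((s : F ≃ₐ[k] F) t) := by
    intro s
    right
    rw [hP s s.2, ht.2]
  have hcoeff : ∀ i : ℕ, P.Ge ((e : ℤ) - i) (f.coeff i) := by
    intro i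
    have := HIL_coeff_ge P (Finset.univ : Finset K) (fun s => (s : F ≃ₐ[k] F) t)
      (fun s _ => htge s) i
    rwa [hecard] at this
  -- the constant coefficient
  have hst0 : ∀ s : K, ((s : F ≃ₐ[k] F) t) ≠ 0 := fun s h => by
    have := (htge s).le
    apply ht.1
    have h2 : (s : F ≃ₐ[k] F) t = (s : F ≃ₐ[k] F) 0 := by rw [h, map_zero]
    exact (s : F ≃ₐ[k] F).injective h2
  have hprodord : ∀ S : Finset K, (∏ s ∈ S, (-((s : F ≃ₐ[k] F) t))) ≠ 0 ∧
      P.ord (∏ s ∈ S, (-((s : F ≃ₐ[k] F) t))) = S.card := by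
    intro S
    induction S using Finset.induction_on with
    | empty => simp [P.ord_one]
    | insert a S ha ih =>
      rw [Finset.prod_insert ha]
      have h1 : -((a : F ≃ₐ[k] F) t) ≠ 0 := neg_ne_zero.2 (hst0 a)
      refine ⟨mul_ne_zero h1 ih.1, ?_⟩
      rw [P.ord_mul _ _ h1 ih.1, ih.2, P.ord_neg, hP a a.2, ht.2, Finset.card_insert_of_notMem ha]
      push_cast; ring
  have hc0 : f.coeff 0 = ∏ s : K, (-((s : F ≃ₐ[k] F) t)) := by
    rw [coeff_zero_eq_eval_zero, hf, eval_prod]
    refine Finset.prod_congr rfl fun s _ => ?_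
    simp
  have hc0ne : f.coeff 0 ≠ 0 := by rw [hc0]; exact (hprodord _).1
  have hc0ord : P.ord (f.coeff 0) = e := by
    rw [hc0, (hprodord _).2, hecard]
  have hc0Q : Q.Unif ⟨f.coeff 0, hfK 0⟩ := hunif ⟨f.coeff 0, hfK 0⟩ hc0ne hc0ord
  obtain ⟨hDc0, hDc0ord, -, -⟩ := hQK5 k (IntermediateField.fixedField K) hE D' hD'0 Q ⟨f.coeff 0, hfK 0⟩ hc0Q
  have hDc0F : D (f.coeff 0) ≠ 0 := fun h => hDc0 (Subtype.ext h)
  have hDc0Ford : P.ord (D (f.coeff 0)) = e * δ := by
    have h1 : P.ord (D (f.coeff 0)) = e * Q.ord (D' ⟨f.coeff 0, hfK 0⟩) :=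
      hQe (D' ⟨f.coeff 0, hfK 0⟩)
    rw [h1, hDc0ord, ← hDzord]
  -- the other coefficients
  have hrest : ∀ i : ℕ, 1 ≤ i → P.Ge (e * δ + 1) (D (f.coeff i) * t ^ i) := by
    intro i hi
    have hti : P.Ge (i : ℤ) (t ^ i) := by
      have := (Place.ge_ord P t).pow i
      rw [ht.2, mul_one] at this
      exact this
    by_cases hin : i < e
    · have h1 : Q.Ge 1 ⟨f.coeff i, hfK i⟩ := by
        by_cases h0 : f.coeff i = 0
        · left; exact Subtype.ext h0
        · right
          have h2 := (hcoeff i).le h0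
          have h3 : P.ord (f.coeff i) = e * Q.ord ⟨f.coeff i, hfK i⟩ := hQe ⟨f.coeff i, hfK i⟩
          rw [h3] at h2
          by_contra h4
          push Not at h4
          have h5 : Q.ord ⟨f.coeff i, hfK i⟩ ≤ 0 := by omega
          have h6 : (e : ℤ) * Q.ord ⟨f.coeff i, hfK i⟩ ≤ 0 :=
            mul_nonpos_of_nonneg_of_nonpos (by positivity) h5
          omega
      have h2 := hDge 1 _ h1
      have h3 : P.Ge (e * δ) (D (f.coeff i)) := by
        have := hQge _ _ h2
        rw [sub_self, zero_add] at this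
        exact this
      refine (h3.mul hti).mono ?_
      omega
    · rcases (not_lt.1 hin).eq_or_lt with h1 | h1
      · have h2 : f.coeff i = 1 := by
          rw [← h1, ← hfdeg]; exact hfmonic.coeff_natDegree
        left
        rw [h2, D.map_one_eq_zero, zero_mul]
      · have h2 : f.coeff i = 0 := coeff_eq_zero_of_natDegree_lt (by rw [hfdeg]; exact h1)
        left
        rw [h2, map_zero, zero_mul]
  have hder := HIL_deriv_eval D f t
  rw [hft, map_zero, Finset.sum_range_succ', pow_zero, mul_one] at hder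
  have hsumge : P.Ge (P.ord (D (f.coeff 0)) + 1)
      (∑ i ∈ Finset.range f.natDegree, D (f.coeff (i + 1)) * t ^ (i + 1)) := by
    rw [hDc0Ford]
    exact Place.Ge.sum _ _ fun i _ => hrest (i + 1) (by omega)
  obtain ⟨hne, hord⟩ := Place.ord_add_eq hDc0F hsumge
  have hfDt : f.derivative.eval t * D t = -(D (f.coeff 0) +
      ∑ i ∈ Finset.range f.natDegree, D (f.coeff (i + 1)) * t ^ (i + 1)) := by
    linear_combination -hder
  have hprod0 : f.derivative.eval t * D t ≠ 0 := by rw [hfDt]; exact neg_ne_zero.2 hne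
  have hder0 : f.derivative.eval t ≠ 0 := left_ne_zero_of_mul hprod0
  have hDt0 : D t ≠ 0 := right_ne_zero_of_mul hprod0
  have hordeq : P.ord (f.derivative.eval t) + P.ord (D t) = e * δ := by
    rw [← P.ord_mul _ _ hder0 hDt0, hfDt, P.ord_neg, hord, hDc0Ford]
  -- the derivative at `t`
  set A : Finset K := Finset.univ.erase 1 with hA
  have hder' : f.derivative.eval t = ∏ s ∈ A, (t - (s : F ≃ₐ[k] F) t) := by
    have h1 : f = (X - C t) * ∏ s ∈ A, (X - C ((s : F ≃ₐ[k] F) t)) := by
      rw [hf, ← Finset.mul_prod_erase (Finset.univ : Finset K)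
        (fun s => (X - C ((s : F ≃ₐ[k] F) t))) (Finset.mem_univ 1)]
      rfl
    rw [h1, derivative_mul, eval_add, eval_mul, eval_mul]
    simp [eval_prod]
  have hne1 : ∀ s ∈ A, t - (s : F ≃ₐ[k] F) t ≠ 0 := by
    rw [hder'] at hder0
    exact fun s hs => (Finset.prod_ne_zero_iff.1 hder0) s hs
  have hprodord2 : ∀ S : Finset K, (∀ s ∈ S, t - (s : F ≃ₐ[k] F) t ≠ 0) →
      (∏ s ∈ S, (t - (s : F ≃ₐ[k] F) t)) ≠ 0 ∧
      P.ord (∏ s ∈ S, (t - (s : F ≃ₐ[k] F) t)) = ∑ s ∈ S, P.ord ((s : F ≃ₐ[k] F) t - t) := by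
    intro S
    induction S using Finset.induction_on with
    | empty => intro _; simp [P.ord_one]
    | insert a S ha ih =>
      intro hS
      have h0 := hS a (Finset.mem_insert_self _ _)
      have ih' := ih (fun s hs => hS s (Finset.mem_insert_of_mem hs))
      rw [Finset.prod_insert ha, Finset.sum_insert ha]
      refine ⟨mul_ne_zero h0 ih'.1, ?_⟩
      rw [P.ord_mul _ _ h0 ih'.1, ih'.2, ← P.ord_neg, neg_sub]
  refine ⟨hDzF, ?_, ?_⟩
  · intro s hs hs1 hst
    have := hne1 ⟨s, hs⟩ (by
      rw [hA, Finset.mem_erase]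
      exact ⟨fun h => hs1 (congrArg Subtype.val h), Finset.mem_univ _⟩)
    exact this (by rw [hst, sub_self])
  · have hfs : ∑ᶠ s ∈ {s : F ≃ₐ[k] F | s ∈ K ∧ s ≠ 1}, P.ord (s t - t) =
        ∑ s ∈ A, P.ord ((s : F ≃ₐ[k] F) t - t) := by
      have h1 : {s : F ≃ₐ[k] F | s ∈ K ∧ s ≠ 1} = ((A.map ⟨Subtype.val, Subtype.val_injective⟩ :
          Finset (F ≃ₐ[k] F)) : Set (F ≃ₐ[k] F)) := by
        ext s
        simp only [Set.mem_ofPred_eq, Finset.coe_map, Function.Embedding.coeFn_mk, Set.mem_image,
          Finset.mem_coe, hA, Finset.mem_erase, Finset.mem_univ, and_true, Subtype.exists,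
          exists_and_right, exists_eq_right]
        constructor
        · rintro ⟨h1, h2⟩
          exact ⟨h1, fun h => h2 (congrArg Subtype.val h)⟩
        · rintro ⟨h1, h2⟩
          exact ⟨h1, fun h => h2 (Subtype.ext h)⟩
      rw [h1, finsum_mem_coe_finset, Finset.sum_map]
      rfl
    rw [hfs, ← (hprodord2 A hne1).2, ← hder', hDzFord]
    linarith

end

end Pool.Agent.helper53.AU
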