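import Pool.Agent.helper87.AU.SpecQ2
import Pool.Agent.helper79.AU.HIL

/-!
# Project au: QH3 (Hilbert's formula in general)
-/

namespace Pool.Agent.helper53.AU

open scoped Classical IntermediateField
open IntermediateField (fixedField)

/-- the stabiliser of `P` in `H` -/
def QH3_K {k F : Type} [Field k] [Field F] [Algebra k F] (H : Subgroup (F ≃ₐ[k] F))
    (P : Place k F) : Subgroup (F ≃ₐ[k] F) := H ⊓ MulAction.stabilizer (F ≃ₐ[k] F) P

theorem QH3_mem {k F : Type} [Field k] [Field F] [Algebra k F] (H : Subgroup (F ≃ₐ[k] F))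
    (P : Place k F) (s : F ≃ₐ[k] F) : s ∈ QH3_K H P ↔ s ∈ H ∧ s • P = P := by
  rw [QH3_K, Subgroup.mem_inf, MulAction.mem_stabilizer_iff]

theorem QH3_card {k F : Type} [Field k] [Field F] [Algebra k F] (H : Subgroup (F ≃ₐ[k] F))
    (P : Place k F) : Nat.card (QH3_K H P) = stabCard H P := by
  refine Nat.card_congr ⟨fun s => ⟨⟨s.1, ((QH3_mem H P s.1).1 s.2).1⟩, ((QH3_mem H P s.1).1 s.2).2⟩,
    fun s => ⟨s.1.1, (QH3_mem H P s.1.1).2 ⟨s.1.2, s.2⟩⟩, fun s => rfl, fun s => rfl⟩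

theorem QH3_stabCard {k F : Type} [Field k] [Field F] [Algebra k F] (K : Subgroup (F ≃ₐ[k] F))
    (P : Place k F) (hK : ∀ s ∈ K, s • P = P) : stabCard K P = Nat.card K :=
  Nat.card_congr ⟨fun s => s.1, fun s => ⟨s, hK s s.2⟩, fun s => rfl, fun s => rfl⟩

theorem QH3 (hHIL : HIL_stmt) (hQE1 : QE1_stmt) (hQE2 : QE2_stmt) (hQE5 : QE5_stmt)
    (hQF1 : QF1_stmt) : QH3_stmt := by
  intro k F _ _ _ _ hFF H hH P Q e hQ D D₀ hD hD₀ hinv hres
  set K := QH3_K H P with hK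
  have hKfix : ∀ s ∈ K, s • P = P := fun s hs => ((QH3_mem H P s).1 hs).2
  have hKH : ∀ s ∈ K, s ∈ H := fun s hs => ((QH3_mem H P s).1 hs).1
  have hKfin : Finite K := Finite.of_injective (fun s : K => (⟨s.1, hKH s.1 s.2⟩ : H)) (by
    intro a b hab
    exact Subtype.ext (congrArg (fun s : H => (s : F ≃ₐ[k] F)) hab))
  obtain ⟨⟨Q', e', hQ'⟩, -⟩ := hQE2 k F hFF K hKfin P
  have he' : e' = Nat.card K := by
    rw [hQE5 k F hFF K hKfin P Q' e' hQ', QH3_stabCard K P hKfix]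
  have he : e = Nat.card K := by
    rw [hQE5 k F hFF H hH P Q e hQ, hK, QH3_card]
  have hQB : HIL_Below P Q' (Nat.card K) := by
    rw [← he']; exact hQ'
  have hzK : ∀ s ∈ K, s ((Q.unif : fixedField H) : F) = (Q.unif : F) := fun s hs =>
    (IntermediateField.mem_fixedField_iff H _).1 (Q.unif).2 s (hKH s hs)
  have hzord : P.ord ((Q.unif : fixedField H) : F) = Nat.card K := by
    rw [hQ.2, Q.unif_spec.2, he, mul_one]
  obtain ⟨hDz, hst, hord⟩ := hHIL k F K P (fun s hs f => ord_apply_of_smul_eq (hKfix s hs) f)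
    (hQE1 k F hFF K hKfin).1 Q' hQB D hD (fun s hs f => hinv s (hKH s hs) f)
    ((Q.unif : fixedField H) : F) P.unif hzK hzord P.unif_spec
  have h1 : (e : ℤ) * Q.ord (D₀ Q.unif) = P.ord (D ((Q.unif : fixedField H) : F)) := by
    rw [← hres, hQ.2]
  rw [h1, hord, add_sub_cancel_left]
  have hHfin : Fintype H := Fintype.ofFinite H
  have h2 : ∑ᶠ s : H, (if (s : F ≃ₐ[k] F) ≠ 1 ∧ (s : F ≃ₐ[k] F) • P = P then
      ((P.jump s : ℤ) + 1) else 0) = ∑ᶠ s ∈ {s : F ≃ₐ[k] F | s ∈ K ∧ s ≠ 1},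
        (P.ord (s P.unif - P.unif)) := by
    rw [finsum_eq_sum_of_fintype, ← Finset.sum_filter]
    have h3 : {s : F ≃ₐ[k] F | s ∈ K ∧ s ≠ 1} = (((Finset.univ.filter (fun s : H =>
        (s : F ≃ₐ[k] F) ≠ 1 ∧ (s : F ≃ₐ[k] F) • P = P)).map
          ⟨Subtype.val, Subtype.val_injective⟩ : Finset (F ≃ₐ[k] F)) : Set (F ≃ₐ[k] F)) := by
      ext s
      simp only [Set.mem_ofPred_eq, Finset.coe_map, Function.Embedding.coeFn_mk, Set.mem_image,
        Finset.mem_coe, Finset.mem_filter, Finset.mem_univ, true_and]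
      rw [hK, QH3_mem]
      constructor
      · rintro ⟨⟨h4, h5⟩, h6⟩
        exact ⟨⟨s, h4⟩, ⟨h6, h5⟩, rfl⟩
      · rintro ⟨⟨s', h4⟩, ⟨h6, h5⟩, rfl⟩
        exact ⟨⟨h4, h5⟩, h6⟩
    rw [h3, finsum_mem_coe_finset, Finset.sum_map]
    refine Finset.sum_congr rfl fun s hs => ?_
    rw [Finset.mem_filter] at hs
    exact ((hQF1 k F hFF P s hs.2.2 hs.2.1).1 P.unif P.unif_spec).2.symm
  rw [h2]

end Pool.Agent.helper53.AU
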