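import Pool.Agent.helper87.AU.SpecQ2
import Pool.Agent.helper79.AU.HIL
import Pool.Agent.helper79.AU.QH3

/-!
# Project au: QH5 (Herbrand, first part)
-/

namespace Pool.Agent.helper53.AU

open scoped Classical IntermediateField
open IntermediateField (fixedField)

/-- `c` sends the fixed field of `Q` to itself when `c⁻¹ Q c ⊆ Q` -/
theorem QH5_mem {k F : Type} [Field k] [Field F] [Algebra k F] (Q : Subgroup (F ≃ₐ[k] F))
    (c : F ≃ₐ[k] F) (hc : ∀ q ∈ Q, c⁻¹ * q * c ∈ Q) (f : fixedField Q) :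
    c (f : F) ∈ fixedField Q := by
  rw [IntermediateField.mem_fixedField_iff]
  intro q hq
  have h1 := (IntermediateField.mem_fixedField_iff Q _).1 f.2 _ (hc q hq)
  have h2 : (c * (c⁻¹ * q * c)) (f : F) = c (f : F) := by
    rw [AlgEquiv.mul_apply, h1]
  have h3 : c * (c⁻¹ * q * c) = q * c := by group
  rw [h3] at h2
  exact h2

/-- the subgroup of the elements normalising `Q` -/
def QH5_N {k F : Type} [Field k] [Field F] [Algebra k F] (Q : Subgroup (F ≃ₐ[k] F)) :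
    Subgroup (F ≃ₐ[k] F) where
  carrier := {c | (∀ q ∈ Q, c * q * c⁻¹ ∈ Q) ∧ (∀ q ∈ Q, c⁻¹ * q * c ∈ Q)}
  mul_mem' := by
    rintro a b ⟨ha, ha'⟩ ⟨hb, hb'⟩
    refine ⟨fun q hq => ?_, fun q hq => ?_⟩
    · have := ha _ (hb q hq)
      have h2 : a * b * q * (a * b)⁻¹ = a * (b * q * b⁻¹) * a⁻¹ := by group
      rw [h2]; exact this
    · have := hb' _ (ha' q hq)
      have h2 : (a * b)⁻¹ * q * (a * b) = b⁻¹ * (a⁻¹ * q * a) * b := by group
      rw [h2]; exact this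
  one_mem' := by
    refine ⟨fun q hq => ?_, fun q hq => ?_⟩
    · simpa using hq
    · simpa using hq
  inv_mem' := by
    rintro a ⟨ha, ha'⟩
    refine ⟨fun q hq => ?_, fun q hq => ?_⟩
    · rw [inv_inv]; exact ha' q hq
    · rw [inv_inv]; exact ha q hq

/-- restriction to the fixed field of `Q` of the automorphisms normalising `Q` -/
def QH5_res {k F : Type} [Field k] [Field F] [Algebra k F] (Q : Subgroup (F ≃ₐ[k] F)) :
    QH5_N Q →* (fixedField Q ≃ₐ[k] fixedField Q) where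
  toFun c :=
    { toFun := fun f => ⟨(c : F ≃ₐ[k] F) (f : F), QH5_mem Q c c.2.2 f⟩
      invFun := fun f => ⟨((c : F ≃ₐ[k] F)⁻¹) (f : F), QH5_mem Q (c : F ≃ₐ[k] F)⁻¹
        (fun q hq => by rw [inv_inv]; exact c.2.1 q hq) f⟩
      left_inv := fun f => Subtype.ext ((c : F ≃ₐ[k] F).symm_apply_apply (f : F))
      right_inv := fun f => Subtype.ext ((c : F ≃ₐ[k] F).apply_symm_apply (f : F))
      map_mul' := fun a b => Subtype.ext (map_mul (c : F ≃ₐ[k] F) (a : F) (b : F))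
      map_add' := fun a b => Subtype.ext (map_add (c : F ≃ₐ[k] F) (a : F) (b : F))
      commutes' := fun r => Subtype.ext ((c : F ≃ₐ[k] F).commutes r) }
  map_one' := rfl
  map_mul' a b := rfl

theorem QH5_res_apply {k F : Type} [Field k] [Field F] [Algebra k F] (Q : Subgroup (F ≃ₐ[k] F))
    (c : QH5_N Q) (f : fixedField Q) :
    ((QH5_res Q c f : fixedField Q) : F) = (c : F ≃ₐ[k] F) (f : F) := rfl

theorem QH5_res_eq_one {k F : Type} [Field k] [Field F] [Algebra k F] (Q : Subgroup (F ≃ₐ[k] F))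
    (hQ : Finite Q) (c : QH5_N Q) : QH5_res Q c = 1 ↔ (c : F ≃ₐ[k] F) ∈ Q := by
  constructor
  · intro h
    have h1 : ∀ f : fixedField Q, (c : F ≃ₐ[k] F) (f : F) = f := by
      intro f
      rw [← QH5_res_apply, h]
      rfl
    let c' : F ≃ₐ[FixedPoints.subfield Q F] F :=
      { (c : F ≃ₐ[k] F) with
        commutes' := fun f => h1 ⟨f.1, f.2⟩ }
    obtain ⟨q, hq⟩ := FixedPoints.toAlgAut_surjective Q F c'
    have h2 : (c : F ≃ₐ[k] F) = q := by
      ext x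
      have := congrArg (fun g : F ≃ₐ[FixedPoints.subfield Q F] F => g x) hq
      exact this.symm
    rw [h2]
    exact q.2
  · intro h
    ext f
    rw [QH5_res_apply]
    exact (IntermediateField.mem_fixedField_iff Q _).1 f.2 _ h

/-- the image of `W` in the automorphism group of the fixed field of `Q` -/
def QH5_W {k F : Type} [Field k] [Field F] [Algebra k F] (W Q : Subgroup (F ≃ₐ[k] F))
    (hW : W ≤ QH5_N Q) : W →* (fixedField Q ≃ₐ[k] fixedField Q) :=
  (QH5_res Q).comp (Subgroup.inclusion hW)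

theorem QH5_W_apply {k F : Type} [Field k] [Field F] [Algebra k F] (W Q : Subgroup (F ≃ₐ[k] F))
    (hW : W ≤ QH5_N Q) (s : W) (f : fixedField Q) :
    ((QH5_W W Q hW s f : fixedField Q) : F) = (s : F ≃ₐ[k] F) (f : F) := rfl

theorem QH5_W_eq_one {k F : Type} [Field k] [Field F] [Algebra k F] (W Q : Subgroup (F ≃ₐ[k] F))
    (hQ : Finite Q) (hW : W ≤ QH5_N Q) (s : W) : QH5_W W Q hW s = 1 ↔ (s : F ≃ₐ[k] F) ∈ Q :=
  QH5_res_eq_one Q hQ (Subgroup.inclusion hW s)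

theorem QH5_W_card {k F : Type} [Field k] [Field F] [Algebra k F] (W Q : Subgroup (F ≃ₐ[k] F))
    (hQ : Finite Q) (hW : W ≤ QH5_N Q) (hQW : Q ≤ W) :
    Nat.card (QH5_W W Q hW).range * Nat.card Q = Nat.card W := by
  rw [← Subgroup.index_ker]
  have h1 : (QH5_W W Q hW).ker = Q.subgroupOf W := by
    ext s
    rw [MonoidHom.mem_ker, QH5_W_eq_one W Q hQ hW, Subgroup.mem_subgroupOf]
  rw [h1, mul_comm]
  have h2 : Nat.card Q = Nat.card (Q.subgroupOf W) :=
    (Nat.card_congr (Subgroup.subgroupOfEquivOfLe hQW).toEquiv).symm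
  rw [h2]
  exact Subgroup.card_mul_index _

theorem QH5_sum (hHIL : HIL_stmt) (hQE1 : QE1_stmt) (hQE2 : QE2_stmt) (hQE5 : QE5_stmt)
    (hQE6 : QE6_stmt) {k F : Type} [Field k] [IsAlgClosed k] [Field F] [Algebra k F]
    (hFF : IsFF k F) (W Q : Subgroup (F ≃ₐ[k] F)) (hWfin : Finite W) (hQfin : Finite Q)
    (P : Place k F) (hWP : ∀ s ∈ W, s • P = P) (hQW : Q ≤ W) (hW : W ≤ QH5_N Q)
    (R : Place k (fixedField Q)) (hR : Below (fixedField Q) P R (Nat.card Q)) :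
    ∑ᶠ s ∈ {s : F ≃ₐ[k] F | s ∈ W ∧ s ≠ 1}, P.ord (s P.unif - P.unif) =
      ∑ᶠ s ∈ {s : F ≃ₐ[k] F | s ∈ Q ∧ s ≠ 1}, P.ord (s P.unif - P.unif) +
      (Nat.card Q : ℤ) * ∑ᶠ s ∈ {s : fixedField Q ≃ₐ[k] fixedField Q |
        s ∈ (QH5_W W Q hW).range ∧ s ≠ 1}, R.ord (s R.unif - R.unif) := by
  obtain ⟨D, D₀, hD, hD₀, hDW, -⟩ := hQE6 k F hFF W hWfin
  have hDQ : ∀ s ∈ Q, ∀ f : F, D (s f) = s (D f) := fun s hs => hDW s (hQW hs)
  have hEFF : IsFF k (fixedField Q) := (hQE1 k F hFF Q hQfin).1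
  have hQP : ∀ s ∈ Q, s • P = P := fun s hs => hWP s (hQW hs)
  have hm : 0 < Nat.card Q := hR.1
  -- the place of the fixed field of `W`
  obtain ⟨⟨S, e, hS⟩, -⟩ := hQE2 k F hFF W hWfin P
  have he : e = Nat.card W := by
    rw [hQE5 k F hFF W hWfin P S e hS, QH3_stabCard W P hWP]
  rw [he] at hS
  have hzW : ∀ s ∈ W, s ((S.unif : fixedField W) : F) = (S.unif : F) := fun s hs =>
    (IntermediateField.mem_fixedField_iff W _).1 (S.unif).2 s hs
  have hzord : P.ord ((S.unif : fixedField W) : F) = Nat.card W := by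
    rw [hS.2, S.unif_spec.2, mul_one]
  obtain ⟨-, -, hord1⟩ := hHIL k F W P (fun s hs f => ord_apply_of_smul_eq (hWP s hs) f)
    (hQE1 k F hFF W hWfin).1 S hS D hD hDW ((S.unif : fixedField W) : F) P.unif hzW hzord
    P.unif_spec
  -- the place of the fixed field of `Q`
  have hz1Q : ∀ s ∈ Q, s ((R.unif : fixedField Q) : F) = (R.unif : F) := fun s hs =>
    (IntermediateField.mem_fixedField_iff Q _).1 (R.unif).2 s hs
  have hz1ord : P.ord ((R.unif : fixedField Q) : F) = Nat.card Q := by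
    rw [hR.2, R.unif_spec.2, mul_one]
  obtain ⟨-, -, hord2⟩ := hHIL k F Q P (fun s hs f => ord_apply_of_smul_eq (hQP s hs) f)
    hEFF R hR D hD hDQ ((R.unif : fixedField Q) : F) P.unif hz1Q hz1ord P.unif_spec
  -- the group `W / Q` on the fixed field of `Q`
  have hRord : ∀ s ∈ (QH5_W W Q hW).range, ∀ f : fixedField Q, R.ord (s f) = R.ord f := by
    rintro _ ⟨s, rfl⟩ f
    have h1 := hR.2 (QH5_W W Q hW s f)
    rw [QH5_W_apply, ord_apply_of_smul_eq (hWP s s.2), hR.2] at h1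
    have h2 : (Nat.card Q : ℤ) ≠ 0 := by exact_mod_cast hm.ne'
    exact (mul_left_cancel₀ h2 h1).symm
  have hRfix : ∀ s ∈ (QH5_W W Q hW).range, s • R = R := by
    intro s hs
    ext f
    rw [smul_ord]
    have := hRord s hs (s.symm f)
    rw [AlgEquiv.apply_symm_apply] at this
    exact this.symm
  have hW'fin : Finite (QH5_W W Q hW).range := by
    exact Finite.of_surjective (QH5_W W Q hW).rangeRestrict (MonoidHom.rangeRestrict_surjective _)
  obtain ⟨⟨T, e', hT⟩, -⟩ := hQE2 k (fixedField Q) hEFF (QH5_W W Q hW).range hW'fin R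
  have he' : e' = Nat.card (QH5_W W Q hW).range := by
    rw [hQE5 k (fixedField Q) hEFF (QH5_W W Q hW).range hW'fin R T e' hT,
      QH3_stabCard (QH5_W W Q hW).range R hRfix]
  rw [he'] at hT
  have hzQ : ((S.unif : fixedField W) : F) ∈ fixedField Q := by
    rw [IntermediateField.mem_fixedField_iff]
    exact fun s hs => hzW s (hQW hs)
  have hz'fix : ∀ s ∈ (QH5_W W Q hW).range,
      s (⟨((S.unif : fixedField W) : F), hzQ⟩ : fixedField Q) = ⟨((S.unif : fixedField W) : F), hzQ⟩ := by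
    rintro _ ⟨s, rfl⟩
    exact Subtype.ext (hzW s s.2)
  have hcard := QH5_W_card W Q hQfin hW hQW
  have hz'ord : R.ord (⟨((S.unif : fixedField W) : F), hzQ⟩ : fixedField Q) =
      Nat.card (QH5_W W Q hW).range := by
    have h1 := hR.2 (⟨((S.unif : fixedField W) : F), hzQ⟩ : fixedField Q)
    have h2 : P.ord ((⟨((S.unif : fixedField W) : F), hzQ⟩ : fixedField Q) : F) =
      P.ord ((S.unif : fixedField W) : F) := rfl
    rw [h2, hzord, ← hcard] at h1
    have h3 : (Nat.card Q : ℤ) ≠ 0 := by exact_mod_cast hm.ne'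
    apply mul_left_cancel₀ h3
    rw [← h1]
    push_cast; ring
  have hDE : ∀ s ∈ (QH5_W W Q hW).range, ∀ f : fixedField Q,
      HIL_res Q D hDQ (s f) = s (HIL_res Q D hDQ f) := by
    rintro _ ⟨s, rfl⟩ f
    exact Subtype.ext (hDW s s.2 (f : F))
  obtain ⟨-, -, hord3⟩ := hHIL k (fixedField Q) (QH5_W W Q hW).range R hRord
    (hQE1 k (fixedField Q) hEFF _ hW'fin).1 T hT (HIL_res Q D hDQ) (HIL_res_ne Q D hD hDQ) hDE
    (⟨((S.unif : fixedField W) : F), hzQ⟩ : fixedField Q) R.unif hz'fix hz'ord R.unif_spec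
  have h4 := hR.2 (HIL_res Q D hDQ (⟨((S.unif : fixedField W) : F), hzQ⟩ : fixedField Q))
  have h5 := hR.2 (HIL_res Q D hDQ R.unif)
  rw [HIL_res_apply] at h4 h5
  have h6 : P.ord (D ((⟨((S.unif : fixedField W) : F), hzQ⟩ : fixedField Q) : F)) =
    P.ord (D ((S.unif : fixedField W) : F)) := rfl
  rw [h6, hord3, hord1] at h4
  rw [hord2] at h5
  linear_combination h4 - h5

/-- leading terms -/
theorem QH5_lead (hQV1 : QV1_stmt) {k F : Type} [Field k] [IsAlgClosed k] [Field F] [Algebra k F]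
    (hFF : IsFF k F) (P : Place k F) (f : F) (hf : f ≠ 0) :
    ∃ b : k, P.Ge (P.ord f + 1) (f - algebraMap k F b * P.unif ^ (P.ord f)) := by
  have ht0 : P.unif ≠ 0 := P.unif_spec.1
  have htn : P.unif ^ (P.ord f) ≠ 0 := zpow_ne_zero _ ht0
  have h1 : P.Ge 0 (f / P.unif ^ (P.ord f)) := by
    right
    rw [P.ord_div hf htn, P.ord_zpow ht0, P.unif_spec.2]
    simp
  obtain ⟨b, hb⟩ := hQV1 k F hFF P _ h1
  refine ⟨b, ?_⟩
  have h2 : f - algebraMap k F b * P.unif ^ (P.ord f) =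
      P.unif ^ (P.ord f) * (f / P.unif ^ (P.ord f) - algebraMap k F b) := by
    field_simp
  rw [h2]
  have h3 : P.Ge (P.ord f) (P.unif ^ (P.ord f)) := by
    right
    rw [P.ord_zpow ht0, P.unif_spec.2, mul_one]
  exact h3.mul hb

theorem QH5_fix {k F : Type} [Field k] [Field F] [Algebra k F]
    (Q : Subgroup (F ≃ₐ[k] F)) (P : Place k F) (R : Place k (fixedField Q)) (m : ℕ)
    (hR : Below (fixedField Q) P R m) (c : QH5_N Q) (hc : (c : F ≃ₐ[k] F) • P = P) :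
    QH5_res Q c • R = R := by
  have hRord : ∀ f : fixedField Q, R.ord (QH5_res Q c f) = R.ord f := by
    intro f
    have h1 := hR.2 (QH5_res Q c f)
    rw [QH5_res_apply, ord_apply_of_smul_eq hc, hR.2] at h1
    have h2 : (m : ℤ) ≠ 0 := by exact_mod_cast hR.1.ne'
    exact (mul_left_cancel₀ h2 h1).symm
  ext f
  rw [smul_ord]
  have := hRord ((QH5_res Q c).symm f)
  rw [AlgEquiv.apply_symm_apply] at this
  exact this.symm

theorem QH5_theta (hQV1 : QV1_stmt) (hQF2 : QF2_stmt) {k F : Type} [Field k] [IsAlgClosed k]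
    [Field F] [Algebra k F] (hFF : IsFF k F) (Q : Subgroup (F ≃ₐ[k] F))
    (hEFF : IsFF k (fixedField Q)) (P : Place k F) (R : Place k (fixedField Q)) (m : ℕ)
    (hR : Below (fixedField Q) P R m) (c : QH5_N Q) (hc : (c : F ≃ₐ[k] F) • P = P) :
    R.theta (QH5_res Q c) = P.theta (c : F ≃ₐ[k] F) ^ m := by
  have hz0 : ((R.unif : fixedField Q) : F) ≠ 0 := fun h => R.unif_spec.1 (Subtype.ext h)
  have hzord : P.ord ((R.unif : fixedField Q) : F) = m := by
    rw [hR.2, R.unif_spec.2, mul_one]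
  obtain ⟨b, hb⟩ := QH5_lead hQV1 hFF P _ hz0
  rw [hzord] at hb
  obtain ⟨-, -, hexp, -⟩ := hQF2 k F hFF P (c : F ≃ₐ[k] F) hc
  have h1 := hexp m b _ hb
  have h2 : P.Ge ((m : ℤ) + 1) ((c : F ≃ₐ[k] F) ((R.unif : fixedField Q) : F) -
      algebraMap k F (P.theta (c : F ≃ₐ[k] F) ^ m) * ((R.unif : fixedField Q) : F)) := by
    have h3 := h1.sub (hb.const_mul (P.theta (c : F ≃ₐ[k] F) ^ m))
    have h4 : (c : F ≃ₐ[k] F) ((R.unif : fixedField Q) : F) -
        algebraMap k F (P.theta (c : F ≃ₐ[k] F) ^ m) * ((R.unif : fixedField Q) : F) =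
        (c : F ≃ₐ[k] F) ((R.unif : fixedField Q) : F) -
          algebraMap k F (b * P.theta (c : F ≃ₐ[k] F) ^ (m : ℤ)) * P.unif ^ (m : ℤ) -
        algebraMap k F (P.theta (c : F ≃ₐ[k] F) ^ m) * (((R.unif : fixedField Q) : F) -
          algebraMap k F b * P.unif ^ (m : ℤ)) := by
      rw [zpow_natCast, map_mul]
      ring
    rw [h4]
    exact h3
  obtain ⟨-, huniq, -, -⟩ := hQF2 k (fixedField Q) hEFF R (QH5_res Q c) (QH5_fix Q P R m hR c hc)
  refine ((huniq _).1 ?_).symm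
  have h5 := hR.2 (QH5_res Q c R.unif - algebraMap k (fixedField Q) (P.theta (c : F ≃ₐ[k] F) ^ m) * R.unif)
  have h6 : (((QH5_res Q c R.unif - algebraMap k (fixedField Q) (P.theta (c : F ≃ₐ[k] F) ^ m) *
      R.unif : fixedField Q)) : F) = (c : F ≃ₐ[k] F) ((R.unif : fixedField Q) : F) -
      algebraMap k F (P.theta (c : F ≃ₐ[k] F) ^ m) * ((R.unif : fixedField Q) : F) := rfl
  rw [← h6] at h2
  rcases h2 with h7 | h7
  · left
    exact Subtype.ext h7
  · right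
    rw [h5] at h7
    by_contra h8
    push Not at h8
    have h9 : R.ord (QH5_res Q c R.unif - algebraMap k (fixedField Q)
      (P.theta (c : F ≃ₐ[k] F) ^ m) * R.unif) ≤ 1 := by omega
    have h10 := mul_le_mul_of_nonneg_left h9 (show (0 : ℤ) ≤ (m : ℤ) by positivity)
    omega

/-- groups of order three -/
theorem QH5_three {A : Type} [Group A] (K : Subgroup A) (hK : Nat.card K = 3) (s : A) (hs : s ∈ K)
    (hs1 : s ≠ 1) : s ^ 3 = 1 ∧ s⁻¹ ≠ 1 ∧ s⁻¹ ≠ s ∧ ∀ r, r ∈ K ↔ r = 1 ∨ r = s ∨ r = s⁻¹ := by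
  have hKfin : Finite K := Nat.finite_of_card_ne_zero (by omega)
  have h3 : s ^ 3 = 1 := by
    have h1 : (⟨s, hs⟩ : K) ^ Nat.card K = 1 := pow_card_eq_one'
    rw [hK] at h1
    exact congrArg Subtype.val h1
  have hinv1 : s⁻¹ ≠ 1 := fun h => hs1 (inv_eq_one.1 h)
  have hinv2 : s⁻¹ ≠ s := by
    intro h
    apply hs1
    have h2 : s ^ 2 = 1 := by
      rw [pow_two]
      conv_lhs => rw [← h]
      rw [h]
      nth_rewrite 1 [← h]
      exact inv_mul_cancel s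
    have h4 : s ^ 3 = s ^ 2 * s := pow_succ s 2
    rw [h2, one_mul, h3] at h4
    exact h4.symm
  refine ⟨h3, hinv1, hinv2, ?_⟩
  have hfin : (K : Set A).Finite := Set.toFinite _
  have h5 : ({1, s, s⁻¹} : Finset A) ⊆ hfin.toFinset := by
    intro r hr
    rw [Set.Finite.mem_toFinset]
    simp only [Finset.mem_insert, Finset.mem_singleton] at hr
    rcases hr with rfl | rfl | rfl
    · exact K.one_mem
    · exact hs
    · exact K.inv_mem hs
  have h6 : ({1, s, s⁻¹} : Finset A).card = 3 := by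
    rw [Finset.card_insert_of_notMem, Finset.card_insert_of_notMem, Finset.card_singleton]
    · rw [Finset.mem_singleton]
      exact fun h => hinv2 h.symm
    · simp only [Finset.mem_insert, Finset.mem_singleton, not_or]
      exact ⟨fun h => hs1 h.symm, fun h => hinv1 h.symm⟩
  have h7 : hfin.toFinset.card = 3 := by
    rw [← Set.ncard_eq_toFinset_card (K : Set A) hfin, ← hK]
    rfl
  have h8 := Finset.eq_of_subset_of_card_le h5 (by rw [h6, h7])
  intro r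
  have h9 : r ∈ hfin.toFinset ↔ r ∈ K := by
    rw [Set.Finite.mem_toFinset]
    rfl
  rw [← h9, ← h8]
  simp only [Finset.mem_insert, Finset.mem_singleton]

/-- the elements of a finite subgroup as a finite set -/
theorem QH5_finset {A : Type} [Group A] (K : Subgroup A) (hK : Finite K) :
    ∃ S : Finset A, (∀ s, s ∈ S ↔ s ∈ K) ∧ S.card = Nat.card K := by
  have hfin : (K : Set A).Finite := Set.toFinite _
  refine ⟨hfin.toFinset, fun s => ?_, ?_⟩
  · rw [Set.Finite.mem_toFinset]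
    rfl
  · rw [← Set.ncard_eq_toFinset_card (K : Set A) hfin]
    rfl

theorem QH5_finsum {A : Type} [Group A] (K : Subgroup A) (S : Finset A) (hS : ∀ s, s ∈ S ↔ s ∈ K)
    (f : A → ℤ) : ∑ᶠ s ∈ {s : A | s ∈ K ∧ s ≠ 1}, f s = ∑ s ∈ S.erase 1, f s := by
  have h1 : {s : A | s ∈ K ∧ s ≠ 1} = ((S.erase 1 : Finset A) : Set A) := by
    ext s
    simp only [Set.mem_ofPred_eq, Finset.coe_erase, Set.mem_sdiff, Finset.mem_coe,
      Set.mem_singleton_iff, hS]
  rw [h1, finsum_mem_coe_finset]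

theorem QH5 (hHIL : HIL_stmt) (hQV1 : QV1_stmt) (hQE1 : QE1_stmt) (hQE2 : QE2_stmt)
    (hQE5 : QE5_stmt) (hQE6 : QE6_stmt) (hQF1 : QF1_stmt) (hQF2 : QF2_stmt) (hQF3 : QF3_stmt)
    (hQF6 : QF6_stmt) : QH5_stmt := by
  intro k F _ _ _ _ _ hFF G W Q hG P hW hQW hQn hcard
  have hWP : ∀ s ∈ W, s • P = P := fun s hs => ((hW s).1 hs).2.1
  have hWG : ∀ s ∈ W, s ∈ G := fun s hs => ((hW s).1 hs).1
  have hWfin : Finite W := Finite.of_injective (fun s : W => (⟨s.1, hWG s.1 s.2⟩ : G)) (by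
    intro a b hab
    exact Subtype.ext (congrArg (fun s : G => (s : F ≃ₐ[k] F)) hab))
  have hQfin : Finite Q := Finite.of_injective (fun s : Q => (⟨s.1, hQW s.2⟩ : W)) (by
    intro a b hab
    exact Subtype.ext (congrArg (fun s : W => (s : F ≃ₐ[k] F)) hab))
  have hQP : ∀ s ∈ Q, s • P = P := fun s hs => hWP s (hQW hs)
  -- the elements of the stabiliser normalise `Q`
  have hinvP : ∀ c : F ≃ₐ[k] F, c • P = P → c⁻¹ • P = P := fun c hc => by
    rw [inv_smul_eq_iff]; exact hc.symm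
  have hN : ∀ c ∈ G, c • P = P → c ∈ QH5_N Q := by
    intro c hc hcP
    refine ⟨hQn c hc hcP, fun q hq => ?_⟩
    have := hQn c⁻¹ (G.inv_mem hc) (hinvP c hcP) q hq
    rw [inv_inv] at this
    exact this
  have hWN : W ≤ QH5_N Q := fun s hs => hN s (hWG s hs) (hWP s hs)
  have hEFF : IsFF k (fixedField Q) := (hQE1 k F hFF Q hQfin).1
  -- the place below
  obtain ⟨⟨R, m, hR⟩, -⟩ := hQE2 k F hFF Q hQfin P
  have hm : m = Nat.card Q := by
    rw [hQE5 k F hFF Q hQfin P R m hR, QH3_stabCard Q P hQP]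
  rw [hm] at hR
  have hmpos : 0 < Nat.card Q := hR.1
  set ρ := QH5_W W Q hWN with hρ
  have hW'card : Nat.card ρ.range = 3 := by
    have := QH5_W_card W Q hQfin hWN hQW
    rw [hcard] at this
    exact Nat.eq_of_mul_eq_mul_right hmpos this
  have hW'fin : Finite ρ.range := Nat.finite_of_card_ne_zero (by omega)
  -- an element outside `Q`
  obtain ⟨s0, hs0⟩ : ∃ s0 : W, (s0 : F ≃ₐ[k] F) ∉ Q := by
    by_contra hcon
    push Not at hcon
    have h1 : W ≤ Q := fun s hs => hcon ⟨s, hs⟩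
    have h2 : W = Q := le_antisymm h1 hQW
    rw [h2] at hcard
    omega
  have hσ1 : ρ s0 ≠ 1 := fun h => hs0 ((QH5_W_eq_one W Q hQfin hWN s0).1 h)
  obtain ⟨hσ3, hσi1, hσi2, hmem⟩ := QH5_three ρ.range hW'card (ρ s0) ⟨s0, rfl⟩ hσ1
  have hfixR : ∀ s : W, ρ s • R = R := fun s =>
    QH5_fix Q P R _ hR (Subgroup.inclusion hWN s) (hWP s s.2)
  have hσR := hfixR s0
  obtain ⟨hmulθ, hconjθ, hjinv, -⟩ := hQF3 k (fixedField Q) hEFF R
  set j := R.jump (ρ s0) with hj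
  -- `j ≥ 1`
  have hj1 : 1 ≤ j := by
    have h1 : R.theta (ρ s0 ^ 3) = R.theta (ρ s0) ^ 3 := by
      have h2 : ρ s0 ^ 3 = ρ s0 * (ρ s0 * ρ s0) := by rw [pow_succ, pow_two, mul_assoc]
      have h3 : (ρ s0 * ρ s0) • R = R := by rw [mul_smul, hσR, hσR]
      rw [h2, hmulθ _ _ hσR h3, hmulθ _ _ hσR hσR]
      ring
    have h2 : R.theta (1 : fixedField Q ≃ₐ[k] fixedField Q) = 1 :=
      ((hQF2 k (fixedField Q) hEFF R 1 (one_smul _ _)).2.2.2).2 (Or.inl rfl)
    rw [hσ3, h2] at h1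
    have h3 : (R.theta (ρ s0) - 1) ^ 3 = 0 := by
      have h4 : (3 : k) = 0 := by exact_mod_cast CharP.cast_eq_zero k 3
      linear_combination (-1 : k) * h1 + (R.theta (ρ s0) - R.theta (ρ s0) ^ 2) * h4
    have h4 : R.theta (ρ s0) = 1 := by
      have := pow_eq_zero_iff (n := 3) (by norm_num) |>.1 h3
      exact sub_eq_zero.1 this
    rcases ((hQF2 k (fixedField Q) hEFF R (ρ s0) hσR).2.2.2).1 h4 with h5 | h5
    · exact absurd h5 hσ1
    · exact h5
  refine ⟨j, hj1, ?_, ?_⟩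
  · -- the sum of the jumps
    obtain ⟨SW, hSW, hSWc⟩ := QH5_finset W hWfin
    obtain ⟨SQ, hSQ, hSQc⟩ := QH5_finset Q hQfin
    have hsub : SQ ⊆ SW := fun s hs => (hSW s).2 (hQW ((hSQ s).1 hs))
    have hsum := QH5_sum hHIL hQE1 hQE2 hQE5 hQE6 hFF W Q hWfin hQfin P hWP hQW hWN R hR
    rw [QH5_finsum W SW hSW, QH5_finsum Q SQ hSQ] at hsum
    have h1 : ∑ᶠ s ∈ {s : fixedField Q ≃ₐ[k] fixedField Q | s ∈ ρ.range ∧ s ≠ 1},
        R.ord (s R.unif - R.unif) = 2 * ((j : ℤ) + 1) := by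
      have h2 : {s : fixedField Q ≃ₐ[k] fixedField Q | s ∈ ρ.range ∧ s ≠ 1} =
          (({ρ s0, (ρ s0)⁻¹} : Finset (fixedField Q ≃ₐ[k] fixedField Q)) :
            Set (fixedField Q ≃ₐ[k] fixedField Q)) := by
        ext s
        simp only [Set.mem_ofPred_eq, Finset.coe_insert, Finset.coe_singleton,
          Set.mem_insert_iff, Set.mem_singleton_iff]
        constructor
        · rintro ⟨h3, h4⟩
          rcases (hmem s).1 h3 with h5 | h5
          · exact absurd h5 h4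
          · exact h5
        · rintro (h5 | h5)
          · rw [h5]
            exact ⟨(hmem _).2 (Or.inr (Or.inl rfl)), hσ1⟩
          · rw [h5]
            exact ⟨(hmem _).2 (Or.inr (Or.inr rfl)), hσi1⟩
      rw [h2, finsum_mem_coe_finset, Finset.sum_pair hσi2.symm]
      have h3 : (ρ s0)⁻¹ • R = R := by rw [inv_smul_eq_iff]; exact hσR.symm
      rw [((hQF1 k (fixedField Q) hEFF R (ρ s0) hσR hσ1).1 R.unif R.unif_spec).2,
        ((hQF1 k (fixedField Q) hEFF R (ρ s0)⁻¹ h3 hσi1).1 R.unif R.unif_spec).2,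
        hjinv (ρ s0) hσR, ← hj]
      ring
    have h2 : ∑ s ∈ SW.erase 1, P.ord (s P.unif - P.unif) =
        ∑ s ∈ SW \ SQ, P.ord (s P.unif - P.unif) + ∑ s ∈ SQ.erase 1, P.ord (s P.unif - P.unif) := by
      have h3 : SQ.erase 1 ⊆ SW.erase 1 := Finset.erase_subset_erase 1 hsub
      rw [← Finset.sum_sdiff h3]
      congr 1
      refine Finset.sum_congr ?_ fun _ _ => rfl
      ext s
      simp only [Finset.mem_sdiff, Finset.mem_erase, not_and]
      constructor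
      · rintro ⟨⟨h4, h5⟩, h6⟩
        exact ⟨h5, h6 h4⟩
      · rintro ⟨h5, h6⟩
        refine ⟨⟨?_, h5⟩, fun _ => h6⟩
        rintro rfl
        exact h6 ((hSQ 1).2 Q.one_mem)
    have h3 : ∑ s ∈ SW \ SQ, P.ord (s P.unif - P.unif) =
        ∑ s ∈ SW \ SQ, (P.jump s : ℤ) + 2 * (Nat.card Q : ℤ) := by
      have h4 : ∀ s ∈ SW \ SQ, P.ord (s P.unif - P.unif) = (P.jump s : ℤ) + 1 := by
        intro s hs
        rw [Finset.mem_sdiff] at hs
        have h5 : s ≠ 1 := by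
          rintro rfl
          exact hs.2 ((hSQ 1).2 Q.one_mem)
        exact ((hQF1 k F hFF P s (hWP s ((hSW s).1 hs.1)) h5).1 P.unif P.unif_spec).2
      rw [Finset.sum_congr rfl h4, Finset.sum_add_distrib]
      congr 1
      rw [Finset.sum_const, Finset.card_sdiff_of_subset hsub, hSWc, hSQc, hcard]
      have h5 : 3 * Nat.card Q - Nat.card Q = 2 * Nat.card Q := by omega
      rw [h5]
      simp
    have h4 : ∑ s ∈ SW \ SQ, (P.jump s : ℤ) = 2 * Nat.card Q * j := by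
      have h5 : ∑ᶠ s ∈ {s : fixedField Q ≃ₐ[k] fixedField Q |
        s ∈ (QH5_W W Q hWN).range ∧ s ≠ 1}, R.ord (s R.unif - R.unif) = 2 * ((j : ℤ) + 1) := h1
      rw [h5, h2, h3] at hsum
      linear_combination hsum
    have hWft : Fintype W := Fintype.ofFinite W
    rw [finsum_eq_sum_of_fintype, ← Finset.sum_filter]
    have h5 : SW \ SQ = (Finset.univ.filter (fun s : W => (s : F ≃ₐ[k] F) ∉ Q)).map
          ⟨Subtype.val, Subtype.val_injective⟩ := by
      ext s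
      simp only [Finset.mem_sdiff, Finset.mem_map, Finset.mem_filter, Finset.mem_univ, true_and,
        Function.Embedding.coeFn_mk, hSW, hSQ]
      constructor
      · rintro ⟨h6, h7⟩
        exact ⟨⟨s, h6⟩, h7, rfl⟩
      · rintro ⟨s', h7, rfl⟩
        exact ⟨s'.2, h7⟩
    rw [h5, Finset.sum_map] at h4
    have h6 : ((∑ s ∈ Finset.univ.filter (fun s : W => (s : F ≃ₐ[k] F) ∉ Q), P.jump s : ℕ) : ℤ) =
        ((2 * Nat.card Q * j : ℕ) : ℤ) := by
      push_cast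
      exact h4
    exact_mod_cast h6
  · -- the character
    intro c hc hcP
    have hcN := hN c hc hcP
    have hc'R : QH5_res Q ⟨c, hcN⟩ • R = R := QH5_fix Q P R _ hR ⟨c, hcN⟩ hcP
    have hθ : R.theta (QH5_res Q ⟨c, hcN⟩) = P.theta c ^ Nat.card Q :=
      QH5_theta hQV1 hQF2 hFF Q hEFF P R _ hR ⟨c, hcN⟩ hcP
    obtain ⟨-, hconjP, -, -⟩ := hQF3 k F hFF P
    -- `W` is normal in the stabiliser
    have hWn : ∀ s ∈ W, c * s * c⁻¹ ∈ W := by
      intro s hs
      obtain ⟨h1, h2, h3⟩ := (hW s).1 hs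
      refine (hW _).2 ⟨G.mul_mem (G.mul_mem hc h1) (G.inv_mem hc), ?_, ?_⟩
      · rw [mul_smul, mul_smul, hinvP c hcP, h2, hcP]
      · have := (hconjP c s h2).1
        rw [hcP, h3] at this
        exact this
    have hcomm : ∀ s ∈ W, c * s * c⁻¹ * s⁻¹ ∈ W := fun s hs =>
      W.mul_mem (hWn s hs) (W.inv_mem hs)
    have hres : ∀ (s : F ≃ₐ[k] F) (hs : s ∈ W), ρ ⟨c * s * c⁻¹ * s⁻¹, hcomm s hs⟩ =
        QH5_res Q ⟨c, hcN⟩ * ρ ⟨s, hs⟩ * (QH5_res Q ⟨c, hcN⟩)⁻¹ * (ρ ⟨s, hs⟩)⁻¹ := by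
      intro s hs
      have h1 : QH5_res Q ⟨c, hcN⟩ * ρ ⟨s, hs⟩ * (QH5_res Q ⟨c, hcN⟩)⁻¹ * (ρ ⟨s, hs⟩)⁻¹ =
          QH5_res Q (⟨c, hcN⟩ * ⟨s, hWN hs⟩ * (⟨c, hcN⟩)⁻¹ * (⟨s, hWN hs⟩)⁻¹) := by
        rw [map_mul, map_mul, map_mul, map_inv, map_inv]
        rfl
      rw [h1]
      rfl
    have hcommQ : ∀ (s : F ≃ₐ[k] F) (hs : s ∈ W), c * s * c⁻¹ * s⁻¹ ∈ Q ↔
        QH5_res Q ⟨c, hcN⟩ * ρ ⟨s, hs⟩ * (QH5_res Q ⟨c, hcN⟩)⁻¹ * (ρ ⟨s, hs⟩)⁻¹ = 1 := by
      intro s hs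
      rw [← hres s hs]
      exact (QH5_W_eq_one W Q hQfin hWN ⟨c * s * c⁻¹ * s⁻¹, hcomm s hs⟩).symm
    have hkey := hQF6 k (fixedField Q) hEFF R (QH5_res Q ⟨c, hcN⟩) (ρ s0) hc'R hσR hσ1 hj1
    rw [hθ, ← hj, ← pow_mul] at hkey
    rw [hkey]
    have hjump : ∀ r ∈ ρ.range, r ≠ 1 → R.jump r = j := by
      intro r hr hr1
      rcases (hmem r).1 hr with h | h | h
      · exact absurd h hr1
      · rw [h]
      · rw [h, hjinv (ρ s0) hσR]
    constructor
    · intro h s hs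
      rw [hcommQ s hs]
      have h1 : QH5_res Q ⟨c, hcN⟩ * ρ s0 * (QH5_res Q ⟨c, hcN⟩)⁻¹ * (ρ s0)⁻¹ = 1 := by
        rcases h with h | h
        · exact h
        · by_contra h2
          have h3 : QH5_res Q ⟨c, hcN⟩ * ρ s0 * (QH5_res Q ⟨c, hcN⟩)⁻¹ * (ρ s0)⁻¹ ∈ ρ.range :=
            ⟨⟨c * s0 * c⁻¹ * (s0 : F ≃ₐ[k] F)⁻¹, hcomm s0 s0.2⟩, hres s0 s0.2⟩
          rw [hjump _ h3 h2] at h
          omega
      have h2 : QH5_res Q ⟨c, hcN⟩ * ρ s0 * (QH5_res Q ⟨c, hcN⟩)⁻¹ = ρ s0 := mul_inv_eq_one.1 h1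
      have h3 : ρ ⟨s, hs⟩ ∈ ρ.range := ⟨_, rfl⟩
      rw [mul_inv_eq_one]
      rcases (hmem _).1 h3 with h4 | h4 | h4
      · rw [h4]; group
      · rw [h4]; exact h2
      · rw [h4]
        have h5 := congrArg (fun x => x⁻¹) h2
        simp only [mul_inv_rev, inv_inv] at h5
        rw [mul_assoc]
        exact h5
    · intro h
      left
      have := (hcommQ s0 s0.2).1 (h s0 s0.2)
      exact this

end Pool.Agent.helper53.AU
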