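import Mathlib
import Pool.Agent.helper53.AU.Defs

/-!
# Project au (MP_97532f_ag): automorphism groups over the algebraic closure of a finite field

Over a field `k` algebraic over `ZMod p`, every finite set of `k`-automorphisms of an algebraic
function field generates a finite group; hence `ENat.card (F ≃ₐ[k] F) ≤ m` as soon as every
finite subgroup has at most `m` elements.
-/

open Polynomial Polynomial.Bivariate

namespace Pool.Agent.helper79.AU

/-! ## relations between two elements -/

section relations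
variable {k F : Type*} [Field k] [Field F] [Algebra k F]

/-- two relations between `x` and `f` have a common divisor which is a relation -/
theorem exists_common (x f : F) (hx : Transcendental k x) (Q1 Q2 : k[X][Y]) (h1 : Q1 ≠ 0)
    (e1 : aevalAeval x f Q1 = 0) (e2 : aevalAeval x f Q2 = 0) :
    ∃ R : k[X][Y], R ≠ 0 ∧ aevalAeval x f R = 0 ∧ R ∣ Q1 ∧ R ∣ Q2 := by
  classical
  let _ : NormalizedGCDMonoid k[X] := UniqueFactorizationMonoid.toNormalizedGCDMonoid _
  set φ : k[X][Y] →+* F := (aevalAeval x f : k[X][Y] →ₐ[k] F).toRingHom with hφ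
  have hprime : (RingHom.ker φ).IsPrime := RingHom.ker_isPrime φ
  have hne : RingHom.ker φ ≠ ⊥ := by
    intro h
    have : Q1 ∈ RingHom.ker φ := e1
    rw [h] at this
    exact h1 this
  obtain ⟨R, hR, hRp⟩ := hprime.exists_mem_prime_of_ne_bot hne
  have hR0 : aevalAeval x f R = 0 := hR
  have hRirr : Irreducible R := hRp.irreducible
  have hinj : Function.Injective (aeval x : k[X] →ₐ[k] F) := by
    rw [injective_iff_map_eq_zero]
    intro a ha
    by_contra h
    exact hx ⟨a, h, ha⟩
  have hdeg : R.natDegree ≠ 0 := by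
    intro h
    rw [natDegree_eq_zero] at h
    obtain ⟨a, rfl⟩ := h
    rw [aevalAeval_C] at hR0
    have : a = 0 := hinj (by rw [hR0, map_zero])
    rw [this, map_zero] at hRp
    exact hRp.ne_zero rfl
  have hprim : R.IsPrimitive := hRirr.isPrimitive hdeg
  set K := FractionRing k[X]
  let ψ : K →+* F := IsFractionRing.lift (A := k[X]) (K := K)
    (g := (aeval x : k[X] →ₐ[k] F).toRingHom) hinj
  have hψ : ψ.comp (algebraMap k[X] K) = (aeval x : k[X] →ₐ[k] F).toRingHom := by
    refine RingHom.ext fun a => ?_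
    exact IsFractionRing.lift_algebraMap hinj a
  have hev : ∀ Q : k[X][Y], eval₂ ψ f (Q.map (algebraMap k[X] K)) = aevalAeval x f Q := by
    intro Q
    rw [eval₂_map, hψ]
    induction Q using Polynomial.induction_on' with
    | add p q hp hq => rw [eval₂_add, map_add, hp, hq]
    | monomial n a => simp
  have hdvd : ∀ Q : k[X][Y], aevalAeval x f Q = 0 → R ∣ Q := by
    intro Q hQ
    by_contra hnd
    have hnd' : ¬ R.map (algebraMap k[X] K) ∣ Q.map (algebraMap k[X] K) := fun h =>
      hnd (hprim.dvd_of_fraction_map_dvd_fraction_map h)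
    have hirr' : Irreducible (R.map (algebraMap k[X] K)) :=
      (hprim.irreducible_iff_irreducible_map_fraction_map).1 hRirr
    have hcop : IsCoprime (R.map (algebraMap k[X] K)) (Q.map (algebraMap k[X] K)) :=
      (hirr'.coprime_iff_not_dvd).2 hnd'
    obtain ⟨a, b, hab⟩ := hcop
    have := congrArg (eval₂ ψ f) hab
    rw [eval₂_add, eval₂_mul, eval₂_mul, hev, hev, hR0, hQ, mul_zero, mul_zero, add_zero,
      eval₂_one] at this
    exact zero_ne_one this
  exact ⟨R, hRp.ne_zero, hR0, hdvd Q1 e1, hdvd Q2 e2⟩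

theorem coeff_swap (R : k[X][Y]) (i j : ℕ) :
    ((Bivariate.swap R).coeff j).coeff i = (R.coeff i).coeff j := by
  induction R using Polynomial.induction_on' with
  | add p q hp hq => rw [map_add, coeff_add, coeff_add, coeff_add, coeff_add, hp, hq]
  | monomial n a =>
    induction a using Polynomial.induction_on' with
    | add p q hp hq =>
      rw [map_add, map_add, coeff_add, coeff_add, coeff_add, hp, hq, coeff_add]
    | monomial m r =>
      rw [Bivariate.swap_monomial_monomial]
      simp only [coeff_monomial]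
      by_cases h1 : m = j <;> by_cases h2 : n = i <;> simp [h1, h2, coeff_monomial]

/-- a relation of bounded bidegree -/
theorem exists_bounded (x f : F) (hx : Transcendental k x) (Q1 Q2 : k[X][Y]) (h1 : Q1 ≠ 0)
    (h2 : Q2 ≠ 0) (e1 : aevalAeval x f Q1 = 0) (e2 : aevalAeval f x Q2 = 0) (m : ℕ)
    (d1 : Q1.natDegree ≤ m) (d2 : Q2.natDegree ≤ m) :
    ∃ R : k[X][Y], R ≠ 0 ∧ aevalAeval x f R = 0 ∧ ∀ i j, m < i ∨ m < j →
      (R.coeff i).coeff j = 0 := by
  have e2' : aevalAeval x f (Bivariate.swap Q2) = 0 := by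
    rw [Bivariate.aevalAeval_swap, e2]
  obtain ⟨R, hR, hR0, hRd1, hRd2⟩ := exists_common x f hx Q1 (Bivariate.swap Q2) h1 e1 e2'
  refine ⟨R, hR, hR0, ?_⟩
  rintro i j (hij | hij)
  · have := natDegree_le_of_dvd hRd1 h1
    have h5 : R.coeff i = 0 := coeff_eq_zero_of_natDegree_lt (by omega)
    rw [h5, coeff_zero]
  · have h3 : Bivariate.swap R ∣ Q2 := by
      have := map_dvd (Bivariate.swap (R := k)) hRd2
      rwa [Bivariate.swap_swap_apply] at this
    have h4 := natDegree_le_of_dvd h3 h2
    have h5 : (Bivariate.swap R).coeff j = 0 := coeff_eq_zero_of_natDegree_lt (by omega)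
    rw [← coeff_swap, h5, coeff_zero]

/-- clearing denominators in the minimal polynomial over `k(x)` -/
theorem exists_rel (x h : F) (K0 : IntermediateField k F) (hK0 : K0 = IntermediateField.adjoin k {x})
    (hh : IsIntegral K0 h) :
    ∃ Q : k[X][Y], Q ≠ 0 ∧ Q.natDegree ≤ (minpoly K0 h).natDegree ∧ aevalAeval x h Q = 0 := by
  classical
  subst hK0
  set P := minpoly (IntermediateField.adjoin k {x}) h with hP
  set n := P.natDegree with hn
  have hc : ∀ i, ∃ r s : k[X], aeval x s ≠ 0 ∧ ((P.coeff i : F)) * aeval x s = aeval x r := by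
    intro i
    obtain ⟨r, s, hrs⟩ := (IntermediateField.mem_adjoin_simple_iff k (P.coeff i : F)).1
      (P.coeff i).2
    by_cases hs : aeval x s = 0
    · refine ⟨0, 1, by simp, ?_⟩
      rw [hrs, hs, div_zero, zero_mul, map_zero]
    · exact ⟨r, s, hs, by rw [hrs, div_mul_cancel₀ _ hs]⟩
  choose r s hs hrs using hc
  let Q : k[X][Y] := ∑ i ∈ Finset.range (n + 1),
    monomial i (r i * ∏ j ∈ (Finset.range (n + 1)).erase i, s j)
  have hQc : Q.coeff n = r n * ∏ j ∈ (Finset.range (n + 1)).erase n, s j := by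
    rw [finsetSum_coeff, Finset.sum_eq_single n]
    · rw [coeff_monomial, if_pos rfl]
    · intro i _ hi
      rw [coeff_monomial, if_neg hi]
    · intro h; simp at h
  have hmonic : P.Monic := minpoly.monic hh
  refine ⟨Q, ?_, ?_, ?_⟩
  · intro h0
    have h1 : aeval x (Q.coeff n) = 0 := by rw [h0]; simp
    rw [hQc, map_mul, map_prod, ← hrs n] at h1
    have h2 : ((P.coeff n : IntermediateField.adjoin k {x}) : F) = 1 := by
      rw [hn, hmonic.coeff_natDegree]; rfl
    rw [h2, one_mul] at h1
    rcases mul_eq_zero.1 h1 with h3 | h3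
    · exact hs n h3
    · obtain ⟨j, -, hj⟩ := Finset.prod_eq_zero_iff.1 h3
      exact hs j hj
  · refine natDegree_sum_le_of_forall_le _ _ fun i hi => ?_
    refine (natDegree_monomial_le _).trans ?_
    have := Finset.mem_range.1 hi
    omega
  · have h1 : aevalAeval x h Q = ∑ i ∈ Finset.range (n + 1),
        (∏ j ∈ Finset.range (n + 1), aeval x (s j)) * ((P.coeff i : F) * h ^ i) := by
      rw [map_sum]
      refine Finset.sum_congr rfl fun i hi => ?_
      rw [← Finset.mul_prod_erase _ _ hi]
      have e : aevalAeval x h (monomial i (r i * ∏ j ∈ (Finset.range (n + 1)).erase i, s j)) =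
          aeval x (r i * ∏ j ∈ (Finset.range (n + 1)).erase i, s j) * h ^ i := by
        simp
      rw [e, map_mul, map_prod, ← hrs i]
      ring
    rw [h1, ← Finset.mul_sum]
    have h2 : ∑ i ∈ Finset.range (n + 1), ((P.coeff i : F) * h ^ i) = 0 := by
      have := minpoly.aeval (IntermediateField.adjoin k {x}) h
      rw [← hP, aeval_eq_sum_range] at this
      rw [← this]
      refine Finset.sum_congr rfl fun i _ => ?_
      rw [Algebra.smul_def]
      rfl
    rw [h2, mul_zero]

/-- over a finite field the elements with a relation of bidegree at most `(m, m)` with `x` form a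
finite set -/
theorem finite_rel [Finite k] (x : F) (hx : Transcendental k x) (m : ℕ) :
    {f : F | ∃ R : k[X][Y], R ≠ 0 ∧ aevalAeval x f R = 0 ∧ ∀ i j, m < i ∨ m < j →
      (R.coeff i).coeff j = 0}.Finite := by
  classical
  have hinj : Function.Injective (aeval x : k[X] →ₐ[k] F) := by
    rw [injective_iff_map_eq_zero]
    intro a ha
    by_contra h
    exact hx ⟨a, h, ha⟩
  have hfin : {R : k[X][Y] | ∀ i j, m < i ∨ m < j → (R.coeff i).coeff j = 0}.Finite := by
    refine Set.Finite.of_injOn (f := fun (R : k[X][Y]) (i j : Fin (m + 1)) => (R.coeff i).coeff j)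
      (t := Set.univ) (fun _ _ => Set.mem_univ _) ?_ Set.finite_univ
    intro R hR R' hR' h
    ext i j
    by_cases hij : m < i ∨ m < j
    · rw [hR i j hij, hR' i j hij]
    · push Not at hij
      have := congrFun (congrFun h ⟨i, by omega⟩) ⟨j, by omega⟩
      exact this
  have hsub : {f : F | ∃ R : k[X][Y], R ≠ 0 ∧ aevalAeval x f R = 0 ∧ ∀ i j, m < i ∨ m < j →
      (R.coeff i).coeff j = 0} ⊆ ⋃ R ∈ {R : k[X][Y] | ∀ i j, m < i ∨ m < j →
        (R.coeff i).coeff j = 0}, {f : F | R ≠ 0 ∧ aevalAeval x f R = 0} := by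
    rintro f ⟨R, h1, h2, h3⟩
    exact Set.mem_biUnion (x := R) h3 ⟨h1, h2⟩
  refine (hfin.biUnion fun R hRmem => ?_).subset hsub
  by_cases hR : R = 0
  · have he : {f : F | R ≠ 0 ∧ aevalAeval x f R = 0} = ∅ := by
      ext f
      simp [hR]
    rw [he]
    exact Set.finite_empty
  · have h4 : R.map (aeval x : k[X] →ₐ[k] F).toRingHom ≠ 0 := by
      rw [Ne, Polynomial.map_eq_zero_iff hinj]
      exact hR
    refine ((R.map (aeval x : k[X] →ₐ[k] F).toRingHom).roots.toFinset.finite_toSet).subset ?_
    rintro f ⟨-, hf⟩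
    simp only [Finset.mem_coe, Multiset.mem_toFinset]
    rw [mem_roots h4, IsRoot.def, eval_map, ← hf]
    clear hf hR h4 hRmem
    induction R using Polynomial.induction_on' with
    | add p q hp hq => rw [eval₂_add, map_add, hp, hq]
    | monomial n a => simp

end relations

open Pool.Agent.helper53.AU in
theorem finite_closure (p : ℕ) [Fact p.Prime] (k F : Type) [Field k] [Field F] [Algebra k F]
    [Algebra (ZMod p) k] [Algebra.IsAlgebraic (ZMod p) k] (hF : IsFF k F)
    (S : Finset (F ≃ₐ[k] F)) : Finite (Subgroup.closure (S : Set (F ≃ₐ[k] F))) := by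
  classical
  obtain ⟨x, hx, hfin⟩ := hF
  set Kx := IntermediateField.adjoin k ({x} : Set F) with hKx
  let e := Module.finBasis Kx F
  set E : Set F := Set.range e with hE
  let T : Finset k → Subfield F := fun C =>
    Subfield.closure (algebraMap k F '' (C : Set k) ∪ ({x} ∪ E))
  have hTmono : Monotone T := by
    intro C C' h
    refine Subfield.closure_mono (Set.union_subset_union_left _ (Set.image_mono ?_))
    exact_mod_cast h
  have hTdir : Directed (· ≤ ·) T := hTmono.directed_le
  have hxT : ∀ C, x ∈ T C := fun C => Subfield.subset_closure (Or.inr (Or.inl rfl))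
  have hET : ∀ C, ∀ y ∈ E, y ∈ T C := fun C y hy => Subfield.subset_closure (Or.inr (Or.inr hy))
  have hCT : ∀ C, ∀ c ∈ C, algebraMap k F c ∈ T C := fun C c hc =>
    Subfield.subset_closure (Or.inl ⟨c, hc, rfl⟩)
  have hex : ∀ y : F, ∃ C, y ∈ T C := by
    have hU : ∀ y : F, y ∈ (⨆ C, T C : Subfield F) := by
      intro y
      have hk : ∀ c : k, algebraMap k F c ∈ (⨆ C, T C : Subfield F) := fun c =>
        (le_iSup T {c}) (hCT {c} c (Finset.mem_singleton_self c))
      have hxU : x ∈ (⨆ C, T C : Subfield F) := (le_iSup T ∅) (hxT ∅)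
      have hKU : ∀ a : Kx, (a : F) ∈ (⨆ C, T C : Subfield F) := by
        have : Kx.toSubfield ≤ (⨆ C, T C : Subfield F) := by
          rw [hKx, IntermediateField.adjoin_toSubfield, Subfield.closure_le]
          rintro _ (⟨c, rfl⟩ | hy)
          · exact hk c
          · rw [Set.mem_singleton_iff] at hy
            rw [hy]; exact hxU
        intro a
        exact this a.2
      rw [← e.sum_repr y]
      refine Subfield.sum_mem _ fun i _ => ?_
      rw [Algebra.smul_def]
      exact Subfield.mul_mem _ (hKU _) ((le_iSup T ∅) (hET ∅ _ ⟨i, rfl⟩))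
    intro y
    have := hU y
    rw [Subfield.mem_iSup_of_directed hTdir] at this
    exact this
  -- a finite set of constants
  choose Cy hCy using hex
  have hEfin : E.Finite := Set.finite_range _
  let Gen : Finset F := insert x hEfin.toFinset
  let S' : Finset (F ≃ₐ[k] F) := S ∪ S.image (·⁻¹)
  let C : Finset k := (S' ×ˢ Gen).biUnion fun q => Cy (q.1 q.2)
  have hC : ∀ s ∈ S', ∀ y ∈ Gen, s y ∈ T C := by
    intro s hs y hy
    refine hTmono ?_ (hCy (s y))
    exact Finset.subset_biUnion_of_mem (fun q : (F ≃ₐ[k] F) × F => Cy (q.1 q.2))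
      (Finset.mk_mem_product hs hy)
  let k0 : IntermediateField (ZMod p) k := IntermediateField.adjoin (ZMod p) (C : Set k)
  have hk0fin : FiniteDimensional (ZMod p) k0 := by
    have : Finite (C : Set k) := C.finite_toSet
    exact IntermediateField.finiteDimensional_adjoin fun c _ =>
      (Algebra.IsAlgebraic.isAlgebraic c).isIntegral
  have : Finite k0 := Module.finite_of_finite (ZMod p)
  let K0 : IntermediateField k0 F := IntermediateField.adjoin k0 {x}
  let F0 : IntermediateField K0 F := IntermediateField.adjoin K0 E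
  have hK0F0 : ∀ a : K0, (a : F) ∈ F0 := fun a => F0.algebraMap_mem a
  have hk0F0 : ∀ c : k0, algebraMap k F c ∈ F0 := fun c => by
    have : algebraMap k F c ∈ K0 := K0.algebraMap_mem c
    exact hK0F0 ⟨_, this⟩
  have hxF0 : x ∈ F0 := hK0F0 ⟨x, IntermediateField.mem_adjoin_simple_self k0 x⟩
  have hTF0 : T C ≤ F0.toSubfield := by
    rw [Subfield.closure_le]
    rintro _ (⟨c, hc, rfl⟩ | hy | hy)
    · exact hk0F0 ⟨c, IntermediateField.subset_adjoin _ _ hc⟩
    · rw [Set.mem_singleton_iff] at hy
      rw [hy]; exact hxF0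
    · exact IntermediateField.subset_adjoin K0 E hy
  have hstab : ∀ s ∈ S', ∀ y ∈ F0, s y ∈ F0 := by
    intro s hs
    have h1 : K0.toSubfield ≤ F0.toSubfield.comap (s : F →+* F) := by
      change (IntermediateField.adjoin k0 {x}).toSubfield ≤ _
      rw [IntermediateField.adjoin_toSubfield, Subfield.closure_le]
      rintro _ (⟨c, rfl⟩ | hy)
      · change s (algebraMap k F c) ∈ F0
        rw [s.commutes]
        exact hk0F0 c
      · rw [Set.mem_singleton_iff] at hy
        rw [hy]
        exact hTF0 (hC s hs x (Finset.mem_insert_self _ _))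
    have h2 : F0.toSubfield ≤ F0.toSubfield.comap (s : F →+* F) := by
      change (IntermediateField.adjoin K0 E).toSubfield ≤ _
      rw [IntermediateField.adjoin_toSubfield, Subfield.closure_le]
      rintro _ (⟨c, rfl⟩ | hy)
      · exact h1 c.2
      · exact hTF0 (hC s hs _ (Finset.mem_insert_of_mem (hEfin.mem_toFinset.2 hy)))
    intro y hy
    exact h2 hy
  have hG : ∀ g ∈ Subgroup.closure (S : Set (F ≃ₐ[k] F)), (∀ y ∈ F0, g y ∈ F0) ∧
      (∀ y ∈ F0, g⁻¹ y ∈ F0) := by
    intro g hg
    induction hg using Subgroup.closure_induction with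
    | mem s hs =>
      exact ⟨hstab s (Finset.mem_union_left _ hs),
        hstab s⁻¹ (Finset.mem_union_right _ (Finset.mem_image_of_mem _ hs))⟩
    | one => exact ⟨fun y hy => hy, fun y hy => by rw [inv_one]; exact hy⟩
    | mul a b _ _ ha hb =>
      refine ⟨fun y hy => ha.1 _ (hb.1 _ hy), fun y hy => ?_⟩
      rw [mul_inv_rev]
      exact hb.2 _ (ha.2 _ hy)
    | inv a _ ha => exact ⟨ha.2, by rw [inv_inv]; exact ha.1⟩
  -- everything is algebraic over `K0`
  have halg : ∀ y : F, IsAlgebraic K0 y := by
    intro y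
    let L := algebraicClosure K0 F
    have hkL : ∀ c : k, algebraMap k F c ∈ L := by
      intro c
      have h1 : IsAlgebraic (ZMod p) c := Algebra.IsAlgebraic.isAlgebraic c
      have h2 : IsAlgebraic k0 c := h1.tower_top k0
      have h3 : IsAlgebraic k0 (algebraMap k F c) := h2.algebraMap
      have h4 : IsAlgebraic K0 (algebraMap k F c) := h3.tower_top K0
      exact mem_algebraicClosure_iff.2 h4
    have hKL : Kx.toSubfield ≤ L.toSubfield := by
      rw [hKx, IntermediateField.adjoin_toSubfield, Subfield.closure_le]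
      rintro _ (⟨c, rfl⟩ | hy)
      · exact hkL c
      · rw [Set.mem_singleton_iff] at hy
        rw [hy]
        exact L.algebraMap_mem ⟨x, IntermediateField.mem_adjoin_simple_self k0 x⟩
    let _ : Algebra Kx L := (Subring.inclusion (S := Kx.toSubfield.toSubring)
      (T := L.toSubfield.toSubring) hKL).toAlgebra
    have : IsScalarTower Kx L F := IsScalarTower.of_algebraMap_eq (fun _ => rfl)
    have h5 : IsAlgebraic Kx y := Algebra.IsAlgebraic.isAlgebraic y
    have h6 : IsAlgebraic L y := h5.tower_top L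
    exact h6.restrictScalars K0
  have hF0fin : FiniteDimensional K0 F0 := by
    have : Finite E := hEfin
    exact IntermediateField.finiteDimensional_adjoin fun y _ => (halg y).isIntegral
  have hxk0 : Transcendental k0 x := fun h => hx (h.tower_top k)
  set m := Module.finrank K0 F0 with hm
  have hrel : ∀ h ∈ F0, ∃ Q : k0[X][Y], Q ≠ 0 ∧ Q.natDegree ≤ m ∧ aevalAeval x h Q = 0 := by
    intro h hh
    obtain ⟨Q, hQ, hd, hz⟩ := exists_rel (k := k0) x h K0 rfl (halg h).isIntegral
    refine ⟨Q, hQ, hd.trans ?_, hz⟩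
    have h1 : minpoly K0 (⟨h, hh⟩ : F0) = minpoly K0 h :=
      (minpoly.algebraMap_eq (B := F0) (B' := F) (algebraMap F0 F).injective ⟨h, hh⟩).symm
    rw [← h1]
    exact minpoly.natDegree_le _
  have horb : ∀ g ∈ Subgroup.closure (S : Set (F ≃ₐ[k] F)), g x ∈ {f : F | ∃ R : k0[X][Y], R ≠ 0 ∧
      aevalAeval x f R = 0 ∧ ∀ i j, m < i ∨ m < j → (R.coeff i).coeff j = 0} := by
    intro g hg
    obtain ⟨Q1, a1, a2, a3⟩ := hrel (g x) ((hG g hg).1 x hxF0)
    obtain ⟨Q2, b1, b2, b3⟩ := hrel (g⁻¹ x) ((hG g hg).2 x hxF0)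
    have b4 : aevalAeval (g x) x Q2 = 0 := by
      have h1 : g (aevalAeval x (g⁻¹ x) Q2) = aevalAeval (g x) x Q2 := by
        have h2 : ∀ Q : k0[X][Y], g (aevalAeval x (g⁻¹ x) Q) = aevalAeval (g x) x Q := by
          intro Q
          have hgi : g (g⁻¹ x) = x := by
            rw [← AlgEquiv.mul_apply, mul_inv_cancel]; rfl
          have hga : ∀ a : k0[X], g (aeval x a) = aeval (g x) a := by
            intro a
            exact (Polynomial.aeval_algHom_apply ((g : F →ₐ[k] F).restrictScalars k0) x a).symm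
          induction Q using Polynomial.induction_on' with
          | add p q hp hq => rw [map_add, map_add, map_add, hp, hq]
          | monomial n a =>
            have h3 : ∀ u w : F, aevalAeval u w (monomial n a) = aeval u a * w ^ n := by
              intro u w; simp
            rw [h3, h3, map_mul, map_pow, hga, hgi]
        exact h2 Q2
      rw [← h1, b3, map_zero]
    exact exists_bounded x (g x) hxk0 Q1 Q2 a1 b1 a3 b4 m a2 b2
  have hBfin := finite_rel (k := k0) x hxk0 m
  -- finite stabiliser
  have hstabfin : {g : F ≃ₐ[k] F | g x = x}.Finite := by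
    have : Finite (F ≃ₐ[Kx] F) := inferInstance
    have : Finite (Kx.fixingSubgroup) := Finite.of_equiv _ (Kx.fixingSubgroupEquiv.toEquiv.symm)
    refine (Set.toFinite (Kx.fixingSubgroup : Set (F ≃ₐ[k] F))).subset ?_
    intro g hg
    rw [SetLike.mem_coe, IntermediateField.mem_fixingSubgroup_iff]
    intro y hy
    have := (IntermediateField.forall_mem_adjoin_smul_eq_self_iff (F := k) (S := ({x} : Set F))
      g).2 (by
        intro z hz
        rw [Set.mem_singleton_iff] at hz
        rw [hz]
        exact hg)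
    exact this y hy
  have hfib : ∀ b : F, {g : F ≃ₐ[k] F | g x = b}.Finite := by
    intro b
    by_cases hne : ∃ g0 : F ≃ₐ[k] F, g0 x = b
    · obtain ⟨g0, hg0⟩ := hne
      refine (hstabfin.image (fun g => g0 * g)).subset ?_
      intro g hg
      refine ⟨g0⁻¹ * g, ?_, by simp⟩
      change g0⁻¹ (g x) = x
      rw [hg, ← hg0, ← AlgEquiv.mul_apply, inv_mul_cancel]
      rfl
    · have he : {g : F ≃ₐ[k] F | g x = b} = ∅ := by
        ext g
        simp only [Set.mem_ofPred_eq, Set.mem_empty_iff_false, iff_false]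
        exact fun h => hne ⟨g, h⟩
      rw [he]
      exact Set.finite_empty
  have hfinal : ((Subgroup.closure (S : Set (F ≃ₐ[k] F)) : Subgroup (F ≃ₐ[k] F)) :
      Set (F ≃ₐ[k] F)).Finite := by
    refine (Set.Finite.preimage' (f := fun g : F ≃ₐ[k] F => g x) hBfin fun b _ => hfib b).subset ?_
    intro g hg
    exact horb g hg
  exact hfinal.to_subtype

/-- the bound for the order of the automorphism group from the bound for finite subgroups -/
theorem card_le_of_finite_subgroups (p : ℕ) [Fact p.Prime] (k F : Type) [Field k] [Field F]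
    [Algebra k F] [Algebra (ZMod p) k] [Algebra.IsAlgebraic (ZMod p) k]
    (hF : Pool.Agent.helper53.AU.IsFF k F) (m : ℕ)
    (h : ∀ G : Subgroup (F ≃ₐ[k] F), Finite G → Nat.card G ≤ m) :
    ENat.card (F ≃ₐ[k] F) ≤ m := by
  by_contra hlt
  push Not at hlt
  have h1 : ∃ T : Finset (F ≃ₐ[k] F), T.card = m + 1 := by
    by_cases hfin : Finite (F ≃ₐ[k] F)
    · have := Fintype.ofFinite (F ≃ₐ[k] F)
      have h2 : m < Fintype.card (F ≃ₐ[k] F) := by
        rw [ENat.card_eq_coe_fintype_card] at hlt
        exact_mod_cast hlt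
      obtain ⟨T, -, hT⟩ := Finset.exists_subset_card_eq (s := (Finset.univ : Finset (F ≃ₐ[k] F)))
        (n := m + 1) (by rw [Finset.card_univ]; omega)
      exact ⟨T, hT⟩
    · haveI : Infinite (F ≃ₐ[k] F) := not_finite_iff_infinite.1 hfin
      exact Infinite.exists_subset_card_eq _ (m + 1)
  obtain ⟨T, hT⟩ := h1
  have h2 := finite_closure p k F hF T
  have h3 := h (Subgroup.closure (T : Set (F ≃ₐ[k] F))) h2
  have h4 : T.card ≤ Nat.card (Subgroup.closure (T : Set (F ≃ₐ[k] F))) := by
    have := h2
    have := Nat.card_mono (s := (T : Set (F ≃ₐ[k] F)))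
      (t := (Subgroup.closure (T : Set (F ≃ₐ[k] F)) : Set (F ≃ₐ[k] F))) (Set.toFinite _)
      Subgroup.subset_closure
    simpa using this
  omega

open Pool.Agent.helper53.AU in
/-- FIN, for the fields of the project -/
theorem FIN (p : ℕ) [Fact p.Prime] (F : Type) [Field F] [Algebra (AlgebraicClosure (ZMod p)) F]
    (hF : IsFF (AlgebraicClosure (ZMod p)) F) (m : ℕ)
    (h : ∀ G : Subgroup (F ≃ₐ[AlgebraicClosure (ZMod p)] F), Finite G → Nat.card G ≤ m) :
    ENat.card (F ≃ₐ[AlgebraicClosure (ZMod p)] F) ≤ m :=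
  card_le_of_finite_subgroups p (AlgebraicClosure (ZMod p)) F hF m h

end Pool.Agent.helper79.AU
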