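import Pool.Agent.helper79.AU.P5base

/-!
# Project au: P5C (type (C), `P_x` normal, is impossible)
-/

namespace Pool.Agent.helper75.AU

open scoped Classical
open Pool.Agent.helper53.AU MulAction

/-- the sum of an odd function constant on orbits of length 8 -/
theorem P5C_sum {G : Type} [Group G] [Fintype G] (A : Finset G) (f : G → ℕ)
    (h8 : ∀ v : ℕ, 8 ∣ (A.filter (fun s => f s = v)).card) (hodd : ∀ s ∈ A, f s % 2 = 1) :
    ∃ B : ℕ, ∑ s ∈ A, f s = A.card + 16 * B := by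
  have h1 : ∑ s ∈ A, f s = A.card + ∑ s ∈ A, (f s - 1) := by
    rw [Finset.card_eq_sum_ones, ← Finset.sum_add_distrib]
    refine Finset.sum_congr rfl fun s hs => ?_
    have := hodd s hs
    omega
  have h2 : ∑ s ∈ A, (f s - 1) = ∑ v ∈ A.image f, (A.filter (fun s => f s = v)).card * (v - 1) := by
    rw [← Finset.sum_fiberwise_of_maps_to (s := A) (t := A.image f) (g := f)
      (fun s hs => Finset.mem_image_of_mem f hs)]
    refine Finset.sum_congr rfl fun v _ => ?_
    rw [Finset.sum_congr rfl (g := fun _ => v - 1) (by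
      intro s hs
      rw [(Finset.mem_filter.1 hs).2]), Finset.sum_const, smul_eq_mul]
  have h3 : 16 ∣ ∑ s ∈ A, (f s - 1) := by
    rw [h2]
    refine Finset.dvd_sum fun v hv => ?_
    obtain ⟨s, hs, rfl⟩ := Finset.mem_image.1 hv
    have h4 := hodd s hs
    have h5 : 2 ∣ f s - 1 := by omega
    exact Nat.mul_dvd_mul (h8 (f s)) h5
  obtain ⟨B, hB⟩ := h3
  exact ⟨B, by rw [h1, hB]⟩

/-- the oddness argument at a point `w` -/
theorem P5C_odd {k G X : Type} [Field k] [CharP k 3] [Group G] [Fintype G] [MulAction G X]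
    [Fintype X] {g : ℕ} (R : Ram k G X g) (hBA1 : BA1_stmt) (hC3 : C3_stmt) (w : X) (c : G)
    (hc : IsC R w c) (hall : ∀ s ∈ R.P w, s ≠ 1 → P5_per c s = 8) (s : G) (hs : s ∈ R.P w)
    (hs1 : s ≠ 1) : ¬ hh R w ∣ 4 * R.i w s := by
  intro hdvd
  obtain ⟨-, -, hC3', -⟩ := hC3 k G X g R w c hc
  obtain ⟨hcs, hord, -, -⟩ := hc
  have hcw : c • w = w := MulAction.mem_stabilizer_iff.1 hcs
  have hP3 := (hBA1 k G X g R w).1
  have hpos : orderOf c ≠ 0 := (orderOf_pos c).ne'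
  set D := P5_lay R w (R.i w s + 1) with hD
  obtain ⟨a, h'', hh'', hhh⟩ := Nat.exists_eq_two_pow_mul_odd hpos
  set n := h'' * 4 with hn
  set c' := c ^ n with hc'
  have hc'w : c' • w = w := by
    have : c' ∈ stabilizer G w := Subgroup.pow_mem _ hcs _
    exact MulAction.mem_stabilizer_iff.1 this
  have hc'pow : c' ^ 2 ^ a = 1 := by
    rw [hc', ← pow_mul, hn]
    have : h'' * 4 * 2 ^ a = orderOf c * 4 := by rw [hhh]; ring
    rw [this, pow_mul, pow_orderOf_eq_one, one_pow]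
  have hcomm : c' * s * c'⁻¹ * s⁻¹ ∈ D := by
    have h1 : hh R w ∣ n * R.i w s := by
      rw [hn, mul_assoc]
      exact hdvd.mul_left _
    refine ⟨Subgroup.mul_mem _ ((P5_conj_P hBA1 R w c' s hc'w).2 hs) (Subgroup.inv_mem _ hs), ?_⟩
    rcases hC3' s hs hs1 n h1 with h2 | h2
    · exact Or.inl h2
    · exact Or.inr h2
  have hset : ∀ t : G, c' * t * c'⁻¹ ∈ {t : G | t * s⁻¹ ∈ D} ↔ t ∈ {t : G | t * s⁻¹ ∈ D} := by
    intro t
    change c' * t * c'⁻¹ * s⁻¹ ∈ D ↔ t * s⁻¹ ∈ D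
    have e : c' * t * c'⁻¹ * s⁻¹ = (c' * (t * s⁻¹) * c'⁻¹) * (c' * s * c'⁻¹ * s⁻¹) := by group
    rw [e, Subgroup.mul_mem_cancel_right _ hcomm, hD, P5_conj_lay hBA1 R w _ c' _ hc'w]
  let σ : Equiv.Perm {t : G | t * s⁻¹ ∈ D} :=
    Equiv.Perm.subtypePerm ((MulAut.conj c').toEquiv : Equiv.Perm G)
      (p := fun t => t ∈ {t : G | t * s⁻¹ ∈ D}) (fun t => hset t)
  have hσ : ∀ (m : ℕ) (t : {t : G | t * s⁻¹ ∈ D}), (((σ ^ m) t : {t : G | t * s⁻¹ ∈ D}) : G) =
      c' ^ m * t * (c' ^ m)⁻¹ := by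
    intro m
    induction m with
    | zero => intro t; simp
    | succ m ih =>
      intro t
      rw [pow_succ', Equiv.Perm.mul_apply]
      have : ((σ ((σ ^ m) t) : {t : G | t * s⁻¹ ∈ D}) : G) =
          c' * (((σ ^ m) t : {t : G | t * s⁻¹ ∈ D}) : G) * c'⁻¹ := rfl
      rw [this, ih, pow_succ']
      group
  have hσ1 : σ ^ 2 ^ a = 1 := by
    ext t
    rw [hσ, hc'pow]
    simp
  have hcard : Nat.card {t : G | t * s⁻¹ ∈ D} = Nat.card D := by
    refine Nat.card_congr ⟨fun t => ⟨t.1 * s⁻¹, t.2⟩, fun d => ⟨d.1 * s, by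
      change d.1 * s * s⁻¹ ∈ D
      rw [mul_inv_cancel_right]; exact d.2⟩, fun t => by simp, fun d => by simp⟩
  have hDP : IsPGroup 3 D := hP3.to_le (fun s hs => hs.1)
  obtain ⟨b, hb⟩ := (IsPGroup.iff_card).1 hDP
  have hodd : ¬ 2 ∣ Fintype.card {t : G | t * s⁻¹ ∈ D} := by
    rw [← Nat.card_eq_fintype_card, hcard, hb]
    intro h2
    have := Nat.Prime.dvd_of_dvd_pow Nat.prime_two h2
    omega
  obtain ⟨t, ht⟩ := Equiv.Perm.exists_fixed_point_of_prime (p := 2) (n := a) hodd hσ1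
  have ht' : c' * (t : G) * c'⁻¹ = t := by
    have := hσ 1 t
    rw [pow_one, pow_one, ht] at this
    exact this.symm
  have htD : (t : G) * s⁻¹ ∈ D := t.2
  have htP : (t : G) ∈ R.P w := by
    have := Subgroup.mul_mem _ htD.1 hs
    rwa [inv_mul_cancel_right] at this
  have ht1 : (t : G) ≠ 1 := by
    intro h1
    rw [h1, one_mul] at htD
    have h2 : s ∈ D := by
      have := Subgroup.inv_mem _ htD
      rwa [inv_inv] at this
    rcases h2.2 with h3 | h3
    · exact hs1 h3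
    · omega
  have h8 := hall t htP ht1
  have h9 : P5_per c (t : G) ∣ n := by
    rw [P5_per_dvd]
    rw [mul_inv_eq_iff_eq_mul] at ht'
    exact ht'
  rw [h8, hn] at h9
  obtain ⟨m, hm⟩ := hh''
  omega

/-- the sum `T_w` -/
theorem P5C_T {k G X : Type} [Field k] [CharP k 3] [Group G] [Fintype G] [MulAction G X]
    [Fintype X] {g : ℕ} (R : Ram k G X g) (hBA1 : BA1_stmt) (hC3 : C3_stmt) (w : X) (c : G)
    (hc : IsC R w c) (hall : ∀ s ∈ R.P w, s ≠ 1 → P5_per c s = 8) (h' : ℕ) (hh' : hh R w = 8 * h')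
    (_ : 0 < h') : ∃ B : ℕ, R.T w + h' = h' * (qq R w + 16 * B) := by
  obtain ⟨hC1, -, -, -⟩ := hC3 k G X g R w c hc
  have hcw : c • w = w := MulAction.mem_stabilizer_iff.1 hc.1
  set A := Finset.univ.filter (fun s : G => s ∈ R.P w ∧ s ≠ 1) with hA
  have hAcard : A.card + 1 = qq R w := P5_card (R.P w)
  have hmemA : ∀ s, s ∈ A ↔ s ∈ R.P w ∧ s ≠ 1 := fun s => by
    rw [hA, Finset.mem_filter]; exact ⟨fun h => h.2, fun h => ⟨Finset.mem_univ _, h⟩⟩
  have hi : ∀ s ∈ A, h' ∣ R.i w s := by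
    intro s hs
    rw [hmemA] at hs
    have h1 := hC1 s hs.1 hs.2 8 ((P5_per_dvd c s 8).1 (by rw [hall s hs.1 hs.2]))
    rw [hh'] at h1
    exact Nat.dvd_of_mul_dvd_mul_left (by norm_num) h1
  have hodd : ∀ s ∈ A, (R.i w s / h') % 2 = 1 := by
    intro s hs
    by_contra h0
    have h1 : 2 ∣ R.i w s / h' := by omega
    rw [hmemA] at hs
    apply P5C_odd R hBA1 hC3 w c hc hall s hs.1 hs.2
    rw [hh']
    obtain ⟨m, hm⟩ := h1
    have h2 : R.i w s = h' * (2 * m) := by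
      rw [← hm, Nat.mul_div_cancel' (hi s ((hmemA s).2 hs))]
    rw [h2]
    exact ⟨m, by ring⟩
  have h8 : ∀ v : ℕ, 8 ∣ (A.filter (fun s => R.i w s / h' = v)).card := by
    intro v
    have := P5_dvd_card_set c {s : G | (s ∈ R.P w ∧ s ≠ 1) ∧ R.i w s / h' = v} 8 (by
      intro s
      change ((c * s * c⁻¹ ∈ R.P w ∧ c * s * c⁻¹ ≠ 1) ∧ R.i w (c * s * c⁻¹) / h' = v) ↔ _
      rw [P5_conj_P hBA1 R w c s hcw, P5_conj_i R w c s hcw]
      have : c * s * c⁻¹ = 1 ↔ s = 1 := by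
        rw [mul_inv_eq_one, mul_eq_left]
      rw [Ne, this]
      rfl) (by
      rintro s ⟨⟨hs, hs1⟩, -⟩
      exact hall s hs hs1)
    have e : Nat.card {s : G | (s ∈ R.P w ∧ s ≠ 1) ∧ R.i w s / h' = v} =
        (A.filter (fun s => R.i w s / h' = v)).card := by
      rw [Nat.card_eq_fintype_card, Fintype.card_ofFinset]
      congr 1
      ext s
      simp [hA]
    rwa [e] at this
  obtain ⟨B, hB⟩ := P5C_sum A (fun s => R.i w s / h') h8 hodd
  refine ⟨B, ?_⟩
  have hT : R.T w = h' * ∑ s ∈ A, R.i w s / h' := by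
    rw [Finset.mul_sum]
    change ∑ s ∈ A, R.i w s = _
    refine Finset.sum_congr rfl fun s hs => ?_
    rw [Nat.mul_div_cancel' (hi s hs)]
  rw [hT, hB, ← hAcard]
  ring

theorem P5C (hBA1 : BA1_stmt) (hBA3 : BA3_stmt) (hBA4 : BA4_stmt) (hC3 : C3_stmt)
    (hF1 : F1_stmt) (hF4 : F4_stmt) : P5C_stmt := by
  intro k G X _ _ _ _ _ _ l R x y hl hN hnl hTwo hPy hnorm
  obtain ⟨hP3, hmemP, -, hPconj, hconjP, -, hst, h3h, -, c, hcC⟩ := hBA1 k G X (l + 1) R x
  obtain ⟨hP3y, hmemPy, h3y, hPconjy, hconjPy, -, hsty, h3hy, -, -⟩ := hBA1 k G X (l + 1) R y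
  have hBA3x := hBA3 k G X (l + 1) R x (R.P x)
  have hBA3y := hBA3 k G X (l + 1) R y (R.P x)
  have hoox := (hBA4 G X).1 x
  have hooy := (hBA4 G X).1 y
  have hrh := hTwo.rh
  have hNpos : 0 < Nat.card G := Nat.card_pos
  have hoxpos : 0 < oo G x := by
    rcases Nat.eq_zero_or_pos (oo G x) with h | h
    · rw [h, zero_mul] at hoox; omega
    · exact h
  have hoypos : 0 < oo G y := by
    rcases Nat.eq_zero_or_pos (oo G y) with h | h
    · rw [h, zero_mul] at hooy; omega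
    · exact h
  have hmod8 := hl.mod8
  -- `P_y ≤ P_x`
  have hPyPx : R.P y ≤ R.P x := by
    obtain ⟨S, hS⟩ := hTwo.syl
    obtain ⟨S', hS'⟩ := hP3y.exists_le_sylow
    have hSn : (S : Subgroup G).Normal := by rw [hS]; exact hnorm
    let _ := Sylow.unique_of_normal S hSn
    have e : S' = S := Subsingleton.elim _ _
    rw [e, hS] at hS'
    exact hS'
  have hstx : R.P x ⊓ stabilizer G x = R.P x := by
    refine inf_eq_left.2 fun s hs => MulAction.mem_stabilizer_iff.2 (P5_fix R x s hs)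
  have hsty' : R.P x ⊓ stabilizer G y = R.P y := by
    ext s
    rw [Subgroup.mem_inf, MulAction.mem_stabilizer_iff]
    constructor
    · rintro ⟨h1, h2⟩
      refine h3y s h2 ?_
      obtain ⟨n, hn⟩ := hP3 ⟨s, h1⟩
      exact ⟨n, by simpa using congrArg Subtype.val hn⟩
    · intro h
      exact ⟨hPyPx h, P5_fix R y s h⟩
  have hqx1 : 1 ≤ qq R x := Nat.card_pos
  have hqy1 : 1 ≤ qq R y := Nat.card_pos
  have hdx : R.d (R.P x) x + 1 = qq R x + R.T x := by
    have h1 := hBA3x.2.2.1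
    rw [hstx, hBA3x.2.2.2.1 le_rfl] at h1
    exact h1
  have hdy : R.d (R.P x) y + 1 = qq R y + R.T y := by
    have h1 := hBA3y.2.2.1
    rw [hsty', hBA3y.2.2.2.1 hPyPx] at h1
    exact h1
  -- Riemann-Hurwitz for `P_x`
  obtain ⟨γ, hγ⟩ := R.RH (R.P x)
  have hsum : ∑ z : X, (R.d (R.P x) z : ℤ) = oo G x * (R.d (R.P x) x : ℤ) +
      oo G y * (R.d (R.P x) y : ℤ) := by
    refine (hBA4 G X).2.2.1 (fun z => (R.d (R.P x) z : ℤ)) x y ?_ hTwo.ne ?_
    · intro a z
      have h1 := ((hBA3 k G X (l + 1) R z (R.P x)).2.2.2.2.2.2.2.1 a (fun s => by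
        constructor
        · intro h
          have := hnorm.conj_mem _ h a⁻¹
          have e : a⁻¹ * (a * s * a⁻¹) * a⁻¹⁻¹ = s := by group
          rwa [e] at this
        · intro h
          exact hnorm.conj_mem _ h a)).1
      exact_mod_cast h1
    · intro z hzx hzy
      have h1 : stabilizer G z = ⊥ := by
        by_contra hne
        rcases hTwo.cov z hne with h | h
        · exact hzx h
        · exact hzy h
      have h2 := (hBA3 k G X (l + 1) R z (R.P x)).2.2.2.2.2.2.1 (by rw [h1, inf_bot_eq])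
      change (R.d (R.P x) z : ℤ) = 0
      exact_mod_cast h2
  have hRH : (2 * (l : ℤ)) = qq R x * (2 * (γ : ℤ) - 2) + (oo G x * (R.d (R.P x) x : ℤ) +
      oo G y * (R.d (R.P x) y : ℤ)) := by
    rw [← hsum]
    have e : ∑ z : X, (R.d (R.P x) z : ℤ) = ∑ z : X, ∑ s ∈ Finset.univ.filter
        (fun s : G => s ∈ R.P x ∧ s ≠ 1 ∧ s • z = z), ((R.i z s : ℤ) + 1) := by
      refine Finset.sum_congr rfl fun z _ => ?_
      rw [Ram.d]
      push_cast
      rfl
    rw [e]
    have h1 : (2 * ((l + 1 : ℕ) : ℤ) - 2) = 2 * (l : ℤ) := by push_cast; ring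
    rw [← h1]
    exact hγ
  have hdx' : (R.d (R.P x) x : ℤ) = qq R x + R.T x - 1 := by
    have : (R.d (R.P x) x : ℤ) + 1 = qq R x + R.T x := by exact_mod_cast hdx
    linarith
  have hdy' : (R.d (R.P x) y : ℤ) = qq R y + R.T y - 1 := by
    have : (R.d (R.P x) y : ℤ) + 1 = qq R y + R.T y := by exact_mod_cast hdy
    linarith
  have hrh' : 2 * ((l : ℤ) + 1) + oo G x + oo G y = 2 + oo G x * R.T x + oo G y * R.T y := by
    exact_mod_cast hrh
  have hkey : (qq R x : ℤ) * (2 - 2 * (γ : ℤ)) = oo G x * qq R x + oo G y * qq R y := by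
    rw [hdx', hdy'] at hRH
    linarith
  have hγ0 : γ = 0 := by
    by_contra h
    have h1 : (1 : ℤ) ≤ γ := by exact_mod_cast Nat.one_le_iff_ne_zero.2 h
    have h2 : (0 : ℤ) < oo G x * qq R x := by positivity
    have h3 : (0 : ℤ) < oo G y * qq R y := by positivity
    have h4 : (0 : ℤ) < qq R x := by positivity
    nlinarith
  rw [hγ0] at hkey
  have hkeyN : 2 * qq R x = oo G x * qq R x + oo G y * qq R y := by
    have : (2 : ℤ) * qq R x = oo G x * qq R x + oo G y * qq R y := by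
      rw [← hkey]; push_cast; ring
    exact_mod_cast this
  have hyy : 0 < oo G y * qq R y := Nat.mul_pos hoypos hqy1
  have hox1 : oo G x = 1 := by
    by_contra h
    have h2 : 2 ≤ oo G x := by omega
    have := Nat.mul_le_mul_right (qq R x) h2
    omega
  rw [hox1, one_mul] at hkeyN
  have hyq : oo G y * qq R y = qq R x := by omega
  -- two fixed points of `P_x`
  have hPne : R.P x ≠ ⊥ := hTwo.wild
  obtain ⟨-, x1, x2, hx12, hf1, hf2, -, -⟩ := hF1 k G X l R (R.P x) hl.mod3 hP3 hPne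
  have hfixz : ∃ z : X, z ≠ x ∧ ∀ s ∈ R.P x, s • z = z := by
    by_cases h : x1 = x
    · exact ⟨x2, fun h2 => hx12 (by rw [h, h2]), hf2⟩
    · exact ⟨x1, h, hf1⟩
  obtain ⟨z, hzx, hzf⟩ := hfixz
  have hstz : stabilizer G z ≠ ⊥ := by
    intro h
    apply hPne
    rw [eq_bot_iff, ← h]
    intro s hs
    exact MulAction.mem_stabilizer_iff.2 (hzf s hs)
  have hzorb : z ∈ orbit G y := by
    rcases hTwo.cov z hstz with h | h
    · exfalso
      have h1 : Nat.card (orbit G x) = 1 := hox1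
      rw [Nat.card_eq_one_iff_unique] at h1
      have h2 : (⟨z, h⟩ : orbit G x) = ⟨x, MulAction.mem_orbit_self x⟩ := h1.1.elim _ _
      exact hzx (congrArg Subtype.val h2)
    · exact h
  have hPxy : R.P x ≤ R.P y := by
    obtain ⟨a, ha⟩ := hzorb
    intro s hs
    have h1 : a * s * a⁻¹ ∈ R.P x := hnorm.conj_mem _ hs a
    have h2 := hzf _ h1
    have h3 : s • y = y := by
      rw [← ha] at h2
      change (a * s * a⁻¹) • (a • y) = a • y at h2
      rw [smul_smul, inv_mul_cancel_right, mul_smul] at h2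
      exact MulAction.injective a h2
    refine h3y s h3 ?_
    obtain ⟨n, hn⟩ := hP3 ⟨s, hs⟩
    exact ⟨n, by simpa using congrArg Subtype.val hn⟩
  have hPeq : R.P y = R.P x := le_antisymm hPyPx hPxy
  have hqeq : qq R y = qq R x := by rw [qq, qq, hPeq]
  have hoy1 : oo G y = 1 := by
    rw [hqeq] at hyq
    exact Nat.eq_of_mul_eq_mul_right hqx1 (by rw [hyq, one_mul])
  have hTT : R.T x + R.T y = 2 * (l + 1) := by
    rw [hox1, hoy1] at hrh
    omega
  have hNx : Nat.card G = qq R x * hh R x := by rw [← hoox, hox1, one_mul, hst]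
  have hNy : Nat.card G = qq R x * hh R y := by rw [← hooy, hoy1, one_mul, hsty, hqeq]
  have hheq : hh R y = hh R x := Nat.eq_of_mul_eq_mul_left hqx1 (by rw [← hNx, ← hNy])
  have hstabtop : ∀ w : X, oo G w = 1 → stabilizer G w = ⊤ := by
    intro w hw
    have h1 := (hBA4 G X).1 w
    rw [hw, one_mul] at h1
    exact Subgroup.eq_top_of_card_eq _ h1
  -- the complement for `y`
  have hcCy : IsC R y c := by
    obtain ⟨hc, hord, -, hgen⟩ := hcC
    have hcy : c ∈ stabilizer G y := by rw [hstabtop y hoy1]; exact Subgroup.mem_top _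
    refine ⟨hcy, by rw [hord, hheq], ?_, ?_⟩
    · refine Nat.dvd_antisymm ?_ ?_
      · refine orderOf_dvd_of_pow_eq_one ?_
        rw [← map_pow]
        have : (⟨c, hcy⟩ : stabilizer G y) ^ hh R y = 1 := by
          apply Subtype.ext
          change c ^ hh R y = 1
          rw [hheq, ← hord, pow_orderOf_eq_one]
        rw [this, map_one]
      · rw [hheq, ← hord]
        refine orderOf_dvd_of_pow_eq_one ?_
        set n := orderOf ((R.θ y) ⟨c, hcy⟩) with hn
        have h1 : (R.θ y) ((⟨c, hcy⟩ : stabilizer G y) ^ n) = 1 := by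
          rw [map_pow, hn, pow_orderOf_eq_one]
        have h2 : c ^ n ∈ R.P y := ⟨(⟨c, hcy⟩ : stabilizer G y) ^ n, h1, rfl⟩
        obtain ⟨m, hm⟩ := hP3y ⟨c ^ n, h2⟩
        have hm' : (c ^ n) ^ 3 ^ m = 1 := by simpa using congrArg Subtype.val hm
        have h3 := orderOf_dvd_of_pow_eq_one hm'
        have h4 : orderOf (c ^ n) ∣ hh R x := by rw [← hord]; exact orderOf_pow_dvd n
        have h5 : Nat.Coprime (3 ^ m) (hh R x) :=
          Nat.Coprime.pow_left m ((Nat.Prime.coprime_iff_not_dvd Nat.prime_three).2 h3h)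
        have h6 : orderOf (c ^ n) ∣ 1 := by
          have := Nat.dvd_gcd h3 h4
          rwa [h5] at this
        exact orderOf_eq_one_iff.1 (Nat.dvd_one.1 h6)
    · intro s _
      have : s • x = x := by
        have h1 : s ∈ stabilizer G x := by rw [hstabtop x hox1]; exact Subgroup.mem_top _
        exact MulAction.mem_stabilizer_iff.1 h1
      obtain ⟨p, hp, n, hpn⟩ := hgen s this
      exact ⟨p, hPxy hp, n, hpn⟩
  obtain ⟨hc, hord, hordθ, hgen⟩ := hcC
  have hcC : IsC R x c := ⟨hc, hord, hordθ, hgen⟩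
  have hcx : c • x = x := MulAction.mem_stabilizer_iff.1 hc
  obtain ⟨-, hC2, -, hC4⟩ := hC3 k G X (l + 1) R x c hcC
  obtain ⟨-, hC2y, -, hC4y⟩ := hC3 k G X (l + 1) R y c hcCy
  rw [hheq] at hC2y hC4y
  rw [hPeq] at hC4y
  have hhTT : hh R x ∣ 2 * (l + 1) := by rw [← hTT]; exact dvd_add hC2 hC2y
  have h3c : ¬ 3 ∣ orderOf c := by rw [hord]; exact h3h
  have hprimes : ∀ r : ℕ, r.Prime → 5 ≤ r → r ∣ orderOf c → r ∣ l + 1 := by
    intro r hr hr5 hrc
    rw [hord] at hrc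
    rcases (Nat.Prime.dvd_mul hr).1 (hrc.trans hhTT) with h | h
    · have := Nat.le_of_dvd (by norm_num) h
      omega
    · exact h
  have hper : ∀ s ∈ R.P x, ∃ j : ℕ, j ≤ 3 ∧ P5_per c s = 2 ^ j := by
    intro s hs
    obtain ⟨j, hj⟩ := P5_prime R hF4 hBA1 hl x c hcx h3c hprimes s hs
    refine ⟨j, ?_, hj⟩
    have h1 : 2 ^ j ∣ 2 * (l + 1) := by
      rw [← hj]
      refine (P5_per_dvd_order c s).trans ?_
      rw [hord]
      exact hhTT
    refine P5_pow_le h1 ?_
    intro h2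
    norm_num at h2
    omega
  set A := Finset.univ.filter (fun s : G => s ∈ R.P x ∧ s ≠ 1) with hA
  have hAcard : A.card + 1 = qq R x := P5_card (R.P x)
  have hperpos : ∀ s ∈ R.P x, s ≠ 1 → 0 < P5_per c s ∧ c ^ P5_per c s * s = s * c ^ P5_per c s := by
    intro s hs _
    obtain ⟨j, -, hj⟩ := hper s hs
    exact ⟨by rw [hj]; positivity, (P5_per_dvd c s _).1 dvd_rfl⟩
  have hsumx := hC4 (P5_per c) hperpos
  have hsumy := hC4y (P5_per c) hperpos
  have hbig : 4 * (R.T x + R.T y) < qq R x * hh R x := by rw [hTT, ← hNx]; omega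
  have hall : ∀ s ∈ R.P x, s ≠ 1 → P5_per c s = 8 := by
    intro s hs hs1
    by_contra hne
    have hle : 2 * P5_per c s ≤ 8 := by
      obtain ⟨j, hj, hj'⟩ := hper s hs
      interval_cases j
      · rw [hj']; norm_num
      · rw [hj']; norm_num
      · rw [hj']; norm_num
      · exact absurd hj' (by simpa using hne)
    have h1 := P5_sum A (hh R x : ℚ) (by positivity) (P5_per c) 8 (by
      intro t ht
      rw [hA, Finset.mem_filter] at ht
      obtain ⟨j, hj, hj'⟩ := hper t ht.2.1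
      rw [hj']
      interval_cases j <;> norm_num) s s⁻¹ (by
        rw [hA, Finset.mem_filter]; exact ⟨Finset.mem_univ _, hs, hs1⟩) (by
        rw [hA, Finset.mem_filter]
        exact ⟨Finset.mem_univ _, Subgroup.inv_mem _ hs, by simpa using hs1⟩)
      (P5_ne_inv (R.P x) hP3 s hs hs1) hle (by rw [P5_per_inv]; exact hle)
    have h2 := h1.trans hsumx
    have h2y := h1.trans hsumy
    have h3 : (A.card : ℚ) = (qq R x : ℚ) - 1 := by
      rw [← hAcard]; push_cast; ring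
    have h4 : (4 * (R.T x + R.T y) : ℚ) < (qq R x : ℚ) * (hh R x : ℚ) := by exact_mod_cast hbig
    rw [h3] at h2 h2y
    have h5 : (0 : ℚ) ≤ hh R x := by positivity
    push_cast at h2 h2y
    nlinarith
  -- divisibilities
  have h8q : 8 ∣ A.card := by
    have := P5_dvd_card_set c {s : G | s ∈ R.P x ∧ s ≠ 1} 8 (by
      intro s
      change (c * s * c⁻¹ ∈ R.P x ∧ c * s * c⁻¹ ≠ 1) ↔ (s ∈ R.P x ∧ s ≠ 1)
      rw [P5_conj_P hBA1 R x c s hcx]
      have : c * s * c⁻¹ = 1 ↔ s = 1 := by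
        rw [mul_inv_eq_one, mul_eq_left]
      rw [Ne, this]) (by
      rintro s ⟨hs, hs1⟩
      exact hall s hs hs1)
    have e : Nat.card {s : G | s ∈ R.P x ∧ s ≠ 1} = A.card := by
      rw [hA, Nat.card_eq_fintype_card, Fintype.card_ofFinset]
      congr 1
      ext s
      simp
    rwa [e] at this
  obtain ⟨s0, hs0, hs01⟩ : ∃ s ∈ R.P x, s ≠ 1 := by
    by_contra hno
    push Not at hno
    exact hPne ((Subgroup.eq_bot_iff_forall _).2 hno)
  have h8h : 8 ∣ hh R x := by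
    rw [← hord, ← hall s0 hs0 hs01]
    exact P5_per_dvd_order c s0
  obtain ⟨h', hh'⟩ := h8h
  have hh'pos : 0 < h' := by
    rcases Nat.eq_zero_or_pos h' with h | h
    · exfalso
      rw [h, mul_zero] at hh'
      have := orderOf_pos c
      rw [hord, hh'] at this
      exact lt_irrefl _ this
    · exact h
  obtain ⟨B1, hB1⟩ := P5C_T R hBA1 hC3 x c hcC hall h' hh' hh'pos
  obtain ⟨B2, hB2⟩ := P5C_T R hBA1 hC3 y c hcCy (by rw [hPeq]; exact hall) h'
    (by rw [hheq, hh']) hh'pos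
  rw [hqeq] at hB2
  obtain ⟨t, ht⟩ := h8q
  have hfin : R.T x + R.T y = 16 * (h' * (t + B1 + B2)) := by
    rw [← hAcard, ht] at hB1 hB2
    have h1 : R.T x + h' + (R.T y + h') = h' * (8 * t + 1 + 16 * B1) + h' * (8 * t + 1 + 16 * B2) := by
      rw [hB1, hB2]
    have h2 : h' * (8 * t + 1 + 16 * B1) + h' * (8 * t + 1 + 16 * B2) =
        16 * (h' * (t + B1 + B2)) + 2 * h' := by ring
    omega
  rw [hTT] at hfin
  omega

end Pool.Agent.helper75.AU
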