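import Pool.Agent.helper79.AU.P5base

/-!
# Project au: P5D (type (D) is impossible)
-/

namespace Pool.Agent.helper75.AU

open scoped Classical
open Pool.Agent.helper53.AU MulAction

theorem P5D (hBA1 : BA1_stmt) (hBA3 : BA3_stmt) (hBA4 : BA4_stmt) (hC3 : C3_stmt)
    (hF4 : F4_stmt) : P5D_stmt := by
  intro k G X _ _ _ _ _ _ l R x y y' hl hN hnl hD
  obtain ⟨hP3, hmemP, -, -, hconjP, -, hst, h3h, -, c, hcC⟩ := hBA1 k G X (l + 1) R x
  have hBA3x := hBA3 k G X (l + 1) R x ⊤
  have hTeven : 2 ∣ R.T x := hBA3x.2.2.2.2.2.2.2.2.1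
  have hqT : qq R x ≤ R.T x + 1 := hBA3x.2.2.2.2.2.2.2.2.2
  have hoo := (hBA4 G X).1 x
  have hrh := hD.rh
  have hNpos : 0 < Nat.card G := Nat.card_pos
  have hoopos : 0 < oo G x := by
    rcases Nat.eq_zero_or_pos (oo G x) with h | h
    · rw [h, zero_mul] at hoo; omega
    · exact h
  have hq2 : 2 ≤ qq R x := by
    have : 1 < Nat.card (R.P x) := by
      rw [Subgroup.one_lt_card_iff_ne_bot]
      exact hD.wild
    exact this
  have hTpos : 2 ≤ R.T x := by omega
  obtain ⟨T1, hT1⟩ : ∃ T1, R.T x = T1 + 1 := ⟨R.T x - 1, by omega⟩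
  have heq : oo G x * T1 = 2 * l := by
    rw [hT1] at hrh
    nlinarith
  have hlp := hl.prime
  have hlT : l ∣ T1 := by
    have : l ∣ oo G x * T1 := by rw [heq]; exact dvd_mul_left _ _
    rcases (Nat.Prime.dvd_mul hlp).1 this with h | h
    · exfalso
      apply hnl
      rw [← hoo]
      exact h.mul_right _
    · exact h
  obtain ⟨a, ha⟩ := hlT
  have hlpos : 0 < l := hlp.pos
  have hoa : oo G x * a = 2 := by
    have : l * (oo G x * a) = l * 2 := by
      rw [← mul_assoc, mul_comm l, mul_assoc, ← ha, heq, mul_comm]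
    exact Nat.eq_of_mul_eq_mul_left hlpos this
  have hlmod := hl.mod8
  have ha1 : a = 1 ∧ oo G x = 2 := by
    have h1 : a ∣ 2 := ⟨oo G x, by rw [← hoa, mul_comm]⟩
    have h2 : a ≤ 2 := Nat.le_of_dvd (by norm_num) h1
    interval_cases a
    · omega
    · exact ⟨rfl, by omega⟩
    · exfalso
      omega
  obtain ⟨ha1, hO2⟩ := ha1
  have hT : R.T x = l + 1 := by
    rw [hT1, ha, ha1, mul_one]
  have hNqh : Nat.card G = 2 * (qq R x * hh R x) := by rw [← hoo, hO2, hst]
  have hbig : 4 * R.T x < qq R x * hh R x := by rw [hT]; omega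
  obtain ⟨hc, hord, hordθ, hgen⟩ := hcC
  have hcx : c • x = x := MulAction.mem_stabilizer_iff.1 hc
  have hcC : IsC R x c := ⟨hc, hord, hordθ, hgen⟩
  obtain ⟨hC1, hC2, hC3', hC4⟩ := hC3 k G X (l + 1) R x c hcC
  have h3c : ¬ 3 ∣ orderOf c := by rw [hord]; exact h3h
  have hprimes : ∀ r : ℕ, r.Prime → 5 ≤ r → r ∣ orderOf c → r ∣ l + 1 := by
    intro r _ _ hr
    rw [hord] at hr
    rw [← hT]
    exact hr.trans hC2
  have hper : ∀ s ∈ R.P x, ∃ j : ℕ, j ≤ 2 ∧ P5_per c s = 2 ^ j := by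
    intro s hs
    obtain ⟨j, hj⟩ := P5_prime R hF4 hBA1 hl x c hcx h3c hprimes s hs
    refine ⟨j, ?_, hj⟩
    have h1 : 2 ^ j ∣ l + 1 := by
      rw [← hj, ← hT]
      refine (P5_per_dvd_order c s).trans ?_
      rw [hord]
      exact hC2
    refine P5_pow_le h1 ?_
    intro h2
    norm_num at h2
    omega
  set A := Finset.univ.filter (fun s : G => s ∈ R.P x ∧ s ≠ 1) with hA
  have hAcard : A.card + 1 = qq R x := P5_card (R.P x)
  have hsum := hC4 (P5_per c) (fun s hs _ => by
    obtain ⟨j, -, hj⟩ := hper s hs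
    exact ⟨by rw [hj]; positivity, (P5_per_dvd c s _).1 dvd_rfl⟩)
  -- all periods are 4
  have hall : ∀ s ∈ R.P x, s ≠ 1 → P5_per c s = 4 := by
    intro s hs hs1
    by_contra hne
    have hle : 2 * P5_per c s ≤ 4 := by
      obtain ⟨j, hj, hj'⟩ := hper s hs
      interval_cases j
      · rw [hj']; norm_num
      · rw [hj']; norm_num
      · exact absurd hj' (by simpa using hne)
    have h1 := P5_sum A (hh R x : ℚ) (by positivity) (P5_per c) 4 (by
      intro t ht
      rw [hA, Finset.mem_filter] at ht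
      obtain ⟨j, hj, hj'⟩ := hper t ht.2.1
      rw [hj']
      interval_cases j <;> norm_num) s s⁻¹ (by
        rw [hA, Finset.mem_filter]; exact ⟨Finset.mem_univ _, hs, hs1⟩) (by
        rw [hA, Finset.mem_filter]
        exact ⟨Finset.mem_univ _, Subgroup.inv_mem _ hs, by simpa using hs1⟩)
      (P5_ne_inv (R.P x) hP3 s hs hs1) hle (by rw [P5_per_inv]; exact hle)
    have h2 := h1.trans hsum
    have h3 : (A.card : ℚ) = (qq R x : ℚ) - 1 := by
      rw [← hAcard]; push_cast; ring
    have h4 : (4 * R.T x : ℚ) < (qq R x : ℚ) * (hh R x : ℚ) := by exact_mod_cast hbig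
    rw [h3] at h2
    have h5 : (0 : ℚ) ≤ hh R x := by positivity
    push_cast at h2
    nlinarith
  -- layers
  have hlay : ∀ j : ℕ, 8 ∣ (A.filter (fun s => j + 1 ≤ R.i x s)).card := by
    intro j
    set L := P5_lay R x (j + 1) with hL
    have h1 : (A.filter (fun s => j + 1 ≤ R.i x s)) =
        Finset.univ.filter (fun s : G => s ∈ L ∧ s ≠ 1) := by
      ext s
      simp only [hA, Finset.mem_filter, Finset.mem_univ, true_and, hL, P5_mem_lay]
      tauto
    have h2 := P5_card L
    rw [h1]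
    set B := Finset.univ.filter (fun s : G => s ∈ L ∧ s ≠ 1) with hB
    have h3 : 4 ∣ B.card := by
      have := P5_dvd_card_set c {s : G | s ∈ L ∧ s ≠ 1} 4 (by
        intro s
        change (c * s * c⁻¹ ∈ L ∧ c * s * c⁻¹ ≠ 1) ↔ (s ∈ L ∧ s ≠ 1)
        rw [hL, P5_conj_lay hBA1 R x (j + 1) c s hcx]
        have : c * s * c⁻¹ = 1 ↔ s = 1 := by
          rw [mul_inv_eq_one, mul_eq_left]
        rw [Ne, this]) (by
        rintro s ⟨hs, hs1⟩
        exact hall s hs.1 hs1)
      have e : Nat.card {s : G | s ∈ L ∧ s ≠ 1} = B.card := by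
        rw [hB, Nat.card_eq_fintype_card, Fintype.card_ofFinset]
        congr 1
        ext s
        simp
      rwa [e] at this
    have hLP : IsPGroup 3 L := hP3.to_le (fun s hs => hs.1)
    obtain ⟨b, hb⟩ := (IsPGroup.iff_card).1 hLP
    rw [hb] at h2
    have h4 := P5_three_pow b
    omega
  -- sum over the layers
  have hTsum : R.T x = ∑ s ∈ A, R.i x s := rfl
  have h8 : 8 ∣ R.T x := by
    have hM : ∃ M : ℕ, ∀ s ∈ A, R.i x s ≤ M := ⟨∑ s ∈ A, R.i x s, fun s hs =>
      Finset.single_le_sum (f := fun s => R.i x s) (fun _ _ => Nat.zero_le _) hs⟩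
    obtain ⟨M, hM⟩ := hM
    have h1 : ∑ s ∈ A, R.i x s = ∑ j ∈ Finset.range M,
        (A.filter (fun s => j + 1 ≤ R.i x s)).card := by
      have h2 : ∀ s ∈ A, R.i x s = ∑ j ∈ Finset.range M, if j + 1 ≤ R.i x s then 1 else 0 := by
        intro s hs
        rw [← Finset.card_filter]
        have : (Finset.range M).filter (fun j => j + 1 ≤ R.i x s) = Finset.range (R.i x s) := by
          ext j
          have := hM s hs
          simp only [Finset.mem_filter, Finset.mem_range]
          omega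
        rw [this, Finset.card_range]
      rw [Finset.sum_congr rfl h2, Finset.sum_comm]
      refine Finset.sum_congr rfl fun j _ => ?_
      rw [Finset.card_filter]
    rw [hTsum, h1]
    exact Finset.dvd_sum fun j _ => hlay j
  rw [hT] at h8
  omega

end Pool.Agent.helper75.AU
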