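import Pool.Agent.helper75.AU.SpecR

/-!
# Project au: S8 (Case II is impossible)
-/

namespace Pool.Agent.helper75.AU

open scoped Classical
open Pool.Agent.helper53.AU MulAction

theorem S8_genThree (G : Type) [Group G] : GenThree (thr G) := by
  have h := Subgroup.closure_closure_coe_preimage (k := {x : G | ∃ n : ℕ, x ^ (3 ^ n) = 1})
  have e : {x : thr G | ∃ n : ℕ, x ^ (3 ^ n) = 1} =
      (((↑) : Subgroup.closure {x : G | ∃ n : ℕ, x ^ (3 ^ n) = 1} → G) ⁻¹'
        {x : G | ∃ n : ℕ, x ^ (3 ^ n) = 1}) := by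
    ext x
    constructor
    · rintro ⟨n, hn⟩
      exact ⟨n, by simpa using congrArg Subtype.val hn⟩
    · rintro ⟨n, hn⟩
      exact ⟨n, Subtype.ext (by simpa using hn)⟩
  rw [GenThree, e]
  exact h

theorem S8_smul_eq {k G X : Type} [Field k] [CharP k 3] [Group G] [Fintype G] [MulAction G X]
    [Fintype X] {g : ℕ} (hBA1 : BA1_stmt) (R : Ram k G X g) (v : G) (z : X) (S S' : Sylow 3 G)
    (hS : (S : Subgroup G) = R.P z) (hS' : (S' : Subgroup G) = R.P (v • z)) : S' = v • S := by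
  apply Sylow.ext
  rw [hS', Sylow.coe_subgroup_smul, hS]
  ext s
  rw [Subgroup.mem_pointwise_smul_iff_inv_smul_mem]
  have h := (hBA1 k G X g R z).2.2.2.1 v (v⁻¹ * s * v)
  have e : v * (v⁻¹ * s * v) * v⁻¹ = s := by group
  rw [e] at h
  rw [h]
  have e2 : (MulAut.conj v)⁻¹ • s = v⁻¹ * s * v := by
    rw [← map_inv, MulAut.smul_def, MulAut.conj_apply, inv_inv]
  rw [e2]

/-- two-element fibres -/
theorem S8_fib {O : Type} [Finite O] (p : O → Prop) (h : Nat.card {z : O // p z} = 2)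
    (z1 z2 z3 : O) (h1 : p z1) (h2 : p z2) (h3 : p z3) (h12 : z1 ≠ z2) (h32 : z3 ≠ z2) :
    z1 = z3 := by
  by_contra h13
  have : Fintype {z : O // p z} := Fintype.ofFinite _
  rw [Nat.card_eq_fintype_card] at h
  have h4 := Finset.card_le_univ ({⟨z1, h1⟩, ⟨z2, h2⟩, ⟨z3, h3⟩} : Finset {z : O // p z})
  rw [h, Finset.card_insert_of_notMem, Finset.card_insert_of_notMem, Finset.card_singleton] at h4
  · omega
  · simp only [Finset.mem_singleton, Subtype.mk.injEq]
    exact fun e => h32 e.symm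
  · simp only [Finset.mem_insert, Finset.mem_singleton, Subtype.mk.injEq]
    rintro (e | e)
    · exact h12 e
    · exact h13 e

/-- 2-elements of the stabiliser of a point of the orbit of `y` act trivially on the Sylow
3-subgroups -/
theorem S8_two {k G X : Type} [Field k] [CharP k 3] [Group G] [Fintype G] [MulAction G X]
    [Fintype X] {l : ℕ} (hBA1 : BA1_stmt) (R : Ram k G X (l + 1)) (x y : X) (c : G)
    (u h' e' u₁ : ℕ) (hsix : Six R x y c u h' e' u₁) (hII : CaseII G c h' e' u₁) (t : G)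
    (ht : t ∈ stabilizer G y ⊓ thr G) (j : ℕ) (ht2 : t ^ 2 ^ j = 1) :
    ∀ S : Sylow 3 G, t • S = S := by
  set B2 : Subgroup G := stabilizer G y ⊓ thr G with hB2
  obtain ⟨-, -, -, -, -, -, -, -, ⟨a, ha⟩, -⟩ := hBA1 k G X (l + 1) R y
  have hcB : c ∈ B2 := hsix.c_mem
  let c2 : B2 := ⟨c, hcB⟩ ^ e'
  have hc2 : (c2 : G) = c ^ e' := rfl
  have he'pos : 0 < e' := by have := hsix.four; omega
  have hu1 : u₁ = 1 ∨ u₁ = 2 := hII.u1
  have hu1pos : 0 < u₁ := by rcases hu1 with h | h <;> omega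
  have hord : orderOf c2 = u₁ := by
    rw [← Subgroup.orderOf_coe, hc2, orderOf_pow, hsix.c_ord,
      Nat.gcd_eq_right (dvd_mul_left e' u₁), Nat.mul_div_cancel _ he'pos]
  have hT : IsPGroup 2 (Subgroup.zpowers c2) := by
    rw [IsPGroup.iff_card]
    rw [Nat.card_zpowers, hord]
    rcases hu1 with h | h
    · exact ⟨0, by rw [h]; rfl⟩
    · exact ⟨1, by rw [h]; rfl⟩
  have hidx : ¬ 2 ∣ (Subgroup.zpowers c2).index := by
    have h1 := (Subgroup.zpowers c2).card_mul_index
    rw [Nat.card_zpowers, hord] at h1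
    have h2 : Nat.card B2 = qq R y * (u₁ * e') := hsix.cardB2
    rw [h2, ha] at h1
    have h3 : (Subgroup.zpowers c2).index = 3 ^ a * e' := by
      have : u₁ * (Subgroup.zpowers c2).index = u₁ * (3 ^ a * e') := by rw [h1]; ring
      exact Nat.eq_of_mul_eq_mul_left hu1pos this
    rw [h3]
    intro h4
    rcases (Nat.Prime.dvd_mul Nat.prime_two).1 h4 with h5 | h5
    · have := Nat.Prime.dvd_of_dvd_pow Nat.prime_two h5
      omega
    · exact hII.od h5
  let ST : Sylow 2 B2 := hT.toSylow hidx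
  have htP : IsPGroup 2 (Subgroup.zpowers (⟨t, ht⟩ : B2)) := by
    rw [IsPGroup.iff_card]
    rw [Nat.card_zpowers]
    have h1 : orderOf (⟨t, ht⟩ : B2) ∣ 2 ^ j := orderOf_dvd_of_pow_eq_one (Subtype.ext ht2)
    obtain ⟨i, -, hi⟩ := (Nat.dvd_prime_pow Nat.prime_two).1 h1
    exact ⟨i, hi⟩
  obtain ⟨S', hS'⟩ := htP.exists_le_sylow
  obtain ⟨w, hw⟩ := MulAction.exists_smul_eq B2 S' ST
  have h1 : (⟨t, ht⟩ : B2) ∈ S' := hS' (Subgroup.mem_zpowers _)
  have h2 : w * (⟨t, ht⟩ : B2) * w⁻¹ ∈ (ST : Subgroup B2) := by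
    rw [← hw, Sylow.coe_subgroup_smul, Subgroup.mem_pointwise_smul_iff_inv_smul_mem]
    have e2 : (MulAut.conj w)⁻¹ • (w * (⟨t, ht⟩ : B2) * w⁻¹) = ⟨t, ht⟩ := by
      rw [← map_inv, MulAut.smul_def, MulAut.conj_apply, inv_inv]
      group
    rw [e2]
    exact h1
  have h3 : w * (⟨t, ht⟩ : B2) * w⁻¹ ∈ Subgroup.zpowers c2 := by
    have : w * (⟨t, ht⟩ : B2) * w⁻¹ ∈ hT.toSylow hidx := h2
    rwa [IsPGroup.mem_toSylow] at this
  obtain ⟨i, hi⟩ := Subgroup.mem_zpowers_iff.1 h3
  have hc2triv : ∀ S : Sylow 3 G, (c ^ e') • S = S := fun S => (hII.orb S e').2 dvd_rfl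
  have hker : c ^ e' ∈ (ph G).ker := by
    rw [MonoidHom.mem_ker]
    ext1 S
    exact hc2triv S
  have h4 : (w : G) * t * (w : G)⁻¹ ∈ (ph G).ker := by
    have : (w : G) * t * (w : G)⁻¹ = (c ^ e') ^ i := by
      have := congrArg Subtype.val hi
      rw [← hc2]
      simpa using this.symm
    rw [this]
    exact Subgroup.zpow_mem _ hker i
  have h5 : t ∈ (ph G).ker := by
    have := ((ph G).normal_ker).conj_mem _ h4 (w : G)⁻¹
    have e : (w : G)⁻¹ * ((w : G) * t * (w : G)⁻¹) * (w : G)⁻¹⁻¹ = t := by group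
    rwa [e] at this
  intro S
  rw [MonoidHom.mem_ker] at h5
  exact Equiv.congr_fun h5 S

theorem S8 (hBA1 : BA1_stmt) (hPI : PI_stmt) (hS80 : S80_stmt) (hS8C : S8C_stmt)
    (hII7 : II7_stmt) (hSM : SM_stmt) (hRP : RP_stmt) : S8_stmt := by
  intro k G X _ _ _ _ _ _ l R x y c u h' e' u₁ hl hsix hII
  -- 2-transitivity
  have htt : TwoTrans (thr G) (Sylow 3 G) := by
    have h := hII7 _ _ _ _ (hS8C k G X l R x y c u h' e' u₁ hl hsix hII)
    intro a b c' d hab hcd
    obtain ⟨⟨g, hg⟩, h1, h2⟩ := h a b c' d hab hcd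
    obtain ⟨s, hs, rfl⟩ := hg
    exact ⟨⟨s, hs⟩, h1, h2⟩
  -- the fibration
  obtain ⟨-, pi, hpi, -⟩ := hPI k G X l R x hsix.two.syl hsix.two.wild
  have heq : ∀ (v : G) (z : orbit G x), pi (v • z) = v • pi z := fun v z =>
    S8_smul_eq hBA1 R v z.1 (pi z) (pi (v • z)) (hpi z) (hpi (v • z))
  have hcard : ∀ S : Sylow 3 G, Nat.card {z : orbit G x // pi z = S} = 2 := by
    intro S
    rw [← hsix.fib S]
    refine Nat.card_congr ⟨fun z => ⟨z.1.1, z.1.2, by rw [← hpi z.1, z.2]⟩,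
      fun z => ⟨⟨z.1, z.2.1⟩, Sylow.ext (by rw [hpi]; exact z.2.2)⟩, fun z => rfl, fun z => rfl⟩
  have hfib : ∀ (S : Sylow 3 G) (z1 z2 z3 : orbit G x), pi z1 = S → pi z2 = S → pi z3 = S →
      z1 ≠ z2 → z3 ≠ z2 → z1 = z3 := fun S z1 z2 z3 h1 h2 h3 =>
    S8_fib (fun z => pi z = S) (hcard S) z1 z2 z3 h1 h2 h3
  -- an element fixing a point of a fibre fixes the other one
  have hfix : ∀ (s : G) (z1 z2 : orbit G x), pi z1 = pi z2 → s • z1 = z1 → s • z2 = z2 := by
    intro s z1 z2 h12 h1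
    by_cases hz : z2 = z1
    · rw [hz]; exact h1
    refine hfib (pi z1) (s • z2) z1 z2 ?_ rfl h12.symm ?_ hz
    · rw [heq, ← h12, ← heq, h1]
    · intro h2
      rw [← h1] at h2
      exact hz (MulAction.injective s h2)
  have hxo : x ∈ orbit G x := MulAction.mem_orbit_self x
  set x0 : orbit G x := ⟨x, hxo⟩ with hx0
  have htrO : ∀ z1 z2 : orbit G x, ∃ v : thr G, v • z1 = z2 := by
    rintro ⟨z1, a1, rfl⟩ ⟨z2, a2, rfl⟩
    obtain ⟨b1, hb1, hb1'⟩ := hsix.trx a1
    obtain ⟨b2, hb2, hb2'⟩ := hsix.trx a2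
    refine ⟨⟨b2 * b1⁻¹, Subgroup.mul_mem _ hb2 (Subgroup.inv_mem _ hb1)⟩, Subtype.ext ?_⟩
    change (b2 * b1⁻¹) • (a1 • x) = a2 • x
    rw [← hb1', ← hb2', smul_smul, inv_mul_cancel_right]
  -- the swapping element
  obtain ⟨v, x1, y1, hxy1, hvx1, hvy1, hvy1'⟩ := hSM (thr G) (orbit G x) (Sylow 3 G) pi
    (fun v z => heq v z) hcard htrO htt (by rw [hsix.om]; exact hII.od)
    (by rw [hsix.om]; have := hsix.four; omega) (S8_genThree G)
  -- for any two different Sylow subgroups `S`, `T` there is an element fixing a point over `S`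
  -- and moving all the points over `T`
  have hswap : ∀ S T : Sylow 3 G, S ≠ T → ∃ (s : G) (z : orbit G x), s ∈ thr G ∧ pi z = S ∧
      s • z = z ∧ s • T = T ∧ ∀ z' : orbit G x, pi z' = T → s • z' ≠ z' := by
    intro S T hST
    obtain ⟨w, hw1, hw2⟩ := htt (pi x1) (pi y1) S T hxy1 hST
    refine ⟨(w : G) * v * (w : G)⁻¹, (w : G) • x1, ?_, ?_, ?_, ?_, ?_⟩
    · exact Subgroup.mul_mem _ (Subgroup.mul_mem _ w.2 v.2) (Subgroup.inv_mem _ w.2)
    · rw [heq]; exact hw1
    · rw [smul_smul, inv_mul_cancel_right, mul_smul]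
      congr 1
    · have h1 : T = (w : G) • pi y1 := hw2.symm
      rw [h1, smul_smul, inv_mul_cancel_right, mul_smul]
      congr 1
      rw [← heq]
      exact hvy1
    · intro z' hz' hfx
      have h1 : pi ((w : G) • y1) = T := by rw [heq]; exact hw2
      have h2 := hfix _ z' ((w : G) • y1) (by rw [hz', h1]) hfx
      rw [smul_smul, inv_mul_cancel_right, mul_smul] at h2
      exact hvy1' (MulAction.injective (w : G) h2)
  -- `N` and `B`
  set N : Subgroup G := Subgroup.normalizer (R.P x : Set G) ⊓ thr G with hN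
  set B : Subgroup G := stabilizer G x ⊓ thr G with hB
  have hmemN : ∀ s : G, s ∈ N ↔ s ∈ thr G ∧ s • pi x0 = pi x0 := by
    intro s
    have h1 : s • pi x0 = pi x0 ↔ s ∈ Subgroup.normalizer (R.P x : Set G) := by
      rw [Sylow.smul_eq_iff_mem_normalizer]
      have : ((pi x0 : Sylow 3 G) : Set G) = (R.P x : Set G) := by
        have := hpi x0
        exact congrArg (fun H : Subgroup G => (H : Set G)) this
      rw [this]
    rw [h1, hN, Subgroup.mem_inf]
    exact and_comm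
  have hx0fix : ∀ s : G, s • x = x ↔ s • x0 = x0 := by
    intro s
    constructor
    · intro h; exact Subtype.ext h
    · intro h; exact congrArg Subtype.val h
  have hmemB : ∀ s : G, s ∈ B ↔ s ∈ thr G ∧ s • x0 = x0 := by
    intro s
    rw [hB, Subgroup.mem_inf, MulAction.mem_stabilizer_iff, hx0fix]
    exact and_comm
  have hBN : B ≤ N := by
    intro s hs
    rw [hmemB] at hs
    rw [hmemN]
    exact ⟨hs.1, by rw [← heq, hs.2]⟩
  have hcardNB : Nat.card N = 2 * Nat.card B := by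
    rw [hsix.cardN1, hsix.cardB1]; ring
  -- a point `b ≠ a`
  obtain ⟨b, hb⟩ : ∃ b : Sylow 3 G, b ≠ pi x0 := by
    by_cases h : pi x1 = pi x0
    · exact ⟨pi y1, fun h2 => hxy1 (by rw [h, h2])⟩
    · exact ⟨pi x1, h⟩
  obtain ⟨s0, z0, hs0, hz0, hs0z0, hs0a, hs0b⟩ := hswap b (pi x0) hb
  refine hRP k G X (l + 1) R B N z0.1 hBN hcardNB ⟨s0, ?_, congrArg Subtype.val hs0z0, ?_⟩ ?_
  · rw [hmemN]; exact ⟨hs0, hs0a⟩
  · rw [hmemB]
    exact fun h => hs0b x0 rfl h.2
  · rintro y' ⟨s, hsN, hsy', hsB⟩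
    rw [hmemN] at hsN
    have hsx0 : s • x0 ≠ x0 := fun h => hsB ((hmemB s).2 ⟨hsN.1, h⟩)
    have hst : stabilizer G y' ≠ ⊥ := by
      intro h
      have h1 : s ∈ stabilizer G y' := MulAction.mem_stabilizer_iff.2 hsy'
      rw [h, Subgroup.mem_bot] at h1
      rw [h1, one_smul] at hsx0
      exact hsx0 rfl
    rcases hsix.two.cov y' hst with hy' | hy'
    · -- the orbit of `x`
      set z' : orbit G x := ⟨y', hy'⟩ with hz'
      have hsz' : s • z' = z' := Subtype.ext hsy'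
      have hne : pi x0 ≠ pi z' := by
        intro h
        exact hsx0 (hfix s z' x0 h.symm hsz')
      obtain ⟨n1, hn1, hn1'⟩ := htt (pi x0) b (pi x0) (pi z') hb.symm hne
      by_cases hcase : (n1 : G) • z0 = z'
      · refine ⟨n1, (hmemN _).2 ⟨n1.2, hn1⟩, ?_⟩
        exact congrArg Subtype.val hcase
      · obtain ⟨s1, z1, hs1, hz1, hs1z1, hs1b, hs1m⟩ := hswap (pi x0) (pi z') hne
        have h1 : pi ((n1 : G) • z0) = pi z' := by rw [heq, hz0]; exact hn1'
        have h2 : s1 • ((n1 : G) • z0) ≠ (n1 : G) • z0 := hs1m _ h1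
        have h3 : s1 • ((n1 : G) • z0) = z' := by
          refine hfib (pi z') (s1 • ((n1 : G) • z0)) ((n1 : G) • z0) z' ?_ h1 rfl h2
            (fun h => hcase h.symm)
          rw [heq, h1]; exact hs1b
        refine ⟨s1 * n1, ?_, ?_⟩
        · rw [hmemN]
          refine ⟨Subgroup.mul_mem _ hs1 n1.2, ?_⟩
          rw [mul_smul]
          have h4 : (n1 : G) • pi x0 = pi x0 := hn1
          rw [h4]
          rw [← hz1, ← heq, hs1z1]
        · have := congrArg Subtype.val h3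
          rw [mul_smul]
          exact this
    · -- the orbit of `y`
      exfalso
      obtain ⟨a, ha⟩ := hy'
      obtain ⟨b', hb', hb''⟩ := hsix.try' a
      have hy'b : b' • y = y' := by rw [hb'']; exact ha
      have hordpos : orderOf s ≠ 0 := (orderOf_pos s).ne'
      obtain ⟨j, m, hm, hjm⟩ := Nat.exists_eq_two_pow_mul_odd hordpos
      set s2 := s ^ m with hs2
      have hs2pow : s2 ^ 2 ^ j = 1 := by
        rw [hs2, ← pow_mul, mul_comm, ← hjm, pow_orderOf_eq_one]
      have hs2y : s2 • y' = y' := by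
        have : s2 ∈ stabilizer G y' :=
          Subgroup.pow_mem _ (MulAction.mem_stabilizer_iff.2 hsy') _
        exact MulAction.mem_stabilizer_iff.1 this
      have hs2thr : s2 ∈ thr G := Subgroup.pow_mem _ hsN.1 _
      -- `s2` moves `x0`
      have hsq : s • (s • x0) = x0 := by
        refine hfib (pi x0) (s • (s • x0)) (s • x0) x0 ?_ ?_ rfl ?_ ?_
        · rw [heq, heq, hsN.2, hsN.2]
        · rw [heq, hsN.2]
        · intro h
          exact hsx0 (MulAction.injective s h)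
        · exact fun h => hsx0 h.symm
      have hs2x0 : s2 • x0 ≠ x0 := by
        obtain ⟨i, hi⟩ := hm
        have h1 : ∀ i : ℕ, s ^ (2 * i) • x0 = x0 := by
          intro i
          induction i with
          | zero => simp
          | succ i ih =>
            have : s ^ (2 * (i + 1)) = s ^ (2 * i) * (s * s) := by
              rw [← pow_two, ← pow_add]; congr 1
            rw [this, mul_smul, mul_smul, hsq, ih]
        rw [hs2, hi, pow_succ', mul_smul, h1]
        exact hsx0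
      -- conjugate to the stabiliser of `y`
      have htmem : b'⁻¹ * s2 * b' ∈ stabilizer G y ⊓ thr G := by
        rw [Subgroup.mem_inf, MulAction.mem_stabilizer_iff]
        refine ⟨?_, Subgroup.mul_mem _ (Subgroup.mul_mem _ (Subgroup.inv_mem _ hb') hs2thr) hb'⟩
        rw [mul_smul, mul_smul, hy'b, hs2y, ← hy'b, inv_smul_smul]
      have htpow : (b'⁻¹ * s2 * b') ^ 2 ^ j = 1 := by
        have h1 : ∀ n : ℕ, (b'⁻¹ * s2 * b') ^ n = b'⁻¹ * s2 ^ n * b' := by
          intro n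
          induction n with
          | zero => simp
          | succ n ih => rw [pow_succ, ih, pow_succ]; group
        rw [h1, hs2pow]; simp
      have htriv := S8_two hBA1 R x y c u h' e' u₁ hsix hII (b'⁻¹ * s2 * b') htmem j htpow
      have hker : b'⁻¹ * s2 * b' ∈ (ph G).ker := by
        rw [MonoidHom.mem_ker]
        ext1 S
        exact htriv S
      have hker2 : s2 ∈ (ph G).ker := by
        have := ((ph G).normal_ker).conj_mem _ hker b'
        have e : b' * (b'⁻¹ * s2 * b') * b'⁻¹ = s2 := by group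
        rwa [e] at this
      have hK1 : s2 ∈ K1 G := ⟨hker2, hs2thr⟩
      have := hS80 k G X l R x y c u h' e' u₁ hsix hII hK1
      rw [MulAction.mem_stabilizer_iff, hx0fix] at this
      exact hs2x0 this

end Pool.Agent.helper75.AU
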