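import Pool.Agent.helper53.AU.SpecG2
import Pool.Agent.helper21.AU.SY
import Pool.Agent.helper25.AU.X4

/-!
# Project au: X1 (2-transitive members of LL)
-/

namespace Pool.Agent.helper53.AU

open scoped Classical

theorem X1_zp {L : Type} [Group L] [Finite L] (x g : L)
    (hg : g * x * g⁻¹ ∈ Subgroup.zpowers x) : g⁻¹ * x * g ∈ Subgroup.zpowers x := by
  have h1 : Subgroup.zpowers (g * x * g⁻¹) = Subgroup.zpowers x := by
    refine Subgroup.eq_of_le_of_card_ge ?_ ?_
    · rw [Subgroup.zpowers_le]; exact hg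
    · rw [Nat.card_zpowers, Nat.card_zpowers]
      have h2 : orderOf (g * x * g⁻¹) = orderOf x := by
        have := (MulAut.conj g).orderOf_eq x
        simpa [MulAut.conj_apply] using this
      rw [h2]
  have h3 : x ∈ Subgroup.zpowers (g * x * g⁻¹) := by rw [h1]; exact Subgroup.mem_zpowers x
  obtain ⟨k, hk⟩ := Subgroup.mem_zpowers_iff.1 h3
  rw [Subgroup.mem_zpowers_iff]
  refine ⟨k, ?_⟩
  have h4 : (g * x * g⁻¹) ^ k = g * x ^ k * g⁻¹ := conj_zpow
  rw [h4] at hk
  calc x ^ k = g⁻¹ * (g * x ^ k * g⁻¹) * g := by group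
    _ = g⁻¹ * x * g := by rw [hk]

theorem X1_fix {L Ω : Type} [Group L] [MulAction L Ω] [Finite L] (x g : L) (α : Ω)
    (hxα : x • α = α) (hg : g * x * g⁻¹ ∈ Subgroup.zpowers x) : x • (g • α) = g • α := by
  have hzfix : ∀ y ∈ Subgroup.zpowers x, y • α = α := by
    intro y hy
    have h1 : Subgroup.zpowers x ≤ MulAction.stabilizer L α := by
      rw [Subgroup.zpowers_le]; exact hxα
    exact h1 hy
  have h1 := hzfix _ (X1_zp x g hg)
  have h2 : x • (g • α) = g • ((g⁻¹ * x * g) • α) := by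
    rw [← mul_smul, ← mul_smul]
    congr 1
    group
  rw [h2, h1]

/-- in a cyclic group all elements of order `r` generate the same subgroup -/
theorem X1_cyc {G : Type} [Group G] [Finite G] (hG : IsCyclic G) (x y : G) (r : ℕ) (hr : 0 < r)
    (hx : orderOf x = r) (hy : y ^ r = 1) : y ∈ Subgroup.zpowers x := by
  have hft : Fintype G := Fintype.ofFinite G
  have h1 : (Finset.univ.filter (fun g : G => g ^ r = 1)).card ≤ r :=
    IsCyclic.card_pow_eq_one_le hr
  have h2 : Finset.univ.filter (fun g : G => g ∈ Subgroup.zpowers x) ⊆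
      Finset.univ.filter (fun g : G => g ^ r = 1) := by
    intro g hg
    rw [Finset.mem_filter] at hg ⊢
    refine ⟨hg.1, ?_⟩
    obtain ⟨k, hk⟩ := Subgroup.mem_zpowers_iff.1 hg.2
    rw [← hk, ← zpow_natCast, ← zpow_mul, mul_comm, zpow_mul, zpow_natCast, ← hx,
      pow_orderOf_eq_one, one_zpow]
  have h3 : (Finset.univ.filter (fun g : G => g ∈ Subgroup.zpowers x)).card = r := by
    rw [← hx, ← Nat.card_zpowers, Nat.card_eq_fintype_card, Fintype.card_subtype]
  have h4 := Finset.eq_of_subset_of_card_le h2 (by rw [h3]; exact h1)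
  have h5 : y ∈ Finset.univ.filter (fun g : G => g ^ r = 1) := by
    rw [Finset.mem_filter]; exact ⟨Finset.mem_univ _, hy⟩
  rw [← h4, Finset.mem_filter] at h5
  exact h5.2

theorem X1_conj {L Ω : Type} [Group L] [MulAction L Ω] [Finite L] (α β : Ω)
    (hst : ThreeCyc (MulAction.stabilizer L α)) (r : ℕ) (hr : r.Prime) (hr3 : r ≠ 3) (x y : L)
    (hx : orderOf x = r) (hy : orderOf y = r) (hxα : x • α = α) (hxβ : x • β = β)
    (hyα : y • α = α) (hyβ : y • β = β) :
    ∃ k : L, k • α = α ∧ k • β = β ∧ k * y * k⁻¹ ∈ Subgroup.zpowers x := by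
  have hfact : Fact r.Prime := ⟨hr⟩
  set K : Subgroup L := MulAction.stabilizer L α ⊓ MulAction.stabilizer L β with hK
  have hmem : ∀ g : L, g ∈ K ↔ g • α = α ∧ g • β = β := by
    intro g
    rw [hK, Subgroup.mem_inf, MulAction.mem_stabilizer_iff, MulAction.mem_stabilizer_iff]
  have hxK : x ∈ K := (hmem x).2 ⟨hxα, hxβ⟩
  have hyK : y ∈ K := (hmem y).2 ⟨hyα, hyβ⟩
  have hpg : ∀ (z : L) (hz : z ∈ K), orderOf z = r →
      IsPGroup r (Subgroup.zpowers (⟨z, hz⟩ : K)) := by
    intro z hz ho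
    apply IsPGroup.of_card (n := 1)
    rw [Nat.card_zpowers, Subgroup.orderOf_mk, ho, pow_one]
  obtain ⟨S1, hS1⟩ := (hpg x hxK hx).exists_le_sylow
  obtain ⟨S2, hS2⟩ := (hpg y hyK hy).exists_le_sylow
  obtain ⟨k, hk⟩ := MulAction.exists_smul_eq K S2 S1
  have hxS : (⟨x, hxK⟩ : K) ∈ S1 := hS1 (Subgroup.mem_zpowers _)
  have hyS : k * ⟨y, hyK⟩ * k⁻¹ ∈ S1 := by
    rw [← hk]
    have h1 : (⟨y, hyK⟩ : K) ∈ S2 := hS2 (Subgroup.mem_zpowers _)
    have h2 := Subgroup.smul_mem_pointwise_smul (⟨y, hyK⟩ : K) (MulAut.conj k) (S2 : Subgroup K) h1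
    exact h2
  have hcyc : IsCyclic ((S1 : Subgroup K).map K.subtype) := by
    refine SY_cyc_of_le (MulAction.stabilizer L α) _ hst ?_ r hr hr3 (S1.isPGroup'.map K.subtype)
    rintro _ ⟨g, -, rfl⟩
    exact ((hmem g).1 g.2).1
  refine ⟨k, ((hmem k).1 k.2).1, ((hmem k).1 k.2).2, ?_⟩
  have h1 : x ∈ (S1 : Subgroup K).map K.subtype := ⟨⟨x, hxK⟩, hxS, rfl⟩
  have h2 : (k : L) * y * (k : L)⁻¹ ∈ (S1 : Subgroup K).map K.subtype :=
    ⟨k * ⟨y, hyK⟩ * k⁻¹, hyS, rfl⟩
  have h3 := X1_cyc hcyc ⟨x, h1⟩ ⟨(k : L) * y * (k : L)⁻¹, h2⟩ r hr.pos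
    (by rw [Subgroup.orderOf_mk, hx]) (by
      apply Subtype.ext
      rw [Subgroup.coe_pow, Subgroup.coe_one]
      show ((k : L) * y * (k : L)⁻¹) ^ r = 1
      rw [conj_pow, ← hy, pow_orderOf_eq_one, mul_one, mul_inv_cancel])
  obtain ⟨m, hm⟩ := Subgroup.mem_zpowers_iff.1 h3
  refine Subgroup.mem_zpowers_iff.2 ⟨m, ?_⟩
  have := congrArg Subtype.val hm
  simpa using this

/-- the normaliser of `<x>` is 2-transitive on the fixed points of `x` -/
theorem X1_two {L Ω : Type} [Group L] [MulAction L Ω] [Finite L] (h2t : TwoTrans L Ω)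
    (hst : ∀ α : Ω, ThreeCyc (MulAction.stabilizer L α)) (x : L) (hp : (orderOf x).Prime)
    (h3 : orderOf x ≠ 3) (γ δ γ' δ' : Ω) (hγδ : γ ≠ δ) (hγδ' : γ' ≠ δ') (hγ : x • γ = γ)
    (hδ : x • δ = δ) (hγ' : x • γ' = γ') (hδ' : x • δ' = δ') :
    ∃ n : L, n * x * n⁻¹ ∈ Subgroup.zpowers x ∧ n • γ = γ' ∧ n • δ = δ' := by
  obtain ⟨g, hg1, hg2⟩ := h2t γ δ γ' δ' hγδ hγδ'
  have hinv : ∀ ε ε' : Ω, g • ε = ε' → x • ε = ε → (g * x * g⁻¹) • ε' = ε' := by
    intro ε ε' h1 h2
    rw [mul_smul, mul_smul, ← h1, inv_smul_smul, h2]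
  have hord : orderOf (g * x * g⁻¹) = orderOf x := by
    have := (MulAut.conj g).orderOf_eq x
    simpa [MulAut.conj_apply] using this
  obtain ⟨k, hk1, hk2, hk3⟩ := X1_conj γ' δ' (hst γ') (orderOf x) hp h3 x (g * x * g⁻¹) rfl hord
    hγ' hδ' (hinv γ γ' hg1 hγ) (hinv δ δ' hg2 hδ)
  refine ⟨k * g, ?_, ?_, ?_⟩
  · have h1 : k * g * x * (k * g)⁻¹ = k * (g * x * g⁻¹) * k⁻¹ := by group
    rw [h1]; exact hk3
  · rw [mul_smul, hg1, hk1]
  · rw [mul_smul, hg2, hk2]

/-- elements of prime order at least 5 with a fixed point have exactly two fixed points -/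
theorem X1_fixtwo (hPLL : PLL_stmt) (hSY : SY_stmt) (hSN : SN_stmt) {L Ω : Type} [Group L]
    [MulAction L Ω] (A : Subgroup L) (hL : LL L Ω A) (h2t : TwoTrans L Ω) (x : L) (α : Ω)
    (hp : (orderOf x).Prime) (h5 : 5 ≤ orderOf x) (hxα : x • α = α) :
    ∃ β : Ω, β ≠ α ∧ x • β = β ∧ ∀ γ : Ω, x • γ = γ → γ = α ∨ γ = β := by
  have hfinL := hL.finL
  have hPL := hPLL L Ω A hL
  have h3 : orderOf x ≠ 3 := by omega
  have hsy := (hSY L Ω A hPL).2
  obtain ⟨g, hg1, hg2⟩ := hSN L Ω A hPL x hp h5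
  -- a second fixed point
  obtain ⟨β, hβα, hβ⟩ : ∃ β : Ω, β ≠ α ∧ x • β = β := by
    by_contra hcon
    push Not at hcon
    have h1 := X1_fix x g α hxα hg1
    have h2 : g • α = α := by
      by_contra h4
      exact hcon (g • α) h4 h1
    exact hg2 (hsy α x g hxα h2 hp h3 hg1)
  refine ⟨β, hβα, hβ, ?_⟩
  by_contra hcon
  push Not at hcon
  obtain ⟨δ, hδ, hδα, hδβ⟩ := hcon
  -- the centraliser is transitive on the fixed points
  obtain ⟨n, hn1, hn2, hn3⟩ := X1_two h2t hL.stab x hp h3 α β α δ hβα.symm hδα.symm hxα hβ hxα hδ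
  have hnx : n * x = x * n := hsy α x n hxα hn2 hp h3 hn1
  have htr : ∀ γ : Ω, x • γ = γ → ∃ c : L, c * x = x * c ∧ c • β = γ := by
    intro γ hγ
    by_cases hγβ : γ = β
    · exact ⟨1, by simp, by rw [one_smul, hγβ]⟩
    · obtain ⟨m, hm1, hm2, hm3⟩ := X1_two h2t hL.stab x hp h3 β δ β γ (Ne.symm hδβ)
        (Ne.symm hγβ) hβ hδ hβ hγ
      have hmx : m * x = x * m := hsy β x m hβ hm2 hp h3 hm1
      refine ⟨m * n, ?_, ?_⟩
      · rw [mul_assoc, hnx, ← mul_assoc, hmx, mul_assoc]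
      · rw [mul_smul, hn3, hm3]
  obtain ⟨c, hc1, hc2⟩ := htr (g • β) (X1_fix x g β hβ hg1)
  have hcg : (c⁻¹ * g) • β = β := by rw [mul_smul, ← hc2, inv_smul_smul]
  have hcg1 : (c⁻¹ * g) * x * (c⁻¹ * g)⁻¹ ∈ Subgroup.zpowers x := by
    obtain ⟨k, hk⟩ := Subgroup.mem_zpowers_iff.1 hg1
    have h1 : (c⁻¹ * g) * x * (c⁻¹ * g)⁻¹ = c⁻¹ * (g * x * g⁻¹) * c := by group
    rw [h1, ← hk]
    have h2 : Commute x c := hc1.symm
    have h3 : x ^ k * c = c * x ^ k := (h2.zpow_left k).eq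
    rw [mul_assoc, h3, ← mul_assoc, inv_mul_cancel, one_mul]
    exact Subgroup.mem_zpowers_iff.2 ⟨k, rfl⟩
  have h6 := hsy β x (c⁻¹ * g) hβ hcg hp h3 hcg1
  apply hg2
  have h7 : g = c * (c⁻¹ * g) := by group
  rw [h7, mul_assoc, h6, ← mul_assoc, hc1, mul_assoc]

/-- a nonabelian simple group does not act faithfully on four points -/
theorem X1_ne4 {L Ω : Type} [Group L] [MulAction L Ω] [Finite Ω] (hfaith : FaithfulSMul L Ω)
    (hs : IsSimpleGroup L) (hna : ∃ a b : L, a * b ≠ b * a) : Nat.card Ω ≠ 4 := by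
  intro h4
  have hft : Fintype Ω := Fintype.ofFinite Ω
  obtain ⟨a, b, hab⟩ := hna
  set f : L →* Equiv.Perm Ω := MulAction.toPermHom L Ω with hf
  have hfinj : Function.Injective f := MulAction.toPerm_injective
  -- the signs are trivial
  have hsign : ∀ g : L, Equiv.Perm.sign (f g) = 1 := by
    set φ : L →* ℤˣ := Equiv.Perm.sign.comp f with hφ
    have hker : φ.ker = ⊤ := by
      rcases hs.eq_bot_or_eq_top_of_normal φ.ker inferInstance with h | h
      · exfalso
        apply hab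
        apply (MonoidHom.ker_eq_bot_iff φ).1 h
        rw [map_mul, map_mul, mul_comm]
      · exact h
    intro g
    have : g ∈ φ.ker := by rw [hker]; trivial
    exact this
  let f' : L →* alternatingGroup Ω := f.codRestrict (alternatingGroup Ω) hsign
  have hf'inj : Function.Injective f' := by
    intro x y hxy
    apply hfinj
    exact congrArg Subtype.val hxy
  have hnormal : (alternatingGroup.kleinFour Ω).Normal := alternatingGroup.normal_kleinFour h4
  have hcomm := alternatingGroup.kleinFour_eq_commutator (α := Ω) h4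
  set N : Subgroup L := (alternatingGroup.kleinFour Ω).comap f' with hN
  have h1 : a * b * a⁻¹ * b⁻¹ ∈ N := by
    rw [hN, Subgroup.mem_comap, hcomm, map_mul, map_mul, map_mul, map_inv, map_inv]
    exact Subgroup.commutator_mem_commutator (Subgroup.mem_top (f' a)) (Subgroup.mem_top (f' b))
  have h2 : N = ⊤ := by
    rcases hs.eq_bot_or_eq_top_of_normal N inferInstance with h | h
    · exfalso
      rw [h, Subgroup.mem_bot] at h1
      apply hab
      have h3 := mul_inv_eq_one.1 h1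
      exact mul_inv_eq_iff_eq_mul.1 h3
    · exact h
  have hk := alternatingGroup.kleinFour_isKleinFour (α := Ω) h4
  have hab' : IsMulCommutative (alternatingGroup.kleinFour Ω) := hk.isMulCommutative
  apply hab
  apply hf'inj
  have ha : f' a ∈ alternatingGroup.kleinFour Ω := by
    have : a ∈ N := by rw [h2]; trivial
    exact this
  have hb : f' b ∈ alternatingGroup.kleinFour Ω := by
    have : b ∈ N := by rw [h2]; trivial
    exact this
  have h3 := hab'.is_comm.comm (⟨f' a, ha⟩ : alternatingGroup.kleinFour Ω) ⟨f' b, hb⟩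
  have h5 := congrArg Subtype.val h3
  rw [map_mul, map_mul]
  exact h5

/-- the order of a group of the form `P : C` -/
theorem X1_card {L : Type} [Group L] [Finite L] (H P : Subgroup L) (c : L) (hPH : P ≤ H)
    (hcH : c ∈ H) (hP : IsPGroup 3 P) (hc : ¬ 3 ∣ orderOf c)
    (hgen : ∀ x ∈ H, ∃ p ∈ P, ∃ n : ℕ, x = p * c ^ n) :
    Nat.card H = Nat.card P * orderOf c := by
  have hz : Subgroup.zpowers c ≤ H := by rw [Subgroup.zpowers_le]; exact hcH
  rw [← Nat.card_zpowers, ← Nat.card_prod]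
  symm
  refine Nat.card_congr (Equiv.ofBijective (fun q : P × Subgroup.zpowers c =>
    (⟨q.1.1 * q.2.1, H.mul_mem (hPH q.1.2) (hz q.2.2)⟩ : H)) ⟨?_, ?_⟩)
  · rintro ⟨p, z⟩ ⟨p', z'⟩ h
    have h1 : (p : L) * z = p' * z' := congrArg Subtype.val h
    have h2 : (p' : L)⁻¹ * p = z' * (z : L)⁻¹ := by
      rw [eq_mul_inv_iff_mul_eq, mul_assoc, h1, inv_mul_cancel_left]
    have h3 : (p' : L)⁻¹ * p ∈ P := P.mul_mem (P.inv_mem p'.2) p.2
    have h4 : (p' : L)⁻¹ * p ∈ Subgroup.zpowers c := by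
      rw [h2]; exact Subgroup.mul_mem _ z'.2 (Subgroup.inv_mem _ z.2)
    obtain ⟨n, hn⟩ := hP ⟨_, h3⟩
    have hn' : ((p' : L)⁻¹ * p) ^ (3 ^ n) = 1 := by
      have := congrArg Subtype.val hn
      simpa using this
    have h5 : ((p' : L)⁻¹ * p) ^ (orderOf c) = 1 := by
      obtain ⟨k, hk⟩ := Subgroup.mem_zpowers_iff.1 h4
      rw [← hk, ← zpow_natCast, ← zpow_mul, mul_comm, zpow_mul, zpow_natCast, pow_orderOf_eq_one,
        one_zpow]
    have h6 := SY_coprime _ _ n hc h5 hn'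
    have h7 : (p : L) = p' := (inv_mul_eq_one.1 h6).symm
    have h8 : (z : L) = z' := by
      rw [h7] at h1
      exact mul_left_cancel h1
    exact Prod.ext (Subtype.ext h7) (Subtype.ext h8)
  · rintro ⟨x, hx⟩
    obtain ⟨p, hp, n, hxn⟩ := hgen x hx
    refine ⟨(⟨p, hp⟩, ⟨c ^ n, Subgroup.npow_mem_zpowers c n⟩), ?_⟩
    exact Subtype.ext hxn.symm

/-- two-point stabilisers of a 2-transitive group -/
theorem X1_pt {L Ω : Type} [Group L] [MulAction L Ω] [Finite L] [Finite Ω] (h2t : TwoTrans L Ω)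
    (α β : Ω) (hαβ : α ≠ β) : Nat.card (MulAction.stabilizer L α) =
      (Nat.card Ω - 1) * Nat.card {g : L // g • α = α ∧ g • β = β} := by
  have h1 := Nat.card_congr (MulAction.orbitProdStabilizerEquivGroup (MulAction.stabilizer L α) β)
  rw [Nat.card_prod] at h1
  have h2 : Nat.card (MulAction.orbit (MulAction.stabilizer L α) β) = Nat.card Ω - 1 := by
    have h3 : MulAction.orbit (MulAction.stabilizer L α) β = {α}ᶜ := by
      ext γ
      rw [MulAction.mem_orbit_iff, Set.mem_compl_iff, Set.mem_singleton_iff]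
      constructor
      · rintro ⟨g, hg⟩ hγ
        rw [hγ] at hg
        have h4 : (g : L) • α = α := g.2
        have h5 : (g : L) • β = (g : L) • α := by rw [h4]; exact hg
        exact hαβ (MulAction.injective (g : L) h5).symm
      · intro hγ
        obtain ⟨g, hg1, hg2⟩ := h2t α β α γ hαβ (Ne.symm hγ)
        exact ⟨⟨g, hg1⟩, hg2⟩
    rw [h3, Nat.card_coe_set_eq, Set.ncard_compl, Set.ncard_singleton]
  have h3 : Nat.card (MulAction.stabilizer (MulAction.stabilizer L α) β) =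
      Nat.card {g : L // g • α = α ∧ g • β = β} := by
    refine Nat.card_congr ⟨fun g => ⟨g.1.1, g.1.2, g.2⟩, fun g => ⟨⟨g.1, g.2.1⟩, g.2.2⟩,
      fun g => rfl, fun g => rfl⟩
  rw [← h1, h2, h3]

/-- an element with three fixed points is a 3-element -/
theorem X1_three (hPLL : PLL_stmt) (hSY : SY_stmt) (hSN : SN_stmt) {L Ω : Type} [Group L]
    [MulAction L Ω] (A : Subgroup L) (hL : LL L Ω A) (h2t : TwoTrans L Ω) (g : L) (α β γ : Ω)
    (hodd : Odd (Nat.card (MulAction.stabilizer L α)))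
    (hαβ : α ≠ β) (hγα : γ ≠ α) (hγβ : γ ≠ β) (hα : g • α = α) (hβ : g • β = β) (hγ : g • γ = γ)
    (r : ℕ) (hr : r.Prime) (hrg : r ∣ orderOf g) : r = 3 := by
  have hfinL := hL.finL
  by_contra hr3
  have hg : (⟨g, hα⟩ : MulAction.stabilizer L α) = ⟨g, hα⟩ := rfl
  have h1 : orderOf g ∣ Nat.card (MulAction.stabilizer L α) := by
    rw [← Subgroup.orderOf_mk g (show g ∈ MulAction.stabilizer L α from hα)]
    exact orderOf_dvd_natCard _
  have h2 : Odd r := Odd.of_dvd_nat hodd (hrg.trans h1)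
  have h5 : 5 ≤ r := by
    by_contra h
    have h6 : r < 5 := by omega
    have h7 := hr.two_le
    interval_cases r
    · exact absurd h2 (by decide)
    · exact hr3 rfl
    · exact absurd hr (by norm_num)
  have hpos : orderOf g ≠ 0 := (orderOf_pos g).ne'
  set x := g ^ (orderOf g / r) with hx
  have hxo : orderOf x = r := orderOf_pow_orderOf_div hpos hrg
  have hfix : ∀ ε : Ω, g • ε = ε → x • ε = ε := by
    intro ε hε
    have : g ∈ MulAction.stabilizer L ε := hε
    exact (MulAction.stabilizer L ε).pow_mem this _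
  obtain ⟨β', -, -, huniq⟩ := X1_fixtwo hPLL hSY hSN A hL h2t x α (by rw [hxo]; exact hr)
    (by rw [hxo]; exact h5) (hfix α hα)
  have h8 := (huniq β (hfix β hβ)).resolve_left hαβ.symm
  have h9 := (huniq γ (hfix γ hγ)).resolve_left hγα
  exact hγβ (by rw [h9, h8])

theorem X1 (hPLL : PLL_stmt) (hSY : SY_stmt) (hSN : SN_stmt) : X1_stmt := by
  intro L Ω _ _ A hL h2t
  have hfinL := hL.finL
  have hfinΩ := hL.finΩ
  have hfaith := hL.faithful
  have htrans := hL.trans
  have hPL := hPLL L Ω A hL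
  have hne := hPL.nonempty
  obtain ⟨α0⟩ := id hne
  have hepos : 0 < Nat.card Ω := Nat.card_pos
  obtain ⟨e4, he4⟩ := hL.four
  -- stabilisers
  have hst : ∀ α : Ω, Nat.card (MulAction.stabilizer L α) =
      Nat.card (MulAction.stabilizer L α0) := by
    have h1 : ∀ α : Ω, Nat.card (MulAction.stabilizer L α) * Nat.card Ω = Nat.card L := by
      intro α
      rw [← MulAction.index_stabilizer_of_transitive L α]
      exact Subgroup.card_mul_index _
    intro α
    exact Nat.eq_of_mul_eq_mul_right hepos ((h1 α).trans (h1 α0).symm)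
  have hodd0 : Odd (Nat.card (MulAction.stabilizer L α0)) := by
    have h1 := hL.copr α0
    have h2 : 2 ∣ Nat.card Ω := (by norm_num : 2 ∣ 4).trans hL.four
    have h3 : Nat.Coprime (Nat.card (MulAction.stabilizer L α0)) 2 := Nat.Coprime.coprime_dvd_right h2 h1
    exact (Nat.coprime_two_right).1 h3
  have hodd : ∀ α : Ω, Odd (Nat.card (MulAction.stabilizer L α)) := fun α => by
    rw [hst α]; exact hodd0
  obtain ⟨P, c0, hPH, hcH, hP, hn, hc3, hgen⟩ := hL.stab α0
  have hcard := X1_card _ P c0 hPH hcH hP hc3 hgen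
  have hfact : Fact (Nat.Prime 3) := ⟨Nat.prime_three⟩
  obtain ⟨a, ha⟩ := IsPGroup.iff_card.1 hP
  set b := orderOf c0 with hb
  rw [ha] at hcard
  have hbpos : 0 < b := orderOf_pos c0
  have hbodd : Odd b := Odd.of_dvd_nat hodd0 (by rw [hcard]; exact dvd_mul_left _ _)
  have hc0 : c0 • α0 = α0 := hcH
  -- a second fixed point of `c0`
  obtain ⟨β0, hβ0, hcβ0⟩ : ∃ β0 : Ω, β0 ≠ α0 ∧ c0 • β0 = β0 := by
    by_cases hb1 : b = 1
    · have h1 : c0 = 1 := orderOf_eq_one_iff.1 (by rw [← hb]; exact hb1)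
      have h2 : 1 < Nat.card Ω := by omega
      have h3 : Nontrivial Ω := Finite.one_lt_card_iff_nontrivial.1 h2
      obtain ⟨β, hβ⟩ := exists_ne α0
      exact ⟨β, hβ, by rw [h1, one_smul]⟩
    · obtain ⟨r, hr, hrb⟩ := Nat.exists_prime_and_dvd hb1
      have h5 : 5 ≤ r := by
        have h2 : Odd r := Odd.of_dvd_nat hbodd hrb
        by_contra h
        have h6 : r < 5 := by omega
        have h7 := hr.two_le
        interval_cases r
        · exact absurd h2 (by decide)
        · exact hc3 hrb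
        · exact absurd hr (by norm_num)
      have hxo : orderOf (c0 ^ (orderOf c0 / r)) = r := orderOf_pow_orderOf_div hbpos.ne' hrb
      have hxα : (c0 ^ (orderOf c0 / r)) • α0 = α0 :=
        (MulAction.stabilizer L α0).pow_mem hcH _
      obtain ⟨β, hβα, hβ, huniq⟩ := X1_fixtwo hPLL hSY hSN A hL h2t _ α0 (by rw [hxo]; exact hr)
        (by rw [hxo]; exact h5) hxα
      refine ⟨β, hβα, ?_⟩
      have h8 : (c0 ^ (orderOf c0 / r)) • (c0 • β) = c0 • β := by
        rw [← mul_smul, ← pow_succ, pow_succ', mul_smul, hβ]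
      rcases huniq _ h8 with h9 | h9
      · exfalso
        apply hβα
        apply MulAction.injective c0
        show c0 • β = c0 • α0
        rw [h9, hc0]
      · exact h9
  -- the degree
  have hpt : ∀ α β : Ω, α ≠ β → 3 ^ a * b =
      (Nat.card Ω - 1) * Nat.card {g : L // g • α = α ∧ g • β = β} := by
    intro α β hαβ
    rw [← hcard, ← hst α]
    exact X1_pt h2t α β hαβ
  have hbK : b ∣ Nat.card {g : L // g • α0 = α0 ∧ g • β0 = β0} := by
    have h1 : Nat.card {g : L // g • α0 = α0 ∧ g • β0 = β0} =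
        Nat.card (MulAction.stabilizer L α0 ⊓ MulAction.stabilizer L β0 : Subgroup L) :=
      Nat.card_congr ⟨fun g => ⟨g.1, g.2⟩, fun g => ⟨g.1, g.2⟩, fun g => rfl, fun g => rfl⟩
    rw [h1, hb, ← Subgroup.orderOf_mk c0 (show c0 ∈ (MulAction.stabilizer L α0 ⊓
      MulAction.stabilizer L β0 : Subgroup L) from ⟨hc0, hcβ0⟩)]
    exact orderOf_dvd_natCard _
  have hdvd : Nat.card Ω - 1 ∣ 3 ^ a := by
    obtain ⟨q, hq⟩ := hbK
    have h1 := hpt α0 β0 hβ0.symm
    rw [hq] at h1
    refine ⟨q, ?_⟩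
    apply Nat.eq_of_mul_eq_mul_right hbpos
    rw [h1]; ring
  obtain ⟨c, hca, hc⟩ := (Nat.dvd_prime_pow Nat.prime_three).1 hdvd
  have hecard : Nat.card Ω = 3 ^ c + 1 := by omega
  have hcodd : Odd c := by
    rw [← Nat.not_even_iff_odd]
    rintro ⟨m, hm⟩
    have h1 : 3 ^ c % 4 = 1 := by
      have h2 : 3 ^ c = 9 ^ m := by
        rw [hm, ← two_mul, pow_mul]; norm_num
      rw [h2, Nat.pow_mod]
      norm_num
    omega
  have hc3' : 3 ≤ c := by
    by_contra h
    have h1 : c = 0 ∨ c = 1 ∨ c = 2 := by omega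
    rcases h1 with h1 | h1 | h1
    · rw [h1] at hcodd; exact absurd hcodd (by decide)
    · rw [h1] at hecard
      exact X1_ne4 hfaith hL.simple hL.nonab (by rw [hecard]; norm_num)
    · rw [h1] at hcodd; exact absurd hcodd (by decide)
  -- `b ∣ 3 ^ c - 1`
  have hbdvd : b ∣ 3 ^ c - 1 := by
    let Y := {γ : Ω // γ ≠ α0 ∧ γ ≠ β0}
    have hz : ∀ z ∈ Subgroup.zpowers c0, z • α0 = α0 ∧ z • β0 = β0 := by
      intro z hz
      have h1 : Subgroup.zpowers c0 ≤ MulAction.stabilizer L α0 ⊓ MulAction.stabilizer L β0 := by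
        rw [Subgroup.zpowers_le]; exact ⟨hc0, hcβ0⟩
      exact h1 hz
    let _act : MulAction (Subgroup.zpowers c0) Y :=
      { smul := fun z y => ⟨(z : L) • (y : Ω), by
          constructor
          · intro h
            apply y.2.1
            apply MulAction.injective (z : L)
            show (z : L) • (y : Ω) = (z : L) • α0
            rw [h, (hz z z.2).1]
          · intro h
            apply y.2.2
            apply MulAction.injective (z : L)
            show (z : L) • (y : Ω) = (z : L) • β0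
            rw [h, (hz z z.2).2]⟩
        one_smul := fun y => Subtype.ext (one_smul L (y : Ω))
        mul_smul := fun z z' y => Subtype.ext (mul_smul (z : L) (z' : L) (y : Ω)) }
    have hYcard : Nat.card Y = 3 ^ c - 1 := by
      have h1 : Nat.card Y = Nat.card (({α0, β0} : Set Ω)ᶜ : Set Ω) := by
        refine Nat.card_congr (Equiv.subtypeEquivRight fun γ => ?_)
        simp only [Set.mem_compl_iff, Set.mem_insert_iff, Set.mem_singleton_iff, not_or]
      rw [h1, Nat.card_coe_set_eq, Set.ncard_compl, Set.ncard_pair hβ0.symm, hecard]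
      omega
    rw [← hYcard]
    refine X4_dvd (Subgroup.zpowers c0) Y b fun y => ?_
    have h1 : MulAction.stabilizer (Subgroup.zpowers c0) y = ⊥ := by
      rw [eq_bot_iff]
      intro z hzy
      rw [Subgroup.mem_bot]
      have h2 : (z : L) • (y : Ω) = y := congrArg Subtype.val hzy
      have h3 : orderOf (z : L) = 1 := by
        by_contra h4
        obtain ⟨r, hr, hrz⟩ := Nat.exists_prime_and_dvd h4
        have h5 : r = 3 := X1_three hPLL hSY hSN A hL h2t (z : L) α0 β0 y (hodd α0) hβ0.symm y.2.1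
          y.2.2 (hz z z.2).1 (hz z z.2).2 h2 r hr hrz
        apply hc3
        rw [← h5]
        refine hrz.trans ?_
        obtain ⟨k, hk⟩ := Subgroup.mem_zpowers_iff.1 z.2
        rw [orderOf_dvd_iff_pow_eq_one, ← hk, ← zpow_natCast, ← zpow_mul, mul_comm, zpow_mul,
          zpow_natCast, hb, pow_orderOf_eq_one, one_zpow]
      exact Subtype.ext (orderOf_eq_one_iff.1 h3)
    rw [h1, Subgroup.index_bot, Nat.card_zpowers]
  have hbdvd2 : b ∣ (3 ^ c - 1) / 2 := by
    have h1 : Odd (3 ^ c) := Odd.pow (by decide)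
    obtain ⟨m, hm⟩ := h1
    have h2 : (3 ^ c - 1) / 2 = m := by omega
    have h3 : 3 ^ c - 1 = 2 * m := by omega
    rw [h2]
    rw [h3] at hbdvd
    exact (Nat.Coprime.dvd_of_dvd_mul_left ((Nat.coprime_two_right).2 hbodd) hbdvd)
  have hac : c + (a - c) = a := by omega
  refine ⟨c, b, a - c, hcodd, hc3', hecard, hc3, hbodd, hbdvd2, ?_, ?_, ?_⟩
  · intro α
    rw [hst α, hcard, hac]
  · intro α β hαβ
    have h1 := hpt α β hαβ
    have h2 : Nat.card Ω - 1 = 3 ^ c := by omega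
    rw [h2] at h1
    have h3 : (3 : ℕ) ^ a = 3 ^ c * 3 ^ (a - c) := by rw [← pow_add, hac]
    rw [h3, mul_assoc] at h1
    exact (Nat.eq_of_mul_eq_mul_left (by positivity) h1).symm
  · intro g α β γ hαβ hγα hγβ hα hβ hγ
    have h1 : orderOf g = 3 ^ (orderOf g).primeFactorsList.length :=
      Nat.eq_prime_pow_of_unique_prime_dvd (orderOf_pos g).ne' fun {r} hr hrg =>
        X1_three hPLL hSY hSN A hL h2t g α β γ (hodd α) hαβ hγα hγβ hα hβ hγ r hr hrg
    refine ⟨(orderOf g).primeFactorsList.length, ?_⟩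
    rw [← h1]
    exact pow_orderOf_eq_one g

end Pool.Agent.helper53.AU
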