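import Mathlib

/-!
# Birkhoff normal form of a filtered module over `k[X]`

`L` is a `k[X]`-module with an increasing filtration `V m` (`m : ℤ`) by finite dimensional
`k`-subspaces, zero for very negative `m`, exhaustive, with `X v ∈ V (m + 1) ↔ v ∈ V m`.  Then `L`
has a `k[X]`-basis `f i` with weights `w i` such that `v ∈ V m` if and only if
`deg (coefficient i of v) + w i ≤ m` for all `i`.
-/

open Polynomial

namespace Pool.Agent.helper79.AU

variable {k L : Type*} [Field k] [AddCommGroup L] [Module k L] [Module k[X] L]
  [IsScalarTower k k[X] L]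

/-- multiplication by `X` as a `k`-linear map -/
noncomputable def mulX (k L : Type*) [Field k] [AddCommGroup L] [Module k L] [Module k[X] L]
    [IsScalarTower k k[X] L] : L →ₗ[k] L where
  toFun v := (X : k[X]) • v
  map_add' v w := smul_add _ _ _
  map_smul' c v := by
    rw [RingHom.id_apply, ← algebraMap_smul k[X] c v, ← algebraMap_smul k[X] c ((X : k[X]) • v),
      smul_smul, smul_smul, mul_comm]

@[simp] theorem mulX_apply (v : L) : mulX k L v = (X : k[X]) • v := rfl

/-- the hypotheses on the filtration -/
structure Filt (k L : Type*) [Field k] [AddCommGroup L] [Module k L] [Module k[X] L]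
    [IsScalarTower k k[X] L] (V : ℤ → Submodule k L) : Prop where
  mono : ∀ m, V m ≤ V (m + 1)
  fin : ∀ m, FiniteDimensional k (V m)
  bot : ∃ m0 : ℤ, ∀ m, m < m0 → V m = ⊥
  ex : ∀ v, ∃ m, v ∈ V m
  mulX_mem : ∀ m v, (X : k[X]) • v ∈ V (m + 1) ↔ v ∈ V m

namespace Filt

variable {V : ℤ → Submodule k L} (h : Filt k L V)

include h

theorem monotone : Monotone V := monotone_int_of_le_succ h.mono

theorem pow_mem (n : ℕ) (m : ℤ) (v : L) : (X : k[X]) ^ n • v ∈ V (m + n) ↔ v ∈ V m := by
  induction n generalizing v with
  | zero => simp
  | succ n ih =>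
    rw [pow_succ', mul_smul]
    have : (m + ((n + 1 : ℕ) : ℤ)) = (m + n) + 1 := by push_cast; ring
    rw [this, h.mulX_mem, ih]

theorem C_smul (c : k) (v : L) : (C c : k[X]) • v = c • v := algebraMap_smul k[X] c v

theorem monomial_mem (n : ℕ) (c : k) (m : ℤ) (v : L) (hv : v ∈ V m) :
    (monomial n c : k[X]) • v ∈ V (m + n) := by
  rw [← C_mul_X_pow_eq_monomial, mul_smul, h.C_smul]
  exact Submodule.smul_mem _ _ ((h.pow_mem n m v).2 hv)

/-- a polynomial of degree at most `n` shifts the filtration by `n` -/
theorem smul_mem_of_degree (a : k[X]) (w m : ℤ) (v : L) (hv : v ∈ V w)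
    (ha : a = 0 ∨ (a.natDegree : ℤ) + w ≤ m) : a • v ∈ V m := by
  rcases ha with rfl | ha
  · rw [zero_smul]; exact Submodule.zero_mem _
  rw [a.as_sum_range, Finset.sum_smul]
  refine Submodule.sum_mem _ fun n hn => ?_
  rw [Finset.mem_range] at hn
  refine h.monotone ?_ (h.monomial_mem n (a.coeff n) w v hv)
  omega

/-- the subspace of the decomposable vectors -/
noncomputable def dec (V : ℤ → Submodule k L) (m : ℤ) : Submodule k L := V (m - 1) ⊔ (V (m - 1)).map (mulX k L)

theorem dec_le (m : ℤ) : dec V m ≤ V m := by
  refine sup_le ?_ ?_
  · have := h.mono (m - 1)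
    rwa [sub_add_cancel] at this
  · rw [Submodule.map_le_iff_le_comap]
    intro v hv
    have := (h.mulX_mem (m - 1) v).2 hv
    rwa [sub_add_cancel] at this

/-- existence of a weighted set of generators with the property of Birkhoff -/
theorem exists_family : ∃ (ι : Type) (f : ι → L) (w : ι → ℤ),
    (∀ i, f i ∈ V (w i)) ∧
    (∀ m, ∀ v ∈ V m, ∃ c : ι →₀ k, (∀ i ∈ c.support, w i = m) ∧
      v - c.sum (fun i r => r • f i) ∈ dec V m) ∧
    (∀ m, ∀ c : ι →₀ k, (∀ i ∈ c.support, w i = m) → c.sum (fun i r => r • f i) ∈ dec V m →
      c = 0) := by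
  classical
  -- complements
  have hW : ∀ m, ∃ W : Submodule k L, W ≤ V m ∧ Disjoint (dec V m) W ∧ dec V m ⊔ W = V m := by
    intro m
    obtain ⟨W, hW1, hW2⟩ := IsModularLattice.exists_disjoint_and_sup_eq (h.dec_le m)
    exact ⟨W, by rw [← hW2]; exact le_sup_right, hW1, hW2⟩
  choose W hWle hWdis hWsup using hW
  have : ∀ m, FiniteDimensional k (V m) := h.fin
  have : ∀ m, FiniteDimensional k (W m) := fun m => Submodule.finiteDimensional_of_le (hWle m)
  let b : ∀ m, Module.Basis (Fin (Module.finrank k (W m))) k (W m) := fun m =>
    Module.finBasis k (W m)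
  refine ⟨Σ m : ℤ, Fin (Module.finrank k (W m)), fun i => (b i.1 i.2 : L), fun i => i.1,
    fun i => hWle _ (b i.1 i.2).2, ?_, ?_⟩
  · intro m v hv
    rw [← hWsup m] at hv
    obtain ⟨u, hu, t, ht, rfl⟩ := Submodule.mem_sup.1 hv
    refine ⟨Finsupp.mapDomain (fun j => ⟨m, j⟩) ((b m).repr ⟨t, ht⟩), ?_, ?_⟩
    · intro i hi
      have := Finsupp.mapDomain_support hi
      rw [Finset.mem_image] at this
      obtain ⟨j, -, rfl⟩ := this
      rfl
    · rw [Finsupp.sum_mapDomain_index (by simp) (by intro i r s; rw [add_smul])]
      have e : ((b m).repr ⟨t, ht⟩).sum (fun j r => r • (b m j : L)) = t := by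
        have := congrArg (Subtype.val : W m → L) ((b m).linearCombination_repr ⟨t, ht⟩)
        rw [Finsupp.linearCombination_apply, Finsupp.sum] at this
        rw [Finsupp.sum]
        simpa using this
      rw [e]
      simpa using hu
  · intro m c hc hmem
    -- `c` comes from `Fin`
    let c' : Fin (Module.finrank k (W m)) →₀ k :=
      Finsupp.comapDomain (fun j => (⟨m, j⟩ : Σ m : ℤ, Fin (Module.finrank k (W m)))) c
        (by intro x _ y _ hxy; simpa using hxy)
    have hcc : c = Finsupp.mapDomain (fun j => ⟨m, j⟩) c' := by
      rw [Finsupp.mapDomain_comapDomain]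
      · intro x y hxy; simpa using hxy
      · intro i hi
        obtain ⟨m', j⟩ := i
        have : m' = m := hc _ hi
        subst this
        exact ⟨j, rfl⟩
    have e : c.sum (fun i r => r • ((b i.1 i.2 : W i.1) : L)) =
        ((Finsupp.linearCombination k (b m) c' : W m) : L) := by
      rw [hcc, Finsupp.sum_mapDomain_index (by simp) (by intro i r s; rw [add_smul]),
        Finsupp.linearCombination_apply, Finsupp.sum, Finsupp.sum]
      simp
    rw [e] at hmem
    have h0 : ((Finsupp.linearCombination k (b m) c' : W m) : L) = 0 :=
      Submodule.disjoint_def.1 (hWdis m) _ hmem (Subtype.prop _)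
    have h1 : Finsupp.linearCombination k (b m) c' = 0 := Subtype.ext h0
    have h2 : c' = 0 := by
      have := (b m).linearIndependent
      rw [linearIndependent_iff] at this
      exact this c' h1
    rw [hcc, h2, Finsupp.mapDomain_zero]

/-- Birkhoff normal form -/
theorem birkhoff : ∃ (ι : Type) (f : Module.Basis ι k[X] L) (w : ι → ℤ), ∀ m v,
    v ∈ V m ↔ ∀ i, f.repr v i = 0 ∨ ((f.repr v i).natDegree : ℤ) + w i ≤ m := by
  classical
  obtain ⟨ι, f, w, hf, hgen, hind⟩ := h.exists_family
  obtain ⟨m0, hm0⟩ := h.bot
  -- weights are bounded below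
  have hw : ∀ i, m0 ≤ w i := by
    intro i
    by_contra hi
    push Not at hi
    have h1 : f i = 0 := by
      have := hf i
      rwa [hm0 _ hi, Submodule.mem_bot] at this
    have h2 := hind (w i) (Finsupp.single i 1) (by
      intro j hj
      have := Finsupp.support_single_subset hj
      rw [Finset.mem_singleton] at this
      rw [this]) (by
      rw [Finsupp.sum_single_index (by rw [zero_smul]), h1, smul_zero]
      exact Submodule.zero_mem _)
    rw [Finsupp.single_eq_zero] at h2
    exact one_ne_zero h2
  -- generation
  have gen : ∀ n : ℕ, ∀ m : ℤ, m < m0 + n → ∀ v ∈ V m, ∃ a : ι →₀ k[X],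
      a.sum (fun i r => r • f i) = v ∧ ∀ i, a i = 0 ∨ ((a i).natDegree : ℤ) + w i ≤ m := by
    intro n
    induction n with
    | zero =>
      intro m hm v hv
      rw [hm0 m (by simpa using hm), Submodule.mem_bot] at hv
      exact ⟨0, by simp [hv], fun i => Or.inl rfl⟩
    | succ n ih =>
      intro m hm v hv
      obtain ⟨c, hc1, hc2⟩ := hgen m v hv
      obtain ⟨u, hu, t, ht, hut⟩ := Submodule.mem_sup.1 hc2
      obtain ⟨t', ht', rfl⟩ := ht
      rw [mulX_apply] at hut
      obtain ⟨a1, ha1, ha1'⟩ := ih (m - 1) (by push_cast at hm; omega) u hu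
      obtain ⟨a2, ha2, ha2'⟩ := ih (m - 1) (by push_cast at hm; omega) t' ht'
      refine ⟨c.mapRange (fun r => (C r : k[X])) C_0 + (a1 + (X : k[X]) • a2), ?_, ?_⟩
      · have hs : ∀ a b : ι →₀ k[X], (a + b).sum (fun i r => r • f i) =
            a.sum (fun i r => r • f i) + b.sum (fun i r => r • f i) := by
          intro a b
          exact Finsupp.sum_add_index' (by simp) (by intro i r s; rw [add_smul])
        rw [hs, hs, ha1, Finsupp.sum_mapRange_index (by simp)]
        have e1 : (c.sum fun i r => (C r : k[X]) • f i) = c.sum fun i r => r • f i := by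
          refine Finsupp.sum_congr fun i _ => ?_
          exact h.C_smul _ _
        have e2 : ((X : k[X]) • a2).sum (fun i r => r • f i) = (X : k[X]) • t' := by
          rw [Finsupp.sum_smul_index (by simp), ← ha2, Finsupp.smul_sum]
          refine Finsupp.sum_congr fun i _ => ?_
          rw [mul_smul]
        rw [e1, e2, hut]
        abel
      · intro i
        have k1 : c i = 0 ∨ w i = m := by
          by_cases hci : c i = 0
          · exact Or.inl hci
          · exact Or.inr (hc1 i (Finsupp.mem_support_iff.2 hci))
        have d1 : (C (c i) : k[X]).degree ≤ ((m - w i).toNat : ℕ) ∧ ((C (c i) : k[X]) = 0 ∨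
            w i ≤ m) := by
          rcases k1 with h1 | h1
          · rw [h1]; simp
          · exact ⟨degree_C_le.trans (by exact_mod_cast Nat.zero_le _), Or.inr h1.le⟩
        by_cases hwi : w i ≤ m
        · right
          have key : (C (c i) + (a1 i + X * a2 i) : k[X]).natDegree ≤ (m - w i).toNat := by
            refine natDegree_add_le_of_degree_le ?_ (natDegree_add_le_of_degree_le ?_ ?_)
            · rw [natDegree_C]; exact Nat.zero_le _
            · rcases ha1' i with h1 | h1
              · rw [h1]; simp
              · omega
            · rcases ha2' i with h1 | h1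
              · rw [h1]; simp
              · refine natDegree_mul_le.trans ?_
                rw [natDegree_X]
                omega
          have e : ((c.mapRange (fun r => (C r : k[X])) C_0 + (a1 + (X : k[X]) • a2)) i) =
              (C (c i) + (a1 i + X * a2 i) : k[X]) := by
            simp
          rw [e]
          omega
        · left
          have z1 : c i = 0 := by
            rcases k1 with h1 | h1
            · exact h1
            · exact absurd h1.le hwi
          have z2 : a1 i = 0 := by
            rcases ha1' i with h1 | h1
            · exact h1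
            · omega
          have z3 : a2 i = 0 := by
            rcases ha2' i with h1 | h1
            · exact h1
            · omega
          simp [z1, z2, z3]
  -- independence of leading terms
  have lead : ∀ n : ℕ, ∀ m : ℤ, m < m0 + n → ∀ c : ι →₀ k, (∀ i ∈ c.support, w i ≤ m) →
      c.sum (fun i r => (monomial (m - w i).toNat r : k[X]) • f i) ∈ V (m - 1) → c = 0 := by
    intro n
    induction n with
    | zero =>
      intro m hm c hc _
      rw [← Finsupp.support_eq_empty, Finset.eq_empty_iff_forall_notMem]
      intro i hi
      have := hc i hi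
      have := hw i
      simp at hm
      omega
    | succ n ih =>
      intro m hm c hc hmem
      -- split
      let c1 := c.filter (fun i => w i = m)
      let c2 := c.filter (fun i => ¬ w i = m)
      have hc1ap : ∀ i, c1 i = if w i = m then c i else 0 := fun i => by
        simp only [c1, Finsupp.filter_apply]
      have hc2ap : ∀ i, c2 i = if w i = m then 0 else c i := fun i => by
        simp only [c2, Finsupp.filter_apply]
        by_cases h : w i = m <;> simp [h]
      have hc1w : ∀ i ∈ c1.support, w i = m := by
        intro i hi
        have hi' := Finsupp.mem_support_iff.1 hi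
        by_contra hne
        rw [hc1ap, if_neg hne] at hi'
        exact hi' rfl
      have hc2w : ∀ i ∈ c2.support, w i ≤ m - 1 := by
        intro i hi
        have hi' := Finsupp.mem_support_iff.1 hi
        have h1 : w i ≠ m := by
          intro hne
          rw [hc2ap, if_pos hne] at hi'
          exact hi' rfl
        have h2 : w i ≤ m := by
          refine hc i (Finsupp.mem_support_iff.2 ?_)
          rwa [hc2ap, if_neg h1] at hi'
        omega
      have hc12 : c1 + c2 = c := by
        ext i
        rw [Finsupp.add_apply, hc1ap, hc2ap]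
        by_cases h : w i = m <;> simp [h]
      have hsum : c.sum (fun i r => (monomial (m - w i).toNat r : k[X]) • f i) =
          c1.sum (fun i r => r • f i) +
          (X : k[X]) • c2.sum (fun i r => (monomial (m - 1 - w i).toNat r : k[X]) • f i) := by
        conv_lhs => rw [← hc12]
        rw [Finsupp.sum_add_index' (by simp) (by intro i r s; rw [map_add, add_smul])]
        congr 1
        · refine Finsupp.sum_congr fun i hi => ?_
          have : w i = m := hc1w i hi
          rw [this, sub_self, Int.toNat_zero, monomial_zero_left]
          exact h.C_smul _ _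
        · rw [Finsupp.smul_sum]
          refine Finsupp.sum_congr fun i hi => ?_
          have h2 := hc2w i hi
          have h3 : (m - w i).toNat = (m - 1 - w i).toNat + 1 := by omega
          rw [smul_smul, h3, X_mul_monomial]
      have hu2 : c2.sum (fun i r => (monomial (m - 1 - w i).toNat r : k[X]) • f i) ∈ V (m - 1) := by
        refine Submodule.sum_mem _ fun i hi => ?_
        have := hc2w i hi
        refine h.monotone ?_ (h.monomial_mem (m - 1 - w i).toNat (c2 i) (w i) (f i) (hf i))
        omega
      have hc1mem : c1.sum (fun i r => r • f i) ∈ dec V m := by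
        have e : c1.sum (fun i r => r • f i) =
            c.sum (fun i r => (monomial (m - w i).toNat r : k[X]) • f i) -
            (X : k[X]) • c2.sum (fun i r => (monomial (m - 1 - w i).toNat r : k[X]) • f i) := by
          rw [hsum]; abel
        rw [e]
        refine Submodule.sub_mem _ (Submodule.mem_sup_left hmem) (Submodule.mem_sup_right ?_)
        exact ⟨_, hu2, rfl⟩
      have hc1z : c1 = 0 := by
        exact hind m c1 hc1w hc1mem
      have hc2z : c2 = 0 := by
        refine ih (m - 1) (by push_cast at hm; omega) c2 hc2w ?_
        rw [hsum, hc1z, Finsupp.sum_zero_index, zero_add] at hmem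
        have e : V (m - 1) = V ((m - 1 - 1) + 1) := by
          congr 1; ring
        rw [e, h.mulX_mem] at hmem
        exact hmem
      rw [← hc12, hc1z, hc2z, add_zero]
  -- orthogonality
  have orth : ∀ n : ℕ, ∀ m : ℤ, ∀ a : ι →₀ k[X], (∀ i, a i = 0 ∨
      ((a i).natDegree : ℤ) + w i ≤ m + n) → a.sum (fun i r => r • f i) ∈ V m →
      ∀ i, a i = 0 ∨ ((a i).natDegree : ℤ) + w i ≤ m := by
    intro n
    induction n with
    | zero => intro m a ha _ i; simpa using ha i
    | succ n ih =>
      intro m a ha hmem
      refine ih m a ?_ hmem
      -- leading coefficients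
      set M : ℤ := m + (n + 1 : ℕ) with hM
      let c : ι →₀ k := Finsupp.onFinset a.support
        (fun i => if w i ≤ M then (a i).coeff (M - w i).toNat else 0) (by
          intro i hi
          rw [Finsupp.mem_support_iff]
          intro h0
          apply hi
          rw [h0]; simp)
      have hcap : ∀ i, c i = if w i ≤ M then (a i).coeff (M - w i).toNat else 0 := fun i => rfl
      have hcs : ∀ i ∈ c.support, w i ≤ M := by
        intro i hi
        have hi' := Finsupp.mem_support_iff.1 hi
        by_contra hne
        rw [hcap, if_neg hne] at hi'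
        exact hi' rfl
      have hcsub : c.support ⊆ a.support := by
        intro i hi
        have hi' := Finsupp.mem_support_iff.1 hi
        rw [Finsupp.mem_support_iff]
        intro h0
        apply hi'
        rw [hcap, h0]; simp
      have hc0 : c = 0 := by
        obtain ⟨n', hn'⟩ : ∃ n' : ℕ, M < m0 + n' := ⟨(M - m0).toNat + 1, by push_cast; omega⟩
        refine lead n' M hn' c hcs ?_
        have e : c.sum (fun i r => (monomial (M - w i).toNat r : k[X]) • f i) =
            a.sum (fun i r => r • f i) -
            ∑ i ∈ a.support, (a i - monomial (M - w i).toNat (c i)) • f i := by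
          rw [Finsupp.sum, Finsupp.sum]
          rw [Finset.sum_subset hcsub (fun i _ hi => by
            rw [Finsupp.notMem_support_iff.1 hi]; simp)]
          rw [← Finset.sum_sub_distrib]
          refine Finset.sum_congr rfl fun i _ => ?_
          rw [sub_smul]; abel
        rw [e]
        refine Submodule.sub_mem _ ?_ (Submodule.sum_mem _ fun i hi => ?_)
        · refine h.monotone ?_ hmem
          rw [hM]; push_cast; omega
        · refine h.smul_mem_of_degree _ (w i) (M - 1) (f i) (hf i) ?_
          have hai : a i ≠ 0 := Finsupp.mem_support_iff.1 hi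
          have hd : ((a i).natDegree : ℤ) + w i ≤ M := by
            rcases ha i with h1 | h1
            · exact absurd h1 hai
            · exact h1
          have hwM : w i ≤ M := by omega
          by_cases hz : a i - monomial (M - w i).toNat (c i) = 0
          · exact Or.inl hz
          right
          have hlt : (a i - monomial (M - w i).toNat (c i)).degree <
              ((M - w i).toNat : ℕ) := by
            rw [degree_lt_iff_coeff_zero]
            intro j hj
            rw [coeff_sub, coeff_monomial]
            rcases hj.eq_or_lt with hj | hj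
            · rw [if_pos hj, hcap, if_pos hwM, ← hj, sub_self]
            · rw [if_neg hj.ne, sub_zero]
              refine coeff_eq_zero_of_natDegree_lt ?_
              omega
          rw [degree_eq_natDegree hz] at hlt
          have : (a i - monomial (M - w i).toNat (c i)).natDegree < (M - w i).toNat := by
            exact_mod_cast hlt
          omega
      intro i
      rcases ha i with h1 | h1
      · exact Or.inl h1
      · by_cases h2 : ((a i).natDegree : ℤ) + w i = M
        · left
          have h3 : c i = 0 := by rw [hc0]; rfl
          rw [hcap, if_pos (by omega)] at h3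
          have h4 : (M - w i).toNat = (a i).natDegree := by omega
          rw [h4] at h3
          exact leadingCoeff_eq_zero.1 h3
        · right
          have : ((a i).natDegree : ℤ) + w i ≤ M := h1
          rw [hM] at this h2
          push_cast at this h2
          omega
  -- every family of coefficients has bounded weights
  have bd : ∀ (m : ℤ) (a : ι →₀ k[X]), ∃ n : ℕ, ∀ i, a i = 0 ∨
      ((a i).natDegree : ℤ) + w i ≤ m + n := by
    intro m a
    refine ⟨∑ i ∈ a.support, ((a i).natDegree + w i - m).toNat, fun i => ?_⟩
    by_cases hi : a i = 0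
    · exact Or.inl hi
    · right
      have := Finset.single_le_sum (f := fun i => ((a i).natDegree + w i - m).toNat)
        (fun _ _ => Nat.zero_le _) (Finsupp.mem_support_iff.2 hi)
      have h2 := Int.self_le_toNat ((a i).natDegree + w i - m)
      have h3 : ((((a i).natDegree + w i - m).toNat : ℕ) : ℤ) ≤
          ((∑ i ∈ a.support, ((a i).natDegree + w i - m).toNat : ℕ) : ℤ) := by
        exact_mod_cast this
      omega
  have orth' : ∀ m : ℤ, ∀ a : ι →₀ k[X], a.sum (fun i r => r • f i) ∈ V m →
      ∀ i, a i = 0 ∨ ((a i).natDegree : ℤ) + w i ≤ m := by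
    intro m a hmem
    obtain ⟨n, hn⟩ := bd m a
    exact orth n m a hn hmem
  have li : LinearIndependent k[X] f := by
    rw [linearIndependent_iff]
    intro a ha
    ext1 i
    rw [Finsupp.linearCombination_apply] at ha
    rcases orth' (m0 - 1) a (by rw [ha]; exact Submodule.zero_mem _) i with h1 | h1
    · exact h1
    · have := hw i
      omega
  have sp : ⊤ ≤ Submodule.span k[X] (Set.range f) := by
    intro v _
    obtain ⟨m, hm⟩ := h.ex v
    obtain ⟨a, ha, -⟩ := gen ((m - m0).toNat + 1) m (by push_cast; omega) v hm
    rw [← ha]
    exact Submodule.sum_mem _ fun i _ => Submodule.smul_mem _ _ (Submodule.subset_span ⟨i, rfl⟩)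
  let B := Module.Basis.mk li sp
  have hB : ∀ v, (B.repr v).sum (fun i r => r • f i) = v := by
    intro v
    have := B.linearCombination_repr v
    rw [Finsupp.linearCombination_apply] at this
    simpa [B] using this
  refine ⟨ι, B, w, fun m v => ⟨fun hv => ?_, fun hv => ?_⟩⟩
  · exact orth' m (B.repr v) (by rw [hB]; exact hv)
  · rw [← hB v]
    refine Submodule.sum_mem _ fun i _ => ?_
    exact h.smul_mem_of_degree _ (w i) m (f i) (hf i) (hv i)

end Filt

/-- membership in `degreeLT` in terms of `natDegree` -/
theorem mem_degreeLT_iff (p : k[X]) (m w : ℤ) :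
    p ∈ degreeLT k (m - w + 1).toNat ↔ p = 0 ∨ (p.natDegree : ℤ) + w ≤ m := by
  rw [mem_degreeLT]
  by_cases hp : p = 0
  · simp [hp]
  · rw [degree_eq_natDegree hp]
    simp only [hp, false_or]
    constructor
    · intro h
      have : p.natDegree < (m - w + 1).toNat := by exact_mod_cast h
      omega
    · intro h
      have : p.natDegree < (m - w + 1).toNat := by omega
      exact_mod_cast this

/-- the dimension formula of the Birkhoff normal form -/
theorem finrank_of_birkhoff {V : ℤ → Submodule k L} {ι : Type} [Fintype ι]
    (f : Module.Basis ι k[X] L) (w : ι → ℤ) (hf : ∀ m v,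
      v ∈ V m ↔ ∀ i, f.repr v i = 0 ∨ ((f.repr v i).natDegree : ℤ) + w i ≤ m) (m : ℤ) :
    Module.finrank k (V m) = ∑ i, (m - w i + 1).toNat := by
  classical
  let φ : (∀ i : ι, degreeLT k (m - w i + 1).toNat) →ₗ[k] L :=
    { toFun := fun a => ∑ i, (a i : k[X]) • f i
      map_add' := fun a b => by
        rw [← Finset.sum_add_distrib]
        refine Finset.sum_congr rfl fun i _ => ?_
        rw [Pi.add_apply, Submodule.coe_add, add_smul]
      map_smul' := fun c a => by
        rw [RingHom.id_apply, Finset.smul_sum]
        refine Finset.sum_congr rfl fun i _ => ?_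
        rw [Pi.smul_apply, Submodule.coe_smul, smul_assoc] }
  have hrepr : ∀ a i, f.repr (φ a) i = (a i : k[X]) := by
    intro a i
    change f.repr (∑ i, (a i : k[X]) • f i) i = _
    rw [f.repr_sum_self]
  have hinj : Function.Injective φ := by
    intro a b hab
    ext1 i
    exact Subtype.ext (by rw [← hrepr a i, ← hrepr b i, hab])
  have hrange : LinearMap.range φ = V m := by
    ext v
    rw [LinearMap.mem_range, hf]
    constructor
    · rintro ⟨a, rfl⟩ i
      rw [hrepr]
      exact (mem_degreeLT_iff _ _ _).1 (a i).2
    · intro h
      refine ⟨fun i => ⟨f.repr v i, (mem_degreeLT_iff _ _ _).2 (h i)⟩, ?_⟩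
      change ∑ i, (f.repr v i) • f i = v
      exact f.sum_repr v
  rw [← hrange, LinearMap.finrank_range_of_inj hinj]
  have hfin : ∀ i : ι, Module.Finite k (degreeLT k (m - w i + 1).toNat) := fun i =>
    Module.Finite.equiv (degreeLTEquiv k (m - w i + 1).toNat).symm
  rw [Module.finrank_pi_fintype]
  refine Finset.sum_congr rfl fun i _ => ?_
  rw [(degreeLTEquiv k (m - w i + 1).toNat).finrank_eq, Module.finrank_fin_fun]

end Pool.Agent.helper79.AU
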