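import Pool.Agent.helper75.AU.SpecR

/-!
# Project au: common lemmas for P5C and P5D

`P5_per c s` is the least `m ≥ 1` with `c ^ m * s = s * c ^ m`.
-/

namespace Pool.Agent.helper75.AU

open scoped Classical
open Pool.Agent.helper53.AU MulAction

noncomputable section

/-- the period of `s` under conjugation by `c` -/
def P5_per {G : Type} [Group G] (c s : G) : ℕ := Function.minimalPeriod (fun t : G => c * t * c⁻¹) s

theorem P5_iterate {G : Type} [Group G] (c s : G) (n : ℕ) :
    (fun t : G => c * t * c⁻¹)^[n] s = c ^ n * s * (c ^ n)⁻¹ := by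
  induction n with
  | zero => simp
  | succ n ih =>
    rw [Function.iterate_succ_apply', ih, pow_succ']
    group

theorem P5_per_dvd {G : Type} [Group G] (c s : G) (n : ℕ) :
    P5_per c s ∣ n ↔ c ^ n * s = s * c ^ n := by
  rw [P5_per, ← Function.isPeriodicPt_iff_minimalPeriod_dvd, Function.IsPeriodicPt,
    Function.IsFixedPt, P5_iterate, mul_inv_eq_iff_eq_mul]

theorem P5_per_inv {G : Type} [Group G] (c s : G) : P5_per c s⁻¹ = P5_per c s := by
  refine Nat.dvd_antisymm ?_ ?_
  · rw [P5_per_dvd]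
    have h := (P5_per_dvd c s (P5_per c s)).1 dvd_rfl
    have h' : Commute (c ^ P5_per c s) s := h
    exact h'.inv_right
  · rw [P5_per_dvd]
    have h := (P5_per_dvd c s⁻¹ (P5_per c s⁻¹)).1 dvd_rfl
    have h' : Commute (c ^ P5_per c s⁻¹) s⁻¹ := h
    have := h'.inv_right
    rw [inv_inv] at this
    exact this

theorem P5_per_dvd_order {G : Type} [Group G] (c s : G) : P5_per c s ∣ orderOf c := by
  rw [P5_per_dvd, pow_orderOf_eq_one, one_mul, mul_one]

/-- if all periods of a permutation are equal to `m`, then `m` divides the number of points -/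
theorem P5_dvd_card {S : Type*} [Finite S] (σ : Equiv.Perm S) (m : ℕ)
    (h : ∀ s, Function.minimalPeriod σ s = m) : m ∣ Nat.card S := by
  have : Fintype (orbitRel.Quotient (Subgroup.zpowers σ) S) := Fintype.ofFinite _
  have e := MulAction.selfEquivSigmaOrbits (Subgroup.zpowers σ) S
  rw [Nat.card_congr e, Nat.card_sigma]
  refine Finset.dvd_sum fun ω _ => ?_
  have e2 := MulAction.orbitZPowersEquiv σ ω.out
  rw [Nat.card_congr e2, Nat.card_zmod]
  have : Function.minimalPeriod (σ • ·) ω.out = m := h ω.out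
  rw [this]

/-- a finite set stable under conjugation by `c` all of whose elements have period `m` -/
theorem P5_dvd_card_set {G : Type} [Group G] [Fintype G] (c : G) (A : Set G) (m : ℕ)
    (hA : ∀ s, c * s * c⁻¹ ∈ A ↔ s ∈ A) (hm : ∀ s ∈ A, P5_per c s = m) : m ∣ Nat.card A := by
  let σ : Equiv.Perm A := Equiv.Perm.subtypePerm ((MulAut.conj c).toEquiv : Equiv.Perm G)
    (p := fun s => s ∈ A) (fun s => by
      change c * s * c⁻¹ ∈ A ↔ s ∈ A
      exact hA s)
  refine P5_dvd_card σ m fun s => ?_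
  rw [← hm s.1 s.2, P5_per]
  have hit : ∀ n : ℕ, ((σ^[n] s : A) : G) = (fun t : G => c * t * c⁻¹)^[n] s := by
    intro n
    induction n with
    | zero => rfl
    | succ n ih =>
      rw [Function.iterate_succ_apply', Function.iterate_succ_apply', ← ih]
      rfl
  refine Nat.dvd_antisymm ?_ ?_
  · rw [← Function.isPeriodicPt_iff_minimalPeriod_dvd, Function.IsPeriodicPt, Function.IsFixedPt]
    apply Subtype.ext
    rw [hit]
    exact Function.iterate_minimalPeriod
  · rw [← Function.isPeriodicPt_iff_minimalPeriod_dvd, Function.IsPeriodicPt, Function.IsFixedPt,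
      ← hit]
    exact congrArg Subtype.val Function.iterate_minimalPeriod

/-- the only prime divisor of the period is 2 -/
theorem P5_prime {k G X : Type} [Field k] [CharP k 3] [Group G] [Fintype G] [MulAction G X]
    [Fintype X] {l : ℕ} (R : Ram k G X (l + 1)) (hF4 : F4_stmt) (hBA1 : BA1_stmt) (hl : Special l)
    (x : X) (c : G) (hcx : c • x = x) (h3 : ¬ 3 ∣ orderOf c)
    (hh : ∀ r : ℕ, r.Prime → 5 ≤ r → r ∣ orderOf c → r ∣ l + 1) (s : G) (hs : s ∈ R.P x) :
    ∃ j : ℕ, P5_per c s = 2 ^ j := by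
  have hpos : 0 < orderOf c := orderOf_pos c
  have hm0 : P5_per c s ≠ 0 := by
    intro h0
    have := P5_per_dvd_order c s
    rw [h0, zero_dvd_iff] at this
    omega
  refine ⟨_, Nat.eq_prime_pow_of_unique_prime_dvd hm0 (p := 2) ?_⟩
  intro r hr hrm
  by_contra hr2
  have hrh : r ∣ orderOf c := hrm.trans (P5_per_dvd_order c s)
  have hr3 : r ≠ 3 := by
    rintro rfl
    exact h3 hrh
  have hr5 : 5 ≤ r := by
    have h2 := hr.two_le
    by_contra hlt
    have h4 : r = 4 := by omega
    rw [h4] at hr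
    exact absurd hr (by decide)
  have hcs := hF4 k G X l R r (c ^ (orderOf c / r ^ (orderOf c).factorization r)) (R.P x) hl hr hr5
    (Or.inl (hh r hr hr5 hrh)) ⟨(orderOf c).factorization r, by
      rw [← pow_mul, Nat.div_mul_cancel (Nat.ordProj_dvd _ _), pow_orderOf_eq_one]⟩
    ((hBA1 k G X (l + 1) R x).1) (by
      intro t ht
      refine (hBA1 k G X (l + 1) R x).2.2.2.2.1 _ t ?_ ht
      have : c ^ (orderOf c / r ^ (orderOf c).factorization r) ∈ stabilizer G x :=
        Subgroup.pow_mem _ (MulAction.mem_stabilizer_iff.2 hcx) _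
      exact MulAction.mem_stabilizer_iff.1 this) s hs
  have h5 : P5_per c s ∣ orderOf c / r ^ (orderOf c).factorization r :=
    (P5_per_dvd c s _).2 hcs
  exact Nat.not_dvd_ordCompl hr hpos.ne' (hrm.trans h5)

/-- a power of 2 dividing a number not divisible by `2 ^ (n + 1)` divides `2 ^ n` -/
theorem P5_pow_le {j n a : ℕ} (h : 2 ^ j ∣ a) (h2 : ¬ 2 ^ (n + 1) ∣ a) : j ≤ n := by
  by_contra hlt
  push Not at hlt
  exact h2 ((pow_dvd_pow 2 hlt).trans h)

/-- elements of `P_x` fix `x` -/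
theorem P5_fix {k G X : Type} [Field k] [Group G] [Fintype G] [MulAction G X]
    [Fintype X] {g : ℕ} (R : Ram k G X g) (x : X) (s : G) (hs : s ∈ R.P x) : s • x = x := by
  obtain ⟨⟨t, ht⟩, -, rfl⟩ := hs
  exact ht

/-- the layers of `P_x` -/
def P5_lay {k G X : Type} [Field k] [Group G] [Fintype G] [MulAction G X]
    [Fintype X] {g : ℕ} (R : Ram k G X g) (x : X) (j : ℕ) : Subgroup G where
  carrier := {s | s ∈ R.P x ∧ (s = 1 ∨ j ≤ R.i x s)}
  one_mem' := ⟨Subgroup.one_mem _, Or.inl rfl⟩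
  mul_mem' := by
    rintro s t ⟨hs, hs'⟩ ⟨ht, ht'⟩
    refine ⟨Subgroup.mul_mem _ hs ht, ?_⟩
    by_cases h1 : s = 1
    · rw [h1, one_mul]; exact ht'
    by_cases h2 : t = 1
    · rw [h2, mul_one]; exact hs'
    by_cases h3 : s * t = 1
    · exact Or.inl h3
    right
    have h4 := R.ultra x s t (P5_fix R x s hs) (P5_fix R x t ht) h1 h2 h3
    have h5 := hs'.resolve_left h1
    have h6 := ht'.resolve_left h2
    exact (le_min h5 h6).trans h4
  inv_mem' := by
    rintro s ⟨hs, hs'⟩
    refine ⟨Subgroup.inv_mem _ hs, ?_⟩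
    rcases hs' with h | h
    · left; rw [h, inv_one]
    · right; rw [R.inv x s (P5_fix R x s hs)]; exact h

theorem P5_mem_lay {k G X : Type} [Field k] [Group G] [Fintype G] [MulAction G X]
    [Fintype X] {g : ℕ} (R : Ram k G X g) (x : X) (j : ℕ) (s : G) :
    s ∈ P5_lay R x j ↔ s ∈ R.P x ∧ (s = 1 ∨ j ≤ R.i x s) := Iff.rfl

/-- conjugation by an element fixing the point preserves `i` -/
theorem P5_conj_i {k G X : Type} [Field k] [Group G] [Fintype G] [MulAction G X]
    [Fintype X] {g : ℕ} (R : Ram k G X g) (x : X) (c s : G) (hc : c • x = x) :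
    R.i x (c * s * c⁻¹) = R.i x s := by
  have := R.conj c s x
  rwa [hc] at this

theorem P5_conj_P {k G X : Type} [Field k] [CharP k 3] [Group G] [Fintype G] [MulAction G X]
    [Fintype X] {g : ℕ} (hBA1 : BA1_stmt) (R : Ram k G X g) (x : X) (c s : G) (hc : c • x = x) :
    c * s * c⁻¹ ∈ R.P x ↔ s ∈ R.P x := by
  have := (hBA1 k G X g R x).2.2.2.1 c s
  rwa [hc] at this

theorem P5_conj_lay {k G X : Type} [Field k] [CharP k 3] [Group G] [Fintype G] [MulAction G X]
    [Fintype X] {g : ℕ} (hBA1 : BA1_stmt) (R : Ram k G X g) (x : X) (j : ℕ) (c s : G)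
    (hc : c • x = x) : c * s * c⁻¹ ∈ P5_lay R x j ↔ s ∈ P5_lay R x j := by
  rw [P5_mem_lay, P5_mem_lay, P5_conj_P hBA1 R x c s hc, P5_conj_i R x c s hc]
  have : c * s * c⁻¹ = 1 ↔ s = 1 := by
    rw [mul_inv_eq_one, mul_eq_left]
  rw [this]

theorem P5_card {G : Type} [Group G] [Fintype G] (H : Subgroup G) :
    (Finset.univ.filter (fun s : G => s ∈ H ∧ s ≠ 1)).card + 1 = Nat.card H := by
  have h1 : Nat.card H = (Finset.univ.filter (fun s : G => s ∈ H)).card := by
    rw [Nat.card_eq_fintype_card, Fintype.card_subtype]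
  have h2 : Finset.univ.filter (fun s : G => s ∈ H ∧ s ≠ 1) =
      (Finset.univ.filter (fun s : G => s ∈ H)).erase 1 := by
    ext s
    simp only [Finset.mem_filter, Finset.mem_univ, true_and, Finset.mem_erase]
    tauto
  rw [h1, h2]
  have h3 : (1 : G) ∈ Finset.univ.filter (fun s : G => s ∈ H) := by
    simp only [Finset.mem_filter, Finset.mem_univ, true_and]
    exact Subgroup.one_mem H
  exact Finset.card_erase_add_one h3

/-- the lower bound for the sum of the `h / m s` -/
theorem P5_sum {G : Type} (A : Finset G) (h : ℚ) (h0 : 0 ≤ h) (m : G → ℕ) (M : ℕ)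
    (hm : ∀ s ∈ A, 0 < m s ∧ m s ≤ M) (s0 s1 : G) (hs0 : s0 ∈ A) (hs1 : s1 ∈ A) (hne : s0 ≠ s1)
    (h2 : 2 * m s0 ≤ M) (h3 : 2 * m s1 ≤ M) :
    ((A.card : ℚ) + 2) * (h / M) ≤ ∑ s ∈ A, h / (m s : ℚ) := by
  have hM : 0 < M := lt_of_lt_of_le (hm s0 hs0).1 (hm s0 hs0).2
  have hle : ∀ s ∈ A, h / M ≤ h / (m s : ℚ) := by
    intro s hs
    have h4 : (0 : ℚ) < m s := by exact_mod_cast (hm s hs).1
    have h5 : (m s : ℚ) ≤ M := by exact_mod_cast (hm s hs).2
    exact div_le_div_of_nonneg_left h0 h4 h5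
  have hle2 : ∀ s, s ∈ A → 2 * m s ≤ M → 2 * (h / M) ≤ h / (m s : ℚ) := by
    intro s hs hs2
    have h4 : (0 : ℚ) < m s := by exact_mod_cast (hm s hs).1
    have h5 : (2 : ℚ) * (m s : ℚ) ≤ M := by exact_mod_cast hs2
    have h6 : (0 : ℚ) < M := by exact_mod_cast hM
    rw [← mul_div_assoc, div_le_div_iff₀ h6 h4]
    nlinarith
  have h7 : ∑ s ∈ A, (h / M + if s = s0 then h / M else if s = s1 then h / M else 0) ≤
      ∑ s ∈ A, h / (m s : ℚ) := by
    refine Finset.sum_le_sum fun s hs => ?_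
    split_ifs with e0 e1
    · have := hle2 s hs (by rw [e0]; exact h2)
      linarith
    · have := hle2 s hs (by rw [e1]; exact h3)
      linarith
    · have := hle s hs
      linarith
  refine le_trans (le_of_eq ?_) h7
  have h8 : ∀ s, (if s = s0 then h / M else if s = s1 then h / M else (0 : ℚ)) =
      (if s = s0 then h / M else 0) + (if s = s1 then h / M else 0) := by
    intro s
    by_cases e0 : s = s0
    · have : s ≠ s1 := by rw [e0]; exact hne
      simp [e0, hne]
    · simp [e0]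
  simp_rw [h8]
  rw [Finset.sum_add_distrib, Finset.sum_add_distrib, Finset.sum_const, Finset.sum_ite_eq',
    Finset.sum_ite_eq', if_pos hs0, if_pos hs1, nsmul_eq_mul]
  ring

/-- in a 3-group an element is different from its inverse -/
theorem P5_ne_inv {G : Type} [Group G] [Fintype G] (P : Subgroup G) (hP : IsPGroup 3 P) (s : G)
    (hs : s ∈ P) (h1 : s ≠ 1) : s ≠ s⁻¹ := by
  intro h
  have h2 : s ^ 2 = 1 := by
    rw [pow_two]
    nth_rewrite 2 [h]
    exact mul_inv_cancel s
  obtain ⟨n, hn⟩ := hP ⟨s, hs⟩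
  have hn' : s ^ 3 ^ n = 1 := by
    have := congrArg Subtype.val hn
    simpa using this
  have h3 := orderOf_dvd_of_pow_eq_one h2
  have h4 := orderOf_dvd_of_pow_eq_one hn'
  have h5 : orderOf s ∣ 1 := by
    have hc : Nat.Coprime 2 (3 ^ n) := Nat.Coprime.pow_right n (by decide)
    have := Nat.dvd_gcd h3 h4
    rwa [hc] at this
  exact h1 (orderOf_eq_one_iff.1 (Nat.dvd_one.1 h5))

theorem P5_three_pow (b : ℕ) : 3 ^ b % 8 = 1 ∨ 3 ^ b % 8 = 3 := by
  induction b with
  | zero => left; rfl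
  | succ n ih => rw [pow_succ]; omega

end

end Pool.Agent.helper75.AU
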